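import Pool.Agent.T6.H92.TK.Defs3
import Pool.Agent.T6.H92.TG.Core0

/-!
# Interpolation of iterated differences (helper24, module KLK)
-/

set_option autoImplicit false

namespace Pool.Agent.T6.H92.TK

open Finset Filter Topology Pool.Agent.T6.H92.TG

namespace ModKLK

theorem D_sub_shift (k : ℕ) (f : ℕ → ℝ) (m : ℕ) :
    ∀ x, D k (fun i => f (i + m) - f i) x = D k f (x + m) - D k f x := by
  induction k with
  | zero => intro x; rfl
  | succ k ih =>
    intro x
    rw [D_succ, ih, ih, D_succ, D_succ, show x + 1 + m = x + m + 1 by ring]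
    ring

theorem tele (k : ℕ) (f : ℕ → ℝ) (x m : ℕ) :
    D k f (x + m) - D k f x = ∑ j ∈ range m, D (k + 1) f (x + j) := by
  induction m with
  | zero => simp
  | succ m ih =>
    rw [sum_range_succ, ← ih, D_succ, show x + m + 1 = x + (m + 1) by ring]
    ring

theorem D_const (k : ℕ) (c : ℝ) : ∀ l, D (k + 1) (fun _ => c) l = 0 := by
  induction k with
  | zero => intro l; show c - c = 0; ring
  | succ k ih =>
    intro l
    rw [D_succ, ih, ih, sub_zero]

theorem D_sub_const {k : ℕ} (hk : 1 ≤ k) (f : ℕ → ℝ) (c : ℝ) (l : ℕ) :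
    D k f l = D k (fun i => f i - c) l := by
  obtain ⟨k', rfl⟩ : ∃ k', k = k' + 1 := ⟨k - 1, by omega⟩
  have h := D_add (k' + 1) (fun i => f i - c) (fun _ => c) l
  rw [D_const, add_zero] at h
  rw [← h]
  congr 1
  funext i
  ring

theorem interp (k : ℕ) (m : ℕ) : ∀ (f : ℕ → ℝ) (l : ℕ) (A B : ℝ),
    (∀ s ≤ k * m, |D k f (l + s) - A| ≤ B) →
    |D k (fun i => f (l + m * i)) 0 - (m : ℝ) ^ k * A| ≤ (m : ℝ) ^ k * B := by
  induction k with
  | zero =>
    intro f l A B h
    have := h 0 (by simp)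
    simpa [D] using this
  | succ k ih =>
    intro f l A B h
    have e1 : D (k + 1) (fun i => f (l + m * i)) 0 =
        D k (fun i => (fun x => f (x + m) - f x) (l + m * i)) 0 := by
      rw [D_succ']
      congr 1
      funext i
      show f (l + m * (i + 1)) - f (l + m * i) = f (l + m * i + m) - f (l + m * i)
      rw [show l + m * (i + 1) = l + m * i + m by ring]
    rw [e1]
    have h' : ∀ s ≤ k * m, |D k (fun x => f (x + m) - f x) (l + s) - m * A| ≤ m * B := by
      intro s hs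
      rw [D_sub_shift, tele]
      have e2 : ∑ j ∈ range m, D (k + 1) f (l + s + j) - m * A =
          ∑ j ∈ range m, (D (k + 1) f (l + s + j) - A) := by
        rw [sum_sub_distrib, sum_const, card_range, nsmul_eq_mul]
      rw [e2]
      refine (abs_sum_le_sum_abs _ _).trans ?_
      have : ∑ j ∈ range m, |D (k + 1) f (l + s + j) - A| ≤ ∑ _j ∈ range m, B := by
        apply sum_le_sum
        intro j hj
        have hj' := mem_range.1 hj
        rw [add_assoc]
        apply h
        calc s + j ≤ k * m + m := by omega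
          _ = (k + 1) * m := by ring
      rwa [sum_const, card_range, nsmul_eq_mul] at this
    have := ih (fun x => f (x + m) - f x) l (m * A) (m * B) h'
    calc |D k (fun i => (fun x => f (x + m) - f x) (l + m * i)) 0 - (m : ℝ) ^ (k + 1) * A|
        = |D k (fun i => (fun x => f (x + m) - f x) (l + m * i)) 0 - (m : ℝ) ^ k * (m * A)| := by
          congr 1; ring
      _ ≤ (m : ℝ) ^ k * (m * B) := this
      _ = (m : ℝ) ^ (k + 1) * B := by ring

/-- the situation at one place -/
theorem core {u r : ℕ → ℝ} {N k m : ℕ} {a b η : ℝ} (hk : 1 ≤ k) (hm : 1 ≤ m)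
    (hu : ∀ j, 0 < u (N + j)) (hr : ∀ j, 0 < r (N + j)) (ha : 0 ≤ a) (hb : 0 ≤ b) (hη : 0 ≤ η)
    (h2 : ∀ i : ℕ, i * r N ≤ 1 → r (N + i) ≤ 2 * r N)
    (h1 : ∀ j, |u (N + j + 1) - u (N + j)| ≤ a * (r (N + j) * u (N + j)))
    (h1' : ∀ j, |u (N + j + 1) - u (N + j)| ≤ η * (r (N + j) * u (N + j)))
    (hD : ∀ j, |D (k + 1) u (N + j)| ≤ b * (r (N + j) ^ (k + 1) * u (N + j)))
    (hkm : (k * m : ℕ) * r N ≤ 1) :
    |D k u N| / (r N ^ k * u N) ≤ 2 ^ (k + 1) * Real.exp (2 * a) * η / (m * r N) ^ k +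
      k * b * 2 ^ (k + 1) * Real.exp (2 * a) * (m * r N) := by
  have hrN : 0 < r N := hr 0
  have huN : 0 < u N := hu 0
  have hle : ∀ i : ℕ, i ≤ k * m → (i : ℝ) * r N ≤ 1 := by
    intro i hi
    refine le_trans ?_ hkm
    have : (i : ℝ) ≤ ((k * m : ℕ) : ℝ) := by exact_mod_cast hi
    exact mul_le_mul_of_nonneg_right this hrN.le
  -- growth
  have hgr : ∀ i : ℕ, i ≤ k * m → u (N + i) ≤ (1 + 2 * a * r N) ^ i * u N := by
    intro i
    induction i with
    | zero => intro _; simp
    | succ i ih =>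
      intro hi
      have h3 := ih (by omega)
      have h4 := h2 i (hle i (by omega))
      have h5 := (abs_le.1 (h1 i)).2
      have h6 : a * (r (N + i) * u (N + i)) ≤ a * (2 * r N * u (N + i)) :=
        mul_le_mul_of_nonneg_left (mul_le_mul_of_nonneg_right h4 (hu i).le) ha
      have h7 : u (N + (i + 1)) ≤ (1 + 2 * a * r N) * u (N + i) := by
        rw [← add_assoc]
        linarith
      have h8 : 0 ≤ 1 + 2 * a * r N := by positivity
      calc u (N + (i + 1)) ≤ (1 + 2 * a * r N) * u (N + i) := h7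
        _ ≤ (1 + 2 * a * r N) * ((1 + 2 * a * r N) ^ i * u N) :=
          mul_le_mul_of_nonneg_left h3 h8
        _ = (1 + 2 * a * r N) ^ (i + 1) * u N := by ring
  have hK : ∀ i : ℕ, i ≤ k * m → u (N + i) ≤ Real.exp (2 * a) * u N := by
    intro i hi
    refine (hgr i hi).trans ?_
    apply mul_le_mul_of_nonneg_right _ huN.le
    have h3 : 1 + 2 * a * r N ≤ Real.exp (2 * a * r N) := by
      have := Real.add_one_le_exp (2 * a * r N)
      linarith
    calc (1 + 2 * a * r N) ^ i ≤ Real.exp (2 * a * r N) ^ i :=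
          pow_le_pow_left₀ (by positivity) h3 i
      _ = Real.exp (i * (2 * a * r N)) := by rw [Real.exp_nat_mul]
      _ ≤ Real.exp (2 * a) := by
          apply Real.exp_le_exp.2
          have := mul_le_mul_of_nonneg_left (hle i hi) (by positivity : 0 ≤ 2 * a)
          linarith
  have hE : 0 < Real.exp (2 * a) := Real.exp_pos _
  -- variation
  have hvar : ∀ i : ℕ, i ≤ k * m → |u (N + i) - u N| ≤ 2 * Real.exp (2 * a) * η * u N := by
    intro i hi
    have h3 : ∀ i : ℕ, i ≤ k * m → |u (N + i) - u N| ≤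
        i * (η * (2 * r N * (Real.exp (2 * a) * u N))) := by
      intro i
      induction i with
      | zero => intro _; simp
      | succ i ih =>
        intro hi
        have h4 := ih (by omega)
        have h5 := h2 i (hle i (by omega))
        have h6 := hK i (by omega)
        have h7 : |u (N + i + 1) - u (N + i)| ≤ η * (2 * r N * (Real.exp (2 * a) * u N)) := by
          refine (h1' i).trans (mul_le_mul_of_nonneg_left ?_ hη)
          exact mul_le_mul h5 h6 (hu i).le (by positivity)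
        have h8 : |u (N + (i + 1)) - u N| ≤ |u (N + i + 1) - u (N + i)| + |u (N + i) - u N| := by
          rw [← add_assoc]
          calc |u (N + i + 1) - u N| = |(u (N + i + 1) - u (N + i)) + (u (N + i) - u N)| := by
                congr 1; ring
            _ ≤ _ := abs_add_le _ _
        push_cast
        linarith
    refine (h3 i hi).trans ?_
    have h4 := mul_le_mul_of_nonneg_right (hle i hi)
      (by positivity : 0 ≤ 2 * Real.exp (2 * a) * η * u N)
    calc (i : ℝ) * (η * (2 * r N * (Real.exp (2 * a) * u N)))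
        = (i : ℝ) * r N * (2 * Real.exp (2 * a) * η * u N) := by ring
      _ ≤ 1 * (2 * Real.exp (2 * a) * η * u N) := h4
      _ = _ := one_mul _
  -- the differences of order `k`
  have hdk : ∀ s ≤ k * m, |D k u (N + s) - D k u N| ≤
      (k * m : ℕ) * (b * ((2 * r N) ^ (k + 1) * (Real.exp (2 * a) * u N))) := by
    intro s hs
    rw [tele]
    refine (abs_sum_le_sum_abs _ _).trans ?_
    have h3 : ∑ j ∈ range s, |D (k + 1) u (N + j)| ≤
        ∑ _j ∈ range s, (b * ((2 * r N) ^ (k + 1) * (Real.exp (2 * a) * u N))) := by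
      apply sum_le_sum
      intro j hj
      have hj' := mem_range.1 hj
      refine (hD j).trans (mul_le_mul_of_nonneg_left ?_ hb)
      have h5 := h2 j (hle j (by omega))
      have h6 := hK j (by omega)
      exact mul_le_mul (pow_le_pow_left₀ (hr j).le h5 _) h6 (hu j).le (by positivity)
    refine h3.trans ?_
    rw [sum_const, card_range, nsmul_eq_mul]
    apply mul_le_mul_of_nonneg_right _ (by positivity)
    exact_mod_cast hs
  have hint := interp k m u N (D k u N) _ hdk
  have hbd : |D k (fun i => u (N + m * i)) 0| ≤ 2 ^ k * (2 * Real.exp (2 * a) * η * u N) := by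
    rw [D_sub_const hk (fun i => u (N + m * i)) (u N)]
    apply D_bound
    intro i _ hi
    apply hvar
    calc m * i ≤ m * k := Nat.mul_le_mul_left m (by omega)
      _ = k * m := Nat.mul_comm _ _
  have hm0 : (0 : ℝ) < m := by exact_mod_cast hm
  have hmk : (0 : ℝ) < (m : ℝ) ^ k := by positivity
  have hmain : (m : ℝ) ^ k * |D k u N| ≤ 2 ^ k * (2 * Real.exp (2 * a) * η * u N) +
      (m : ℝ) ^ k * ((k * m : ℕ) * (b * ((2 * r N) ^ (k + 1) * (Real.exp (2 * a) * u N)))) := by
    have h3 : (m : ℝ) ^ k * |D k u N| = |(m : ℝ) ^ k * D k u N| := by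
      rw [abs_mul, abs_of_pos hmk]
    rw [h3]
    have h4 : |(m : ℝ) ^ k * D k u N| ≤ |D k (fun i => u (N + m * i)) 0| +
        |D k (fun i => u (N + m * i)) 0 - (m : ℝ) ^ k * D k u N| := by
      calc |(m : ℝ) ^ k * D k u N| = |D k (fun i => u (N + m * i)) 0 -
            (D k (fun i => u (N + m * i)) 0 - (m : ℝ) ^ k * D k u N)| := by congr 1; ring
        _ ≤ _ := abs_sub _ _
    linarith
  have hpos : 0 < r N ^ k * u N := by positivity
  rw [div_le_iff₀ hpos]
  have hfin : |D k u N| ≤ (2 ^ k * (2 * Real.exp (2 * a) * η * u N) +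
      (m : ℝ) ^ k * ((k * m : ℕ) * (b * ((2 * r N) ^ (k + 1) * (Real.exp (2 * a) * u N))))) /
        (m : ℝ) ^ k := by
    rw [le_div_iff₀ hmk, mul_comm]
    exact hmain
  refine hfin.trans (le_of_eq ?_)
  have hrk : r N ^ k ≠ 0 := (pow_pos hrN k).ne'
  have hmk' : (m : ℝ) ^ k ≠ 0 := hmk.ne'
  rw [mul_pow (m : ℝ) (r N) k]
  push_cast
  field_simp
  ring

end ModKLK

open ModKLK in
theorem lk : StmLK := by
  intro u r hu hr hr0 h2 hD h1 k hk
  obtain ⟨C1, hC1⟩ := hD 1
  obtain ⟨C2, hC2⟩ := hD (k + 1)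
  rw [Metric.tendsto_atTop]
  intro ε hε
  have hE : 0 < Real.exp (2 * |C1|) := Real.exp_pos _
  have hk0 : (0 : ℝ) < k := by exact_mod_cast hk
  -- choice of δ
  obtain ⟨δ, hδ0, hδ1, hδ2⟩ : ∃ δ : ℝ, 0 < δ ∧ k * δ ≤ 1 ∧
      k * |C2| * 2 ^ (k + 1) * Real.exp (2 * |C1|) * δ ≤ ε / 4 := by
    have hX : 0 < k * |C2| * 2 ^ (k + 1) * Real.exp (2 * |C1|) + 1 := by positivity
    refine ⟨min (1 / (k : ℝ)) (ε / 4 / (k * |C2| * 2 ^ (k + 1) * Real.exp (2 * |C1|) + 1)),
      lt_min (by positivity) (by positivity), ?_, ?_⟩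
    · refine (mul_le_mul_of_nonneg_left (min_le_left _ _) hk0.le).trans (le_of_eq ?_)
      field_simp
    · have h3 : k * |C2| * 2 ^ (k + 1) * Real.exp (2 * |C1|) *
          min (1 / (k : ℝ)) (ε / 4 / (k * |C2| * 2 ^ (k + 1) * Real.exp (2 * |C1|) + 1)) ≤
          k * |C2| * 2 ^ (k + 1) * Real.exp (2 * |C1|) *
            (ε / 4 / (k * |C2| * 2 ^ (k + 1) * Real.exp (2 * |C1|) + 1)) :=
        mul_le_mul_of_nonneg_left (min_le_right _ _) (by positivity)
      refine h3.trans ?_
      rw [← mul_div_assoc, div_le_iff₀ hX]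
      nlinarith [hε]
  -- choice of η
  obtain ⟨η, hη0, hη⟩ : ∃ η : ℝ, 0 < η ∧
      2 ^ (k + 1) * Real.exp (2 * |C1|) * η / (δ / 2) ^ k ≤ ε / 4 := by
    refine ⟨ε / 4 * (δ / 2) ^ k / (2 ^ (k + 1) * Real.exp (2 * |C1|)), by positivity, ?_⟩
    apply le_of_eq
    field_simp
  have hev : ∀ᶠ N : ℕ in atTop, 0 < u N ∧ 0 < r N ∧
      |u (N + 1) - u N| ≤ |C1| * (r N * u N) ∧ |u (N + 1) - u N| ≤ η * (r N * u N) ∧
      |D (k + 1) u N| ≤ |C2| * (r N ^ (k + 1) * u N) := by
    have h1' : ∀ᶠ N : ℕ in atTop, |(u (N + 1) / u N - 1) / r N| < η := by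
      have := (Metric.tendsto_atTop.1 h1) η hη0
      obtain ⟨M, hM⟩ := this
      filter_upwards [eventually_ge_atTop M] with N hN
      have := hM N hN
      rwa [Real.dist_eq, sub_zero] at this
    filter_upwards [hu, hr, hC1, hC2, h1'] with N a1 a2 a3 a4 a5
    refine ⟨a1, a2, ?_, ?_, ?_⟩
    · have h3 : D 1 u N = u (N + 1) - u N := rfl
      rw [h3, pow_one] at a3
      exact a3.trans (mul_le_mul_of_nonneg_right (le_abs_self _) (by positivity))
    · have h3 : (u (N + 1) / u N - 1) / r N = (u (N + 1) - u N) / (r N * u N) := by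
        field_simp
      rw [h3, abs_div, abs_of_pos (by positivity : 0 < r N * u N), div_lt_iff₀ (by positivity)]
        at a5
      exact a5.le
    · exact a4.trans (mul_le_mul_of_nonneg_right (le_abs_self _) (by positivity))
  obtain ⟨M1, hM1⟩ := eventually_atTop.1 hev
  obtain ⟨M2, hM2⟩ := eventually_atTop.1 h2
  obtain ⟨M3, hM3⟩ := (Metric.tendsto_atTop.1 hr0) δ hδ0
  refine ⟨max M1 (max M2 M3), fun N hN => ?_⟩
  have hN1 : M1 ≤ N := (le_max_left _ _).trans hN
  have hN2 : M2 ≤ N := ((le_max_left _ _).trans (le_max_right _ _)).trans hN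
  have hN3 : M3 ≤ N := ((le_max_right _ _).trans (le_max_right _ _)).trans hN
  have hrN : 0 < r N := (hM1 N hN1).2.1
  have huN : 0 < u N := (hM1 N hN1).1
  have hrδ : r N < δ := by
    have := hM3 N hN3
    rw [Real.dist_eq, sub_zero, abs_of_pos hrN] at this
    exact this
  obtain ⟨m, hm⟩ : ∃ m : ℕ, m = ⌊δ / r N⌋₊ := ⟨_, rfl⟩
  have hx1 : 1 ≤ δ / r N := by
    rw [le_div_iff₀ hrN]
    linarith
  have hm1 : 1 ≤ m := by
    rw [hm]
    exact Nat.le_floor (by exact_mod_cast hx1)
  have hmr : (m : ℝ) * r N ≤ δ := by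
    have := Nat.floor_le (by positivity : 0 ≤ δ / r N)
    rw [← hm, le_div_iff₀ hrN] at this
    exact this
  have hmr2 : δ / 2 ≤ (m : ℝ) * r N := by
    have h3 := Nat.lt_floor_add_one (δ / r N)
    rw [← hm] at h3
    have h4 : (1 : ℝ) ≤ m := by exact_mod_cast hm1
    have h5 : δ / r N < 2 * m := by linarith
    rw [div_lt_iff₀ hrN] at h5
    linarith
  have hkm : ((k * m : ℕ) : ℝ) * r N ≤ 1 := by
    push_cast
    calc (k : ℝ) * m * r N = k * (m * r N) := by ring
      _ ≤ k * δ := mul_le_mul_of_nonneg_left hmr hk0.le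
      _ ≤ 1 := hδ1
  have hc := core (u := u) (r := r) (N := N) (k := k) (m := m) (a := |C1|) (b := |C2|) (η := η)
    hk hm1 (fun j => (hM1 (N + j) (by omega)).1) (fun j => (hM1 (N + j) (by omega)).2.1)
    (abs_nonneg _) (abs_nonneg _) hη0.le (hM2 N hN2)
    (fun j => (hM1 (N + j) (by omega)).2.2.1) (fun j => (hM1 (N + j) (by omega)).2.2.2.1)
    (fun j => (hM1 (N + j) (by omega)).2.2.2.2) hkm
  rw [Real.dist_eq, sub_zero, abs_div, abs_of_pos (by positivity : 0 < r N ^ k * u N)]
  have h3 : 2 ^ (k + 1) * Real.exp (2 * |C1|) * η / (m * r N) ^ k ≤ ε / 4 := by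
    refine le_trans ?_ hη
    apply div_le_div_of_nonneg_left (by positivity) (by positivity)
    exact pow_le_pow_left₀ (by positivity) hmr2 k
  have h4 : k * |C2| * 2 ^ (k + 1) * Real.exp (2 * |C1|) * (m * r N) ≤ ε / 4 := by
    refine le_trans ?_ hδ2
    exact mul_le_mul_of_nonneg_left hmr (by positivity)
  linarith

end Pool.Agent.T6.H92.TK
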