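import Pool.Agent.T6.H92.TK.Defs2
import Pool.Agent.R945.KR.Kn

/-!
# Lattice knots: numbers of polygons in classes closed under connected sums
-/

set_option autoImplicit false

namespace Pool.Agent.T6.H92.TK.ModKCNT

open Finset KN Filter Topology
open TH966.KS (yq yq_nonneg)
open Pool.Agent.R945.KR (log_csum ub_csum)
open scoped Classical

theorem u_eq (Q : List Dir → Prop) (hμ : 0 < gr Q) (n : ℕ) (hn : 1 ≤ n) :
    zq Q ^ n * (a Q (2 * n) : ℝ) = 4 * n * yq Q n := by
  have hn0 : (0 : ℝ) < n := by exact_mod_cast hn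
  have h1 : gr Q ^ (2 * n) ≠ 0 := (pow_pos hμ _).ne'
  unfold zq yq
  rw [GEN.pn_eq, inv_pow, ← pow_mul]
  field_simp
  ring

theorem u_nonneg (Q : List Dir → Prop) (n : ℕ) : 0 ≤ zq Q ^ n * (a Q (2 * n) : ℝ) := by
  have : 0 ≤ zq Q := by unfold zq; positivity
  positivity

/-- a bound for the terms from an eventual bound -/
theorem u_le (Q : List Dir → Prop) (hμ : 0 < gr Q) (B : ℕ → ℝ)
    (h : ∀ᶠ n : ℕ in atTop, yq Q n ≤ B n) :
    ∃ C : ℝ, 0 ≤ C ∧ ∀ n, zq Q ^ n * (a Q (2 * n) : ℝ) ≤ C ∨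
      (1 ≤ n ∧ zq Q ^ n * (a Q (2 * n) : ℝ) ≤ 4 * n * B n) := by
  obtain ⟨s, hs⟩ := eventually_atTop.1 h
  refine ⟨∑ n ∈ range (s + 1), zq Q ^ n * (a Q (2 * n) : ℝ),
    Finset.sum_nonneg fun n _ => u_nonneg Q n, fun n => ?_⟩
  rcases lt_or_ge n (s + 1) with h1 | h1
  · left
    exact Finset.single_le_sum (f := fun n => zq Q ^ n * (a Q (2 * n) : ℝ))
      (fun n _ => u_nonneg Q n) (Finset.mem_range.2 h1)
  · right
    refine ⟨by omega, ?_⟩
    rw [u_eq Q hμ n (by omega)]
    have := hs n (by omega)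
    have hn0 : (0 : ℝ) ≤ 4 * n := by positivity
    exact mul_le_mul_of_nonneg_left this hn0

theorem lq_eq (Q : List Dir → Prop) (N : ℕ) : lq Q N = - Real.log (yq Q N) := by
  unfold lq yq
  rw [← Real.log_inv, inv_div]

end Pool.Agent.T6.H92.TK.ModKCNT

namespace Pool.Agent.T6.H92.TK

open Finset KN Filter Topology ModKCNT
open TH966.KS (yq yq_nonneg)
open Pool.Agent.R945.KR (log_csum ub_csum)
open scoped Classical

theorem cnt : StmCnt := by
  intro Q hQ hne hc
  obtain ⟨h1, -, -⟩ := gr_bounds Q hQ hne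
  have hμ : 0 < gr Q := by linarith
  obtain ⟨C, hC0, hC⟩ := u_le Q hμ (fun _ => 16) (ub_csum Q hQ hne hc)
  have hpos : (0 : ℝ) < 640 + C := by linarith
  refine ⟨Real.log (640 + C), Real.log_nonneg (by linarith), ?_, ?_⟩
  · filter_upwards [class_pos Q hQ hne, ub_csum Q hQ hne hc, eventually_ge_atTop 1] with N hp hu hN
    have hN0 : (1 : ℝ) ≤ N := by exact_mod_cast hN
    have hy : 0 < yq Q N := div_pos hp (pow_pos hμ _)
    refine ⟨hp, ?_, fun n hn => ?_⟩
    · rw [lq_eq]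
      have : Real.log (yq Q N) ≤ Real.log (640 + C) := Real.log_le_log hy (by linarith)
      linarith
    · have hR : Real.exp (Real.log (640 + C) + lq Q N) * (zq Q ^ N * (a Q (2 * N) : ℝ)) =
          (640 + C) * (4 * N) := by
        rw [u_eq Q hμ N hN, lq_eq, Real.exp_add, Real.exp_log hpos, Real.exp_neg, Real.exp_log hy]
        field_simp
      rw [hR]
      have hn' : (n : ℝ) ≤ 10 * N := by exact_mod_cast hn
      rcases hC n with h | ⟨h2, h⟩
      · nlinarith
      · nlinarith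
  · have := (log_csum Q hQ hne hc).neg
    rw [neg_zero] at this
    refine this.congr fun N => ?_
    rw [lq_eq]
    ring

end Pool.Agent.T6.H92.TK
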