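import Pool.Agent.H246KN.Cls

/-!
# Lattice knots: statements of the modules on the numbers of polygons
-/

set_option autoImplicit false

namespace Pool.Agent.T6.H92.TK

open Finset KN Filter Topology
open scoped Classical

noncomputable section

/-- the radius of convergence in the variable of the half length -/
def zq (Q : List Dir → Prop) : ℝ := (gr Q ^ 2)⁻¹

/-- `log (μ^(2 N) / p_(2 N))` -/
def lq (Q : List Dir → Prop) (N : ℕ) : ℝ := Real.log (gr Q ^ (2 * N) / pq Q (2 * N))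

/-- KCNT: classes closed under connected sums -/
def StmCnt : Prop := ∀ Q : List Dir → Prop, KClass Q → (∃ w, SAP w ∧ Q w) → CSum Q →
  ∃ L : ℝ, 0 ≤ L ∧ (∀ᶠ N : ℕ in atTop, 0 < pq Q (2 * N) ∧ -L ≤ lq Q N ∧
    ∀ n : ℕ, n ≤ 10 * N → zq Q ^ n * (a Q (2 * n) : ℝ) ≤
      Real.exp (L + lq Q N) * (zq Q ^ N * (a Q (2 * N) : ℝ))) ∧
    Tendsto (fun N : ℕ => lq Q N / N) atTop (𝓝 0)

/-- KPOL: classes with polynomial bounds -/
def StmPol : Prop := ∀ Q : List Dir → Prop, KClass Q → (∃ w, SAP w ∧ Q w) → ∀ b : ℕ,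
  (∀ᶠ j : ℕ in atTop, gr Q ^ (2 * j) ≤ (2 * j : ℝ) ^ b * pq Q (2 * j) ∧
    pq Q (2 * j) ≤ (2 * j : ℝ) ^ b * gr Q ^ (2 * j)) →
  ∃ L : ℝ, 0 ≤ L ∧ ∀ᶠ N : ℕ in atTop, 0 < pq Q (2 * N) ∧
    ∀ n : ℕ, n ≤ 10 * N → zq Q ^ n * (a Q (2 * n) : ℝ) ≤
      Real.exp (L * Real.log N) * (zq Q ^ N * (a Q (2 * N) : ℝ))

end

end Pool.Agent.T6.H92.TK
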