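import Pool.Agent.T6.H92.TK.Defs
import Pool.Agent.H246KN.INS
import Pool.Agent.H246KN.CHG

/-!
# KLOC: free plaquettes and bump plaquettes after the insertion of a bump
-/

set_option autoImplicit false

namespace Pool.Agent.T6.H92.TK

open Finset KN Pool.Agent.T6.H92.TG
open scoped Classical

namespace ModKLOC

section
variable (l1 l2 : List Dir) (d e : Dir)

theorem drop_new (s : ℕ) (L : List Dir) : (l1 ++ L).drop (l1.length + s) = L.drop s := by
  rw [List.drop_append]
  simp

theorem P_le {k : ℕ} (hk : k ≤ l1.length) :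
    pos ((l1 ++ neg d :: e :: d :: l2).drop k) = pos ((l1 ++ e :: l2).drop k) := by
  rw [List.drop_append_of_le_length hk, List.drop_append_of_le_length hk, pos_append, pos_append]
  simp only [pos, vec_neg]
  abel

theorem P_ge {m : ℕ} (hm : l1.length + 1 ≤ m) :
    pos ((l1 ++ neg d :: e :: d :: l2).drop (m + 2)) = pos ((l1 ++ e :: l2).drop m) := by
  obtain ⟨s, rfl⟩ := Nat.exists_eq_add_of_le hm
  have e1 : l1.length + 1 + s + 2 = l1.length + (s + 3) := by omega
  have e2 : l1.length + 1 + s = l1.length + (s + 1) := by omega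
  rw [e1, e2, drop_new, drop_new]
  simp only [List.drop_succ_cons]

theorem Q0 : pos ((l1 ++ neg d :: e :: d :: l2).drop l1.length) = pos l2 + vec e := by
  have := drop_new l1 0 (neg d :: e :: d :: l2)
  rw [Nat.add_zero] at this
  rw [this]
  simp only [List.drop_zero, pos, vec_neg]
  abel

theorem Q1 : pos ((l1 ++ neg d :: e :: d :: l2).drop (l1.length + 1)) = pos l2 + vec d + vec e := by
  rw [drop_new]
  simp only [List.drop_succ_cons, List.drop_zero, pos]

theorem Q2 : pos ((l1 ++ neg d :: e :: d :: l2).drop (l1.length + 2)) = pos l2 + vec d := by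
  rw [drop_new]
  simp only [List.drop_succ_cons, List.drop_zero, pos]

theorem Q3 : pos ((l1 ++ neg d :: e :: d :: l2).drop (l1.length + 3)) = pos l2 := by
  rw [drop_new]
  simp only [List.drop_succ_cons, List.drop_zero]

theorem Qk {k : ℕ} (hk : k ≤ 3) : pos ((l1 ++ neg d :: e :: d :: l2).drop (l1.length + k)) ∈
    ({pos l2, pos l2 + vec e, pos l2 + vec d, pos l2 + vec d + vec e} : Finset Z3) := by
  have : k = 0 ∨ k = 1 ∨ k = 2 ∨ k = 3 := by omega
  rcases this with rfl | rfl | rfl | rfl
  · rw [Nat.add_zero, Q0]; simp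
  · rw [Q1]; simp
  · rw [Q2]; simp
  · rw [Q3]; simp

theorem R0 : pos ((l1 ++ e :: l2).drop l1.length) = pos l2 + vec e := by
  have := drop_new l1 0 (e :: l2)
  rw [Nat.add_zero] at this
  rw [this]
  simp only [List.drop_zero, pos]

theorem R1 : pos ((l1 ++ e :: l2).drop (l1.length + 1)) = pos l2 := by
  rw [drop_new]
  simp only [List.drop_succ_cons, List.drop_zero]

end

theorem mem_bcell {w : List Dir} {j : ℕ} {p : Z3} :
    p ∈ bcell w j ↔ ∃ k, k ≤ 3 ∧ p = pos (w.drop (j + k)) := by
  unfold bcell
  simp only [Finset.mem_insert, Finset.mem_singleton]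
  constructor
  · rintro (h | h | h | h)
    · exact ⟨0, by omega, h⟩
    · exact ⟨1, by omega, h⟩
    · exact ⟨2, by omega, h⟩
    · exact ⟨3, by omega, h⟩
  · rintro ⟨k, hk, h⟩
    have : k = 0 ∨ k = 1 ∨ k = 2 ∨ k = 3 := by omega
    rcases this with rfl | rfl | rfl | rfl
    · exact Or.inl h
    · exact Or.inr (Or.inl h)
    · exact Or.inr (Or.inr (Or.inl h))
    · exact Or.inr (Or.inr (Or.inr h))

/-- the statement for a word written as `l1 ++ e :: l2` -/
theorem core (l1 l2 : List Dir) (e d : Dir) (hp : perp d e)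
    (h1 : pos l2 + vec d ∉ path (l1 ++ e :: l2))
    (h2 : pos l2 + vec d + vec e ∉ path (l1 ++ e :: l2)) (F : Finset Z3)
    (hF : F = {pos l2, pos l2 + vec e, pos l2 + vec d, pos l2 + vec d + vec e}) :
    ¬ IsB (l1 ++ e :: l2) F ∧ bcell (l1 ++ neg d :: e :: d :: l2) l1.length = F ∧
    ¬ IsF (l1 ++ neg d :: e :: d :: l2) F ∧
    ∀ c : Finset Z3, Disjoint F c →
      (IsF (l1 ++ neg d :: e :: d :: l2) c ↔ IsF (l1 ++ e :: l2) c) ∧
      (IsB (l1 ++ neg d :: e :: d :: l2) c ↔ IsB (l1 ++ e :: l2) c) := by
  have hnew := CHG.mem_new l1 l2 d e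
  refine ⟨?_, ?_, ?_, ?_⟩
  · rintro ⟨j, hj, hc⟩
    have h3 : pos l2 + vec d ∈ bcell (l1 ++ e :: l2) j := by
      rw [hc, hF]; simp
    obtain ⟨k, hk, h4⟩ := mem_bcell.1 h3
    have h5 := (mem_bumps.1 hj).1
    exact h1 ((mem_path_iff _ _).2 ⟨j + k, by omega, h4⟩)
  · unfold bcell
    rw [Q0, Q1, Q2, Q3, hF]
    ext p
    simp only [Finset.mem_insert, Finset.mem_singleton]
    tauto
  · rintro ⟨⟨j, f⟩, hj, hc⟩
    simp only at hc
    obtain ⟨j1, j2, j3, j4⟩ := mem_sites.1 hj
    apply j3
    rw [hnew]
    have h3 : pos ((l1 ++ neg d :: e :: d :: l2).drop (j + 1)) + vec f ∈ F := by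
      rw [← hc]; unfold fcell; simp
    rw [hF] at h3
    simp only [Finset.mem_insert, Finset.mem_singleton] at h3
    rcases h3 with h3 | h3 | h3 | h3
    · left
      rw [h3, mem_path_iff]
      exact ⟨l1.length + 1, by simp, (R1 l1 l2 e).symm⟩
    · left
      rw [h3, mem_path_iff]
      exact ⟨l1.length, by simp, (R0 l1 l2 e).symm⟩
    · right; right; exact h3
    · right; left; exact h3
  · intro c hc
    have hcc : ∀ p, p ∈ F → p ∈ c → False := fun p ha hb =>
      Finset.disjoint_left.1 hc ha hb
    constructor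
    · constructor
      · rintro ⟨⟨j', f⟩, hj, hcj⟩
        simp only at hcj
        obtain ⟨j1, j2, j3, j4⟩ := mem_sites.1 hj
        have c1 : pos ((l1 ++ neg d :: e :: d :: l2).drop (j' + 1)) ∈ c := by
          rw [← hcj]; unfold fcell; simp
        have c0 : pos ((l1 ++ neg d :: e :: d :: l2).drop j') ∈ c := by
          rw [← hcj, pos_drop _ _ j1]; unfold fcell; simp
        have k0 : ¬ (l1.length ≤ j' ∧ j' ≤ l1.length + 3) := by
          rintro ⟨ha, hb⟩
          refine hcc _ ?_ c0
          have := Qk l1 l2 d e (k := j' - l1.length) (by omega)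
          rw [show l1.length + (j' - l1.length) = j' by omega] at this
          rw [hF]; exact this
        obtain ⟨ha, hb⟩ := CHG.ph_ps l1.length j' (by omega) (by omega) (by omega)
        have g1 := CHG.getD_old l1 l2 d e (CHG.ps l1.length j') hb
        have g2 := CHG.pos_old l1 l2 d e (CHG.ps l1.length j') hb
        rw [ha] at g1 g2
        refine ⟨(CHG.ps l1.length j', f), mem_sites.2 ⟨?_, ?_, ?_, ?_⟩, ?_⟩
        · exact CHG.lt_old l1 l2 d e j1 (by omega) (by omega) (by omega)
        · rw [← g1]; exact j2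
        · rw [← g2]
          intro h; exact j3 ((hnew _).2 (Or.inl h))
        · rw [← g1, ← g2]
          intro h; exact j4 ((hnew _).2 (Or.inl h))
        · rw [← hcj]
          show fcell (l1 ++ e :: l2) (CHG.ps l1.length j') f = _
          unfold fcell
          rw [← g1, ← g2]
      · rintro ⟨⟨j, f⟩, hj, hcj⟩
        simp only at hcj
        obtain ⟨j1, j2, j3, j4⟩ := mem_sites.1 hj
        have c1 : pos ((l1 ++ e :: l2).drop (j + 1)) ∈ c := by
          rw [← hcj]; unfold fcell; simp
        have hji : j ≠ l1.length := by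
          rintro rfl
          refine hcc _ ?_ c1
          rw [R1, hF]; simp
        have g1 := CHG.getD_old l1 l2 d e j hji
        have g2 := CHG.pos_old l1 l2 d e j hji
        have c2 : pos ((l1 ++ e :: l2).drop (j + 1)) + vec f ∈ c := by
          rw [← hcj]; unfold fcell; simp
        have c3 : pos ((l1 ++ e :: l2).drop (j + 1)) + vec f + vec ((l1 ++ e :: l2).getD j .xp) ∈ c := by
          rw [← hcj]; unfold fcell; simp
        have F2 : pos l2 + vec d ∈ F := by rw [hF]; simp
        have F3 : pos l2 + vec d + vec e ∈ F := by rw [hF]; simp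
        refine ⟨(CHG.ph l1.length j, f), mem_sites.2 ⟨?_, ?_, ?_, ?_⟩, ?_⟩
        · exact CHG.lt_new l1 l2 d e j1 hji
        · rw [g1]; exact j2
        · rw [g2, hnew]
          rintro (h | h | h)
          · exact j3 h
          · exact hcc _ F3 (h ▸ c2)
          · exact hcc _ F2 (h ▸ c2)
        · rw [g1, g2, hnew]
          rintro (h | h | h)
          · exact j4 h
          · exact hcc _ F3 (h ▸ c3)
          · exact hcc _ F2 (h ▸ c3)
        · rw [← hcj]
          show fcell _ (CHG.ph l1.length j) f = _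
          unfold fcell
          rw [g1, g2]
    · constructor
      · rintro ⟨j', hj, hcj⟩
        have hl := (mem_bumps.1 hj).1
        have k2 : j' + 3 < l1.length ∨ l1.length + 3 < j' := by
          by_contra hcon
          obtain ⟨k, k', hk, hk', hkk⟩ : ∃ k k', k ≤ 3 ∧ k' ≤ 3 ∧ j' + k = l1.length + k' := by
            rcases le_total j' l1.length with h3 | h3
            · exact ⟨l1.length - j', 0, by omega, by omega, by omega⟩
            · exact ⟨0, j' - l1.length, by omega, by omega, by omega⟩
          refine hcc (pos ((l1 ++ neg d :: e :: d :: l2).drop (l1.length + k'))) ?_ ?_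
          · rw [hF]; exact Qk l1 l2 d e hk'
          · rw [← hkk, ← hcj]
            exact mem_bcell.2 ⟨k, hk, rfl⟩
        rcases k2 with h3 | h3
        · have hph : CHG.ph l1.length j' = j' := by unfold CHG.ph; rw [if_pos (by omega)]
          have hb : bump (l1 ++ e :: l2) j' := by
            rw [← CHG.bump_iff l1 l2 d e j' (Or.inl (by omega)), hph]
            exact mem_bumps.1 hj
          refine ⟨j', mem_bumps.2 hb, ?_⟩
          rw [← hcj]
          unfold bcell
          rw [P_le l1 l2 d e (k := j') (by omega), P_le l1 l2 d e (k := j' + 1) (by omega),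
            P_le l1 l2 d e (k := j' + 2) (by omega), P_le l1 l2 d e (k := j' + 3) (by omega)]
        · obtain ⟨j, rfl⟩ : ∃ j, j' = j + 2 := ⟨j' - 2, by omega⟩
          have hph : CHG.ph l1.length j = j + 2 := by unfold CHG.ph; rw [if_neg (by omega)]
          have hb : bump (l1 ++ e :: l2) j := by
            rw [← CHG.bump_iff l1 l2 d e j (Or.inr (by omega)), hph]
            exact mem_bumps.1 hj
          refine ⟨j, mem_bumps.2 hb, ?_⟩
          rw [← hcj]
          unfold bcell
          have q0 := P_ge l1 l2 d e (m := j) (by omega)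
          have q1 := P_ge l1 l2 d e (m := j + 1) (by omega)
          have q2 := P_ge l1 l2 d e (m := j + 2) (by omega)
          have q3 := P_ge l1 l2 d e (m := j + 3) (by omega)
          rw [← q0, ← q1, ← q2, ← q3]
      · rintro ⟨j, hj, hcj⟩
        have k2 : j + 3 < l1.length ∨ l1.length < j := by
          by_contra hcon
          obtain ⟨k, hk, hkk⟩ : ∃ k, k ≤ 3 ∧ l1.length = j + k := ⟨l1.length - j, by omega, by omega⟩
          refine hcc (pos ((l1 ++ e :: l2).drop l1.length)) ?_ ?_
          · rw [R0, hF]; simp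
          · rw [← hcj]
            exact mem_bcell.2 ⟨k, hk, by rw [← hkk]⟩
        rcases k2 with h3 | h3
        · have hph : CHG.ph l1.length j = j := by unfold CHG.ph; rw [if_pos (by omega)]
          have hb := (CHG.bump_iff l1 l2 d e j (Or.inl (by omega))).2 (mem_bumps.1 hj)
          rw [hph] at hb
          refine ⟨j, mem_bumps.2 hb, ?_⟩
          rw [← hcj]
          unfold bcell
          rw [P_le l1 l2 d e (k := j) (by omega), P_le l1 l2 d e (k := j + 1) (by omega),
            P_le l1 l2 d e (k := j + 2) (by omega), P_le l1 l2 d e (k := j + 3) (by omega)]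
        · have hph : CHG.ph l1.length j = j + 2 := by unfold CHG.ph; rw [if_neg (by omega)]
          have hb := (CHG.bump_iff l1 l2 d e j (Or.inr h3)).2 (mem_bumps.1 hj)
          rw [hph] at hb
          refine ⟨j + 2, mem_bumps.2 hb, ?_⟩
          rw [← hcj]
          unfold bcell
          have q0 := P_ge l1 l2 d e (m := j) (by omega)
          have q1 := P_ge l1 l2 d e (m := j + 1) (by omega)
          have q2 := P_ge l1 l2 d e (m := j + 2) (by omega)
          have q3 := P_ge l1 l2 d e (m := j + 3) (by omega)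
          rw [← q0, ← q1, ← q2, ← q3]

end ModKLOC

open ModKLOC

theorem loc : StmLoc := by
  intro w i d hw h
  have hs := mem_sites.1 h
  have hI := S_ins_proof w i d hw hs
  obtain ⟨hi, hp, h1, h2⟩ := hs
  have hsp := INS.split w i hi
  have hl : (w.take i).length = i := by
    rw [List.length_take]
    omega
  have hins : ins w i d = w.take i ++ neg d :: w.getD i .xp :: d :: w.drop (i + 1) := by
    unfold ins
    simp
  have hc := core (w.take i) (w.drop (i + 1)) (w.getD i .xp) d hp
    (by rw [← hsp]; exact h1) (by rw [← hsp]; exact h2) (fcell w i d) rfl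
  rw [← hsp, ← hins, hl] at hc
  exact ⟨hc.1, mem_bumps.2 hI.2.2.1, hc.2.1, hc.2.2.1, hc.2.2.2⟩

end Pool.Agent.T6.H92.TK
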