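import Pool.Agent.T6.H92.TK.Defs
import Pool.Agent.H246KN.INS
import Pool.Agent.H246KN.REM

/-!
# KSAP: insertions and deletions keep closed self-avoiding words
-/

set_option autoImplicit false

namespace Pool.Agent.T6.H92.TK

open Finset KN Pool.Agent.T6.H92.TG
open scoped Classical

theorem sap : StmSap := by
  constructor
  · intro w i d hw h
    obtain ⟨h1, h2, -, h3, -⟩ := S_ins_proof w i d hw (mem_sites.1 h)
    exact ⟨h1, h2, h3⟩
  · intro w j hw h5 hj
    have h6 : 6 ≤ w.length := by
      have := even_of_closed hw.2.1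
      omega
    obtain ⟨h1, h2, h3, h4⟩ := S_rem_proof w j hw h6 (mem_bumps.1 hj)
    exact ⟨h1, h2, mem_sites.2 h3, h4⟩

end Pool.Agent.T6.H92.TK
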