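import Pool.Agent.T6.H92.TK.Defs
import Pool.Agent.H246KN.Basic

/-!
# Module KSEL: a separated set of plaquettes with many bumps for most polygons
-/

set_option autoImplicit false

namespace Pool.Agent.T6.H92.TK

open Finset KN Pool.Agent.T6.H92.TG
open scoped Classical

noncomputable section

namespace ModKSEL

/-- the elements of `T` whose only neighbour in `P` is the element itself -/
def cnt {ι : Type} (nb : ι → Finset ι) (T P : Finset ι) : Finset ι :=
  T.filter (fun c => P ∩ nb c = {c})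

theorem mem_cnt {ι : Type} {nb : ι → Finset ι} {T P : Finset ι} {c : ι} :
    c ∈ cnt nb T P ↔ c ∈ T ∧ ∀ d, (d ∈ P ∧ d ∈ nb c) ↔ d = c := by
  unfold cnt
  rw [mem_filter, Finset.ext_iff]
  simp only [mem_inter, mem_singleton]

/-- the plaquette with a vertex and two directions -/
def plq (p : Z3) (u v : Dir) : Finset Z3 := {p, p + vec u, p + vec v, p + vec u + vec v}

/-- plaquettes -/
def IsPl (c : Finset Z3) : Prop := ∃ (p : Z3) (u v : Dir), c = plq p u v

theorem rebase {p x : Z3} {u v : Dir} (h : x ∈ plq p u v) :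
    ∃ u' v' : Dir, plq p u v = plq x u' v' := by
  unfold plq at h
  simp only [mem_insert, mem_singleton] at h
  rcases h with rfl | rfl | rfl | rfl
  · exact ⟨u, v, rfl⟩
  · refine ⟨neg u, v, ?_⟩
    unfold plq
    rw [vec_neg]
    have h1 : p + vec u + -vec u = p := by abel
    have h2 : p + vec u + -vec u + vec v = p + vec v := by abel
    rw [h2, h1]
    ext y
    simp only [mem_insert, mem_singleton]
    tauto
  · refine ⟨u, neg v, ?_⟩
    unfold plq
    rw [vec_neg]
    have h1 : p + vec v + -vec v = p := by abel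
    have h2 : p + vec v + vec u + -vec v = p + vec u := by abel
    have h3 : p + vec v + vec u = p + vec u + vec v := by abel
    rw [h2, h1, h3]
    ext y
    simp only [mem_insert, mem_singleton]
    tauto
  · refine ⟨neg u, neg v, ?_⟩
    unfold plq
    rw [vec_neg, vec_neg]
    have h1 : p + vec u + vec v + -vec u = p + vec v := by abel
    have h2 : p + vec u + vec v + -vec v = p + vec u := by abel
    have h3 : p + vec u + vec v + -vec u + -vec v = p := by abel
    rw [h3, h1, h2]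
    ext y
    simp only [mem_insert, mem_singleton]
    tauto

theorem self_mem (p : Z3) (u v : Dir) : p ∈ plq p u v := by
  unfold plq
  exact mem_insert_self _ _

theorem card_plq (p : Z3) (u v : Dir) : (plq p u v).card ≤ 4 := by
  unfold plq
  exact card_le_four

/-- the plaquettes which contain a point of `c` -/
def nbF (c : Finset Z3) : Finset (Finset Z3) :=
  (c ×ˢ ((univ : Finset Dir) ×ˢ (univ : Finset Dir))).image (fun y => plq y.1 y.2.1 y.2.2)

theorem mem_nbF {c d : Finset Z3} : d ∈ nbF c ↔ IsPl d ∧ ¬ Disjoint c d := by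
  unfold nbF
  rw [mem_image]
  constructor
  · rintro ⟨⟨x, u, v⟩, h1, rfl⟩
    rw [mem_product] at h1
    exact ⟨⟨x, u, v, rfl⟩, Finset.not_disjoint_iff.2 ⟨x, h1.1, self_mem x u v⟩⟩
  · rintro ⟨⟨p, u, v, rfl⟩, h2⟩
    obtain ⟨x, h3, h4⟩ := Finset.not_disjoint_iff.1 h2
    obtain ⟨u', v', h5⟩ := rebase h4
    refine ⟨(x, u', v'), ?_, h5.symm⟩
    simp [h3]

theorem card_dir : (univ : Finset Dir).card = 6 := rfl

theorem card_nbF {c : Finset Z3} (h : IsPl c) : (nbF c).card ≤ 144 := by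
  obtain ⟨p, u, v, rfl⟩ := h
  unfold nbF
  refine card_image_le.trans ?_
  rw [card_product, card_product, card_dir]
  have := card_plq p u v
  omega

/-- the neighbours -/
def nb (c : Finset Z3) : Finset (Finset Z3) := if IsPl c then nbF c else {c}

theorem mem_nb {c d : Finset Z3} :
    d ∈ nb c ↔ (IsPl c ∧ IsPl d ∧ ¬ Disjoint c d) ∨ (¬ IsPl c ∧ c = d) := by
  unfold nb
  split_ifs with h
  · rw [mem_nbF]
    tauto
  · rw [mem_singleton]
    constructor
    · rintro rfl
      exact Or.inr ⟨h, rfl⟩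
    · rintro (⟨h1, -⟩ | ⟨-, h1⟩)
      · exact absurd h1 h
      · exact h1.symm

theorem self_nb (c : Finset Z3) : c ∈ nb c := by
  rw [mem_nb]
  by_cases h : IsPl c
  · left
    refine ⟨h, h, ?_⟩
    obtain ⟨p, u, v, rfl⟩ := h
    exact Finset.not_disjoint_iff.2 ⟨p, self_mem p u v, self_mem p u v⟩
  · exact Or.inr ⟨h, rfl⟩

theorem symm_nb (c d : Finset Z3) : d ∈ nb c ↔ c ∈ nb d := by
  rw [mem_nb, mem_nb, disjoint_comm]
  constructor
  · rintro (h | ⟨h, rfl⟩)
    · tauto
    · exact Or.inr ⟨h, rfl⟩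
  · rintro (h | ⟨h, rfl⟩)
    · tauto
    · exact Or.inr ⟨h, rfl⟩

theorem card_nb (c : Finset Z3) : (nb c).card ≤ 144 := by
  unfold nb
  split_ifs with h
  · exact card_nbF h
  · rw [card_singleton]
    norm_num

theorem pos_le (w : List Dir) : |(pos w).1| ≤ w.length ∧ |(pos w).2.1| ≤ w.length ∧
    |(pos w).2.2| ≤ w.length := by
  induction w with
  | nil => simp [pos]
  | cons d w ih =>
    obtain ⟨h1, h2, h3⟩ := ih
    rw [abs_le] at h1 h2 h3
    have hv : |(vec d).1| ≤ 1 ∧ |(vec d).2.1| ≤ 1 ∧ |(vec d).2.2| ≤ 1 := by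
      cases d <;> simp [vec]
    obtain ⟨h4, h5, h6⟩ := hv
    rw [abs_le] at h4 h5 h6
    have e1 : (pos (d :: w)).1 = (pos w).1 + (vec d).1 := rfl
    have e2 : (pos (d :: w)).2.1 = (pos w).2.1 + (vec d).2.1 := rfl
    have e3 : (pos (d :: w)).2.2 = (pos w).2.2 + (vec d).2.2 := rfl
    rw [e1, e2, e3, List.length_cons]
    push_cast
    refine ⟨?_, ?_, ?_⟩ <;> rw [abs_le] <;> constructor <;> linarith

/-- the plaquettes in a box -/
def box (L : ℕ) : Finset (Finset Z3) :=
  (((Icc (-(L : ℤ)) L) ×ˢ ((Icc (-(L : ℤ)) L) ×ˢ (Icc (-(L : ℤ)) L))) ×ˢ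
    ((univ : Finset Dir) ×ˢ (univ : Finset Dir))).image (fun y => plq y.1 y.2.1 y.2.2)

theorem box_pl {L : ℕ} {c : Finset Z3} (h : c ∈ box L) : IsPl c := by
  unfold box at h
  rw [mem_image] at h
  obtain ⟨y, -, rfl⟩ := h
  exact ⟨_, _, _, rfl⟩

theorem bcell_eq {w : List Dir} {j : ℕ} (hj : bump w j) :
    bcell w j = plq (pos (w.drop (j + 3))) (w.getD (j + 2) .xp) (w.getD (j + 1) .xp) := by
  obtain ⟨h1, h2, -⟩ := hj
  have e1 := pos_drop w j (by omega)
  have e2 := pos_drop w (j + 1) (by omega)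
  have e3 := pos_drop w (j + 2) (by omega)
  unfold bcell plq
  rw [e1, e2, e3, h2, vec_neg]
  have h4 : pos (w.drop (j + 2 + 1)) + vec (w.getD (j + 2) .xp) + vec (w.getD (j + 1) .xp) +
      -vec (w.getD (j + 2) .xp) = pos (w.drop (j + 3)) + vec (w.getD (j + 1) .xp) := by
    have : j + 2 + 1 = j + 3 := rfl
    rw [this]
    abel
  rw [h4]
  ext y
  simp only [mem_insert, mem_singleton]
  tauto

theorem bcell_box {w : List Dir} {j L : ℕ} (hL : w.length ≤ L) (hj : bump w j) :
    bcell w j ∈ box L := by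
  rw [bcell_eq hj]
  unfold box
  rw [mem_image]
  refine ⟨(pos (w.drop (j + 3)), w.getD (j + 2) .xp, w.getD (j + 1) .xp), ?_, rfl⟩
  obtain ⟨h1, h2, h3⟩ := pos_le (w.drop (j + 3))
  have h4 : (((w.drop (j + 3)).length : ℕ) : ℤ) ≤ L := by
    rw [List.length_drop]
    omega
  have h5 := abs_le.1 (h1.trans h4)
  have h6 := abs_le.1 (h2.trans h4)
  have h7 := abs_le.1 (h3.trans h4)
  simp only [mem_product, mem_Icc, mem_univ, and_true]
  exact ⟨h5, h6, h7⟩

/-- the selected plaquettes -/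
def sel (Q : Finset (Finset Z3)) : Finset (Finset Z3) := cnt nb Q Q

theorem sel_sep {L : ℕ} {Q : Finset (Finset Z3)} (hQ : Q ⊆ box L) : Sep (sel Q) := by
  intro c hc d hd hne
  unfold sel at hc hd
  rw [mem_cnt] at hc hd
  by_contra hcon
  have h1 : d ∈ nb c := by
    rw [mem_nb]
    exact Or.inl ⟨box_pl (hQ hc.1), box_pl (hQ hd.1), hcon⟩
  exact hne ((hc.2 d).1 ⟨hd.1, h1⟩).symm

/-- the plaquettes of the bumps -/
def TT (w : List Dir) : Finset (Finset Z3) := (bumps w).image (bcell w)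

theorem card_TT (hU : StmUni) {w : List Dir} (hw : SAP w) (h5 : 5 ≤ w.length) :
    (TT w).card = bu w := by
  unfold TT bu
  refine card_image_of_injOn ?_
  intro i hi j hj hij
  exact hU.2 w hw h5 i hi j hj hij

theorem TT_box {w : List Dir} {L : ℕ} (hL : w.length ≤ L) : TT w ⊆ box L := by
  intro c hc
  unfold TT at hc
  rw [mem_image] at hc
  obtain ⟨j, hj, rfl⟩ := hc
  exact bcell_box hL (mem_bumps.1 hj)

theorem le_BU {w : List Dir} (h5 : 5 ≤ w.length) (Q : Finset (Finset Z3)) :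
    (cnt nb (TT w) Q).card ≤ (BU (sel Q) w).card := by
  apply card_le_card
  intro c hc
  rw [mem_cnt] at hc
  unfold BU
  rw [if_neg (by omega), mem_filter]
  unfold TT at hc
  rw [mem_image] at hc
  obtain ⟨⟨j, hj, hjc⟩, h2⟩ := hc
  refine ⟨?_, j, hj, hjc⟩
  unfold sel
  rw [mem_cnt]
  exact ⟨((h2 c).2 rfl).1, h2⟩

/-- the words with many bumps for which the family is bad -/
def gd (c₁ : ℝ) (Q : List Dir → Prop) (P : Finset (Finset Z3)) (n m : ℕ) : Finset (List Dir) :=
  (K Q (2 * m)).filter (fun w => ¬ 10 ^ 7 * bu w ≤ 2 * m ∧ ((BU (sel P) w).card : ℝ) < c₁ * n)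

end ModKSEL

open ModKSEL

theorem sel3 : StmSel' := by
  intro hG hU k
  obtain ⟨C, c₁, c₂, hC, hc₁, hc₂, hG⟩ := hG 144
  set γ : ℝ := c₂ * (2 / 10 ^ 7) with hγ
  have hγ0 : 0 < γ := by positivity
  refine ⟨C * (k + 1), γ, c₁ * (2 / 10 ^ 7), by positivity, hγ0, by positivity,
    fun Q n hn => ?_⟩
  set S := box (2 * (n + k)) with hS
  set x : ℝ := C * Real.exp (-(γ * n)) with hx
  have hx0 : 0 < x := by positivity
  set δ : ℝ := c₁ * (2 / 10 ^ 7) with hδ
  -- few families are bad for a word with many bumps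
  have hfew : ∀ (i : ℕ) (w : List Dir), i ≤ k → w ∈ K Q (2 * (n + i)) →
      ¬ 10 ^ 7 * bu w ≤ 2 * (n + i) →
      ((S.powerset.filter (fun P => ((BU (sel P) w).card : ℝ) < δ * n)).card : ℝ) ≤
        x * 2 ^ S.card := by
    intro i w hi hw hbig
    rw [mem_K] at hw
    obtain ⟨hlen, hsap, -⟩ := hw
    have h5 : 5 ≤ w.length := by omega
    have hT := card_TT hU hsap h5
    have hTS : TT w ⊆ S := TT_box (by omega)
    have hb : (2 * n : ℝ) / 10 ^ 7 ≤ ((TT w).card : ℝ) := by
      rw [hT, div_le_iff₀ (by positivity)]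
      have h6 : 2 * n ≤ 10 ^ 7 * bu w := by omega
      have h7 : ((2 * n : ℕ) : ℝ) ≤ ((10 ^ 7 * bu w : ℕ) : ℝ) := by exact_mod_cast h6
      push_cast at h7
      linarith
    have h1 := hG (Finset Z3) nb S (TT w) self_nb card_nb symm_nb hTS
    have h2 : S.powerset.filter (fun P => ((BU (sel P) w).card : ℝ) < δ * n) ⊆
        S.powerset.filter (fun P => ((cnt nb (TT w) P).card : ℝ) < c₁ * (TT w).card) := by
      intro P hP
      rw [mem_filter] at hP ⊢
      refine ⟨hP.1, ?_⟩
      have h3 : ((cnt nb (TT w) P).card : ℝ) ≤ (BU (sel P) w).card := by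
        exact_mod_cast le_BU h5 P
      have h4 : δ * n ≤ c₁ * (TT w).card := by
        have h8 : δ * n = c₁ * ((2 * n : ℝ) / 10 ^ 7) := by rw [hδ]; ring
        rw [h8]
        exact mul_le_mul_of_nonneg_left hb hc₁.le
      linarith [hP.2]
    have h3 : ((S.powerset.filter (fun P => ((BU (sel P) w).card : ℝ) < δ * n)).card : ℝ) ≤
        ((S.powerset.filter (fun P => ((cnt nb (TT w) P).card : ℝ) <
          c₁ * (TT w).card)).card : ℝ) := by
      exact_mod_cast card_le_card h2
    refine h3.trans (le_trans h1 ?_)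
    apply mul_le_mul_of_nonneg_right _ (by positivity)
    rw [hx]
    apply mul_le_mul_of_nonneg_left _ hC.le
    apply Real.exp_le_exp.2
    have h4 : γ * n = c₂ * ((2 * n : ℝ) / 10 ^ 7) := by rw [hγ]; ring
    rw [h4]
    have := mul_le_mul_of_nonneg_left hb hc₂.le
    linarith
  have hsumgd : ∀ i ≤ k, ∑ P ∈ S.powerset, ((gd δ Q P n (n + i)).card : ℝ) ≤
      ((K Q (2 * (n + i))).card : ℝ) * (x * 2 ^ S.card) := by
    intro i hi
    have e1 : ∀ P ∈ S.powerset, ((gd δ Q P n (n + i)).card : ℝ) =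
        ∑ w ∈ K Q (2 * (n + i)), if (¬ 10 ^ 7 * bu w ≤ 2 * (n + i) ∧
          ((BU (sel P) w).card : ℝ) < δ * n) then (1 : ℝ) else 0 := by
      intro P _
      unfold gd
      rw [Finset.sum_ite, Finset.sum_const_zero, add_zero, Finset.sum_const, nsmul_eq_mul,
        mul_one]
    rw [Finset.sum_congr rfl e1, Finset.sum_comm]
    have e2 : ∀ w ∈ K Q (2 * (n + i)), ∑ P ∈ S.powerset,
        (if (¬ 10 ^ 7 * bu w ≤ 2 * (n + i) ∧ ((BU (sel P) w).card : ℝ) < δ * n) then (1 : ℝ)
          else 0) ≤ x * 2 ^ S.card := by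
      intro w hw
      by_cases hgood : ¬ 10 ^ 7 * bu w ≤ 2 * (n + i)
      · refine le_trans (le_of_eq ?_) (hfew i w hi hw hgood)
        rw [Finset.sum_ite, Finset.sum_const_zero, add_zero, Finset.sum_const, nsmul_eq_mul,
          mul_one]
        congr 2
        apply Finset.filter_congr
        intro P _
        exact ⟨fun h => h.2, fun h => ⟨hgood, h⟩⟩
      · have e3 : ∑ P ∈ S.powerset,
            (if (¬ 10 ^ 7 * bu w ≤ 2 * (n + i) ∧ ((BU (sel P) w).card : ℝ) < δ * n) then (1 : ℝ)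
              else 0) = 0 := by
          apply Finset.sum_eq_zero
          intro P _
          rw [if_neg (fun h => hgood h.1)]
        rw [e3]
        positivity
    refine (Finset.sum_le_sum e2).trans ?_
    rw [Finset.sum_const, nsmul_eq_mul]
  -- averaging
  have hex : ∃ P ∈ S.powerset, ∑ i ∈ range (k + 1),
      ((gd δ Q P n (n + i)).card : ℝ) / ((K Q (2 * (n + i))).card : ℝ) ≤ (k + 1) * x := by
    by_contra hcon
    push Not at hcon
    have h1 : ∑ P ∈ S.powerset, ((k + 1 : ℝ) * x) < ∑ P ∈ S.powerset, ∑ i ∈ range (k + 1),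
        ((gd δ Q P n (n + i)).card : ℝ) / ((K Q (2 * (n + i))).card : ℝ) := by
      apply Finset.sum_lt_sum_of_nonempty
      · exact ⟨∅, Finset.empty_mem_powerset S⟩
      · exact hcon
    rw [Finset.sum_comm, Finset.sum_const, Finset.card_powerset, nsmul_eq_mul] at h1
    have h2 : ∀ i ∈ range (k + 1), ∑ P ∈ S.powerset,
        ((gd δ Q P n (n + i)).card : ℝ) / ((K Q (2 * (n + i))).card : ℝ) ≤ x * 2 ^ S.card := by
      intro i hi
      rw [← Finset.sum_div]
      have h3 := hsumgd i (by rw [mem_range] at hi; omega)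
      rcases Nat.eq_zero_or_pos (K Q (2 * (n + i))).card with h0 | h0
      · rw [h0, Nat.cast_zero, div_zero]
        positivity
      · have h4 : (0 : ℝ) < ((K Q (2 * (n + i))).card : ℝ) := by exact_mod_cast h0
        rw [div_le_iff₀ h4, mul_comm]
        exact h3
    have h3 := Finset.sum_le_sum h2
    rw [Finset.sum_const, card_range, nsmul_eq_mul] at h3
    push_cast at h1 h3
    have h4 := lt_of_lt_of_le h1 h3
    have h5 : (2 : ℝ) ^ S.card * ((k + 1 : ℝ) * x) = (k + 1) * (x * 2 ^ S.card) := by ring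
    rw [h5] at h4
    exact lt_irrefl _ h4
  obtain ⟨P, hP, hsum⟩ := hex
  refine ⟨sel P, sel_sep (mem_powerset.1 hP), fun i hi => ?_⟩
  have hsingle : ((gd δ Q P n (n + i)).card : ℝ) / ((K Q (2 * (n + i))).card : ℝ) ≤
      (k + 1) * x := by
    refine le_trans ?_ hsum
    exact Finset.single_le_sum
      (f := fun i => ((gd δ Q P n (n + i)).card : ℝ) / ((K Q (2 * (n + i))).card : ℝ))
      (fun j _ => by positivity) (mem_range.2 (by omega))
  have hgd : ((gd δ Q P n (n + i)).card : ℝ) ≤ (k + 1) * x * ((K Q (2 * (n + i))).card : ℝ) := by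
    rcases Nat.eq_zero_or_pos (K Q (2 * (n + i))).card with h0 | h0
    · have h1 : (gd δ Q P n (n + i)).card ≤ (K Q (2 * (n + i))).card := by
        unfold gd
        exact Finset.card_filter_le _ _
      have h2 : (gd δ Q P n (n + i)).card = 0 := by omega
      rw [h2, h0]
      simp
    · have h4 : (0 : ℝ) < ((K Q (2 * (n + i))).card : ℝ) := by exact_mod_cast h0
      rwa [div_le_iff₀ h4] at hsingle
  have hcover : (K Q (2 * (n + i))).filter
      (fun w => ((BU (sel P) w).card : ℝ) < δ * n) ⊆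
      (K Q (2 * (n + i))).filter (fun w => 10 ^ 7 * bu w ≤ 2 * (n + i)) ∪
        gd δ Q P n (n + i) := by
    intro w hw
    rw [mem_filter] at hw
    rw [mem_union]
    unfold gd
    rw [mem_filter, mem_filter]
    by_cases h : 10 ^ 7 * bu w ≤ 2 * (n + i)
    · exact Or.inl ⟨hw.1, h⟩
    · exact Or.inr ⟨hw.1, h, hw.2⟩
  have h5 : (((K Q (2 * (n + i))).filter
      (fun w => ((BU (sel P) w).card : ℝ) < δ * n)).card : ℝ) ≤
      (((K Q (2 * (n + i))).filter (fun w => 10 ^ 7 * bu w ≤ 2 * (n + i))).card : ℝ) +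
        ((gd δ Q P n (n + i)).card : ℝ) := by
    exact_mod_cast (Finset.card_le_card hcover).trans (Finset.card_union_le _ _)
  refine h5.trans ?_
  have h6 : C * (k + 1) * Real.exp (-(γ * n)) * ((K Q (2 * (n + i))).card : ℝ) =
      (k + 1) * x * ((K Q (2 * (n + i))).card : ℝ) := by
    rw [hx]
    ring
  rw [h6]
  linarith

end

end Pool.Agent.T6.H92.TK
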