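import Pool.Agent.T6.H92.TK.Defs
import Pool.Agent.T6.H92.SP.Pow

/-!
# Random sparse families (module SELG, helper38)
-/

set_option autoImplicit false

namespace Pool.Agent.T6.H92.TK.ModSELG

open Finset
open scoped Classical

noncomputable section

variable {ι : Type} (nb : ι → Finset ι)

theorem greedy (D : ℕ) (T : Finset ι) (h1 : ∀ c, c ∈ nb c) (h2 : ∀ c, (nb c).card ≤ D)
    (h3 : ∀ c d, d ∈ nb c ↔ c ∈ nb d) : ∃ T' ⊆ T,
    (∀ c ∈ T', ∀ d ∈ T', c ≠ d → Disjoint (nb c) (nb d)) ∧ T.card ≤ D ^ 2 * T'.card := by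
  set F : Finset (Finset ι) := T.powerset.filter fun A =>
    ∀ c ∈ A, ∀ d ∈ A, c ≠ d → Disjoint (nb c) (nb d) with hF
  have hne : F.Nonempty := ⟨∅, by simp [hF]⟩
  obtain ⟨T', hT', hmax⟩ := Finset.exists_max_image F Finset.card hne
  rw [hF, Finset.mem_filter, Finset.mem_powerset] at hT'
  refine ⟨T', hT'.1, hT'.2, ?_⟩
  have hsub : T ⊆ T'.biUnion fun c => (nb c).biUnion nb := by
    intro d hd
    rw [Finset.mem_biUnion]
    by_cases hdT : d ∈ T'
    · exact ⟨d, hdT, Finset.mem_biUnion.2 ⟨d, h1 d, h1 d⟩⟩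
    · by_contra hcon
      push Not at hcon
      have hdis : ∀ c ∈ T', Disjoint (nb c) (nb d) := by
        intro c hc
        rw [Finset.disjoint_left]
        intro x hx hxd
        exact hcon c hc (Finset.mem_biUnion.2 ⟨x, hx, (h3 x d).2 hxd⟩)
      have hin : insert d T' ∈ F := by
        rw [hF, Finset.mem_filter, Finset.mem_powerset]
        refine ⟨Finset.insert_subset hd hT'.1, ?_⟩
        intro a ha b hb hab
        rw [Finset.mem_insert] at ha hb
        rcases ha with rfl | ha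
        · rcases hb with rfl | hb
          · exact absurd rfl hab
          · exact (hdis b hb).symm
        · rcases hb with rfl | hb
          · exact hdis a ha
          · exact hT'.2 a ha b hb hab
      have := hmax _ hin
      rw [Finset.card_insert_of_notMem hdT] at this
      omega
  calc T.card ≤ (T'.biUnion fun c => (nb c).biUnion nb).card := Finset.card_le_card hsub
    _ ≤ T'.card * (D * D) := by
        refine Finset.card_biUnion_le_card_mul _ _ _ fun c _ => ?_
        refine (Finset.card_biUnion_le_card_mul _ _ D fun x _ => h2 x).trans ?_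
        exact Nat.mul_le_mul_right D (h2 c)
    _ = D ^ 2 * T'.card := by ring

/-- the weight of `c` -/
def hh (c : ι) (Q : Finset ι) : ℝ := if Q ∩ nb c = {c} then 1 / 2 else 1

theorem sum_hh (D : ℕ) (c : ι) (s : Finset ι) (hc : c ∈ s) (hs : s.card ≤ D) :
    ∑ A ∈ s.powerset, (if A = {c} then (1 / 2 : ℝ) else 1) ≤
      2 ^ s.card * (1 - (1 / 2) ^ (D + 1)) := by
  have h1 : ({c} : Finset ι) ∈ s.powerset := by
    rw [Finset.mem_powerset, Finset.singleton_subset_iff]
    exact hc
  rw [← Finset.add_sum_erase _ _ h1, if_pos rfl]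
  have h2 : ∑ A ∈ s.powerset.erase {c}, (if A = {c} then (1 / 2 : ℝ) else 1) =
      ∑ A ∈ s.powerset.erase {c}, (1 : ℝ) := by
    refine Finset.sum_congr rfl fun A hA => ?_
    rw [if_neg (Finset.ne_of_mem_erase hA)]
  have h3 : (1 : ℕ) ≤ 2 ^ s.card := Nat.one_le_two_pow
  rw [h2, Finset.sum_const, Finset.card_erase_of_mem h1, Finset.card_powerset, nsmul_eq_mul,
    mul_one, Nat.cast_sub h3]
  push_cast
  have h4 : (2 : ℝ) ^ s.card * (1 / 2) ^ (D + 1) ≤ 1 / 2 := by
    calc (2 : ℝ) ^ s.card * (1 / 2) ^ (D + 1) ≤ 2 ^ D * (1 / 2) ^ (D + 1) :=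
          mul_le_mul_of_nonneg_right (pow_le_pow_right₀ (by norm_num) hs) (by positivity)
      _ = 1 / 2 := by
          rw [pow_succ, ← mul_assoc, ← mul_pow]
          norm_num
  nlinarith

theorem sum_prod (D : ℕ) (h1 : ∀ c, c ∈ nb c) (h2 : ∀ c, (nb c).card ≤ D) (T : Finset ι) :
    ∀ S : Finset ι, T ⊆ S → (∀ c ∈ T, ∀ d ∈ T, c ≠ d → Disjoint (nb c) (nb d)) →
    ∑ Q ∈ S.powerset, ∏ c ∈ T, hh nb c Q ≤ 2 ^ S.card * (1 - (1 / 2) ^ (D + 1)) ^ T.card := by
  induction T using Finset.induction_on with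
  | empty =>
    intro S _ _
    simp
  | insert c T hc ih =>
    intro S hS hsep
    have hcS := hS (Finset.mem_insert_self c T)
    set s : Finset ι := S ∩ nb c with hs
    have hcs : c ∈ s := Finset.mem_inter.2 ⟨hcS, h1 c⟩
    have hscard : s.card ≤ D := (Finset.card_le_card Finset.inter_subset_right).trans (h2 c)
    have hS' : S = s ∪ (S \ s) := (Finset.union_sdiff_of_subset Finset.inter_subset_left).symm
    have hdis : Disjoint s (S \ s) := Finset.disjoint_sdiff
    have hdd : ∀ d ∈ T, Disjoint (nb c) (nb d) := fun d hd =>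
      hsep c (Finset.mem_insert_self c T) d (Finset.mem_insert_of_mem hd)
        (fun h => hc (h ▸ hd))
    have hT : T ⊆ S \ s := by
      intro d hd
      rw [Finset.mem_sdiff]
      refine ⟨hS (Finset.mem_insert_of_mem hd), fun h3 => ?_⟩
      exact Finset.disjoint_left.1 (hdd d hd) (Finset.mem_inter.1 h3).2 (h1 d)
    have e1 := ih (S \ s) hT (fun d hd d' hd' =>
      hsep d (Finset.mem_insert_of_mem hd) d' (Finset.mem_insert_of_mem hd'))
    have e2 := Pool.Agent.T6.H92.SP.sum_split s (S \ s) hdis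
      (fun A => if A = {c} then (1 / 2 : ℝ) else 1) (fun B => ∏ d ∈ T, hh nb d B)
    rw [← hS'] at e2
    have hcard : S.card = s.card + (S \ s).card := by
      conv_lhs => rw [hS']
      rw [Finset.card_union_of_disjoint hdis]
    have e3 : ∑ Q ∈ S.powerset, ∏ d ∈ insert c T, hh nb d Q =
        ∑ Q ∈ S.powerset, (if Q ∩ s = {c} then (1 / 2 : ℝ) else 1) *
          ∏ d ∈ T, hh nb d (Q ∩ (S \ s)) := by
      refine Finset.sum_congr rfl fun Q hQ => ?_
      rw [Finset.mem_powerset] at hQ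
      rw [Finset.prod_insert hc]
      have e4 : hh nb c Q = if Q ∩ s = {c} then (1 / 2 : ℝ) else 1 := by
        have : Q ∩ s = Q ∩ nb c := by
          rw [hs, ← Finset.inter_assoc, Finset.inter_eq_left.2 hQ]
        rw [this]
        rfl
      rw [e4]
      congr 1
      refine Finset.prod_congr rfl fun d hd => ?_
      have e5 : Q ∩ (S \ s) ∩ nb d = Q ∩ nb d := by
        ext x
        simp only [Finset.mem_inter, Finset.mem_sdiff, hs]
        constructor
        · rintro ⟨⟨h1, _⟩, h2⟩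
          exact ⟨h1, h2⟩
        · rintro ⟨h1, h2⟩
          exact ⟨⟨h1, hQ h1, fun h3 => Finset.disjoint_left.1 (hdd d hd) h3.2 h2⟩, h2⟩
      unfold hh
      rw [e5]
    have hρ : (0 : ℝ) ≤ 1 - (1 / 2) ^ (D + 1) := by
      have : ((1 : ℝ) / 2) ^ (D + 1) ≤ 1 := pow_le_one₀ (by norm_num) (by norm_num)
      linarith
    have hpos : 0 ≤ ∑ B ∈ (S \ s).powerset, ∏ d ∈ T, hh nb d B := by
      refine Finset.sum_nonneg fun B _ => Finset.prod_nonneg fun d _ => ?_
      unfold hh
      split_ifs <;> norm_num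
    rw [e3, e2, Finset.card_insert_of_notMem hc, hcard]
    calc _ ≤ (2 ^ s.card * (1 - (1 / 2 : ℝ) ^ (D + 1))) *
          (2 ^ (S \ s).card * (1 - (1 / 2 : ℝ) ^ (D + 1)) ^ T.card) :=
          mul_le_mul (sum_hh D c s hcs hscard) e1 hpos (by positivity)
      _ = _ := by ring

end

end Pool.Agent.T6.H92.TK.ModSELG

namespace Pool.Agent.T6.H92.TK

open Finset
open scoped Classical

/-- SELG -/
theorem selG : StmSelG := by
  intro Δ
  set D : ℕ := Δ + 1 with hD
  set δ : ℝ := (1 / 2) ^ (D + 1) with hδ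
  have hδ0 : 0 < δ := by positivity
  have hδ1 : δ ≤ 1 := pow_le_one₀ (by norm_num) (by norm_num)
  have hD0 : (0 : ℝ) < (D : ℝ) ^ 2 := by positivity
  have hlog : Real.log 2 < 1 := by have := Real.log_two_lt_d9; linarith
  refine ⟨1, δ / D ^ 2, δ / D ^ 2 * (1 - Real.log 2), one_pos, by positivity,
    mul_pos (by positivity) (by linarith), ?_⟩
  intro ι nb S T h1 h2 h3 hTS
  obtain ⟨T', hT', hsep, hcard⟩ := ModSELG.greedy nb D T h1 (fun c => (h2 c).trans (by omega)) h3
  have hsum := ModSELG.sum_prod nb D h1 (fun c => (h2 c).trans (by omega)) T' S (hT'.trans hTS) hsep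
  set B : Finset (Finset ι) := S.powerset.filter (fun Q =>
    ((T.filter (fun c => Q ∩ nb c = {c})).card : ℝ) < δ / D ^ 2 * T.card) with hB
  have hprod : ∀ Q, ∏ c ∈ T', ModSELG.hh nb c Q =
      (1 / 2 : ℝ) ^ (T'.filter (fun c => Q ∩ nb c = {c})).card := by
    intro Q
    unfold ModSELG.hh
    rw [Finset.prod_ite, Finset.prod_const, Finset.prod_const_one, mul_one]
  have hlow : ∀ Q ∈ B, Real.exp (-(δ / D ^ 2 * T.card * Real.log 2)) ≤
      ∏ c ∈ T', ModSELG.hh nb c Q := by
    intro Q hQ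
    rw [hB, Finset.mem_filter] at hQ
    rw [hprod]
    have e1 : ((T'.filter (fun c => Q ∩ nb c = {c})).card : ℝ) ≤
        (T.filter (fun c => Q ∩ nb c = {c})).card := by
      exact_mod_cast Finset.card_le_card (Finset.filter_subset_filter _ hT')
    have e2 : ((1 : ℝ) / 2) ^ (T'.filter (fun c => Q ∩ nb c = {c})).card =
        Real.exp (-((T'.filter (fun c => Q ∩ nb c = {c})).card * Real.log 2)) := by
      rw [Real.exp_neg, Real.exp_nat_mul, Real.exp_log (by norm_num), one_div, inv_pow]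
    rw [e2]
    apply Real.exp_le_exp.2
    have hl : 0 < Real.log 2 := Real.log_pos (by norm_num)
    have : ((T'.filter (fun c => Q ∩ nb c = {c})).card : ℝ) * Real.log 2 ≤
        δ / D ^ 2 * T.card * Real.log 2 :=
      mul_le_mul_of_nonneg_right (e1.trans hQ.2.le) hl.le
    linarith
  have hmark : (B.card : ℝ) * Real.exp (-(δ / D ^ 2 * T.card * Real.log 2)) ≤
      2 ^ S.card * (1 - δ) ^ T'.card := by
    calc _ = ∑ Q ∈ B, Real.exp (-(δ / D ^ 2 * T.card * Real.log 2)) := by
          rw [Finset.sum_const, nsmul_eq_mul]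
      _ ≤ ∑ Q ∈ B, ∏ c ∈ T', ModSELG.hh nb c Q := Finset.sum_le_sum hlow
      _ ≤ ∑ Q ∈ S.powerset, ∏ c ∈ T', ModSELG.hh nb c Q :=
          Finset.sum_le_sum_of_subset_of_nonneg (Finset.filter_subset _ _)
            (fun Q _ _ => by rw [hprod]; positivity)
      _ ≤ _ := hsum
  have hρ : (1 - δ) ^ T'.card ≤ Real.exp (-(δ / D ^ 2 * T.card)) := by
    have e1 : 1 - δ ≤ Real.exp (-δ) := by
      have := Real.add_one_le_exp (-δ)
      linarith
    calc (1 - δ) ^ T'.card ≤ Real.exp (-δ) ^ T'.card :=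
          pow_le_pow_left₀ (by linarith) e1 _
      _ = Real.exp (-(δ * T'.card)) := by rw [← Real.exp_nat_mul]; congr 1; ring
      _ ≤ _ := by
          apply Real.exp_le_exp.2
          have e2 : (T.card : ℝ) ≤ D ^ 2 * T'.card := by exact_mod_cast hcard
          have e3 : δ / D ^ 2 * T.card ≤ δ * T'.card := by
            rw [div_mul_eq_mul_div, div_le_iff₀ hD0]
            calc δ * T.card ≤ δ * (D ^ 2 * T'.card) := mul_le_mul_of_nonneg_left e2 hδ0.le
              _ = _ := by ring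
          linarith
  have hfin : (B.card : ℝ) * Real.exp (-(δ / D ^ 2 * T.card * Real.log 2)) ≤
      2 ^ S.card * Real.exp (-(δ / D ^ 2 * T.card)) :=
    hmark.trans (mul_le_mul_of_nonneg_left hρ (by positivity))
  have hexp : Real.exp (-(δ / D ^ 2 * T.card)) =
      Real.exp (-(δ / D ^ 2 * (1 - Real.log 2) * T.card)) *
        Real.exp (-(δ / D ^ 2 * T.card * Real.log 2)) := by
    rw [← Real.exp_add]; congr 1; ring
  rw [hexp, ← mul_assoc] at hfin
  have := le_of_mul_le_mul_right hfin (Real.exp_pos _)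
  calc (B.card : ℝ) ≤ 2 ^ S.card * Real.exp (-(δ / D ^ 2 * (1 - Real.log 2) * T.card)) := this
    _ = _ := by ring

end Pool.Agent.T6.H92.TK
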