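import Pool.Agent.T6.H92.TK.Defs

/-!
# Module KTOG3: the toggle system of the lattice polygons from the local facts
-/

set_option autoImplicit false

namespace Pool.Agent.T6.H92.TK

open Finset KN Pool.Agent.T6.H92.TG
open scoped Classical

namespace ModKTOG3

theorem mem_W {n : ℕ} {w : List Dir} : w ∈ W n ↔ w.length = n := by
  unfold W
  rw [mem_image]
  constructor
  · rintro ⟨f, _, rfl⟩
    exact List.length_ofFn
  · intro h
    subst h
    exact ⟨fun i => w.get i, mem_univ _, List.ofFn_get w⟩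

theorem mem_K {Q : List Dir → Prop} {n : ℕ} {w : List Dir} :
    w ∈ K Q n ↔ w.length = n ∧ SAP w ∧ Q w := by
  unfold K
  rw [mem_filter, mem_W]

theorem mem_sites {w : List Dir} {i : ℕ} {d : Dir} : (i, d) ∈ sites w ↔ site w i d := by
  unfold sites
  rw [mem_filter, mem_product, mem_range]
  constructor
  · exact fun h => h.2
  · exact fun h => ⟨⟨h.1, mem_univ _⟩, h⟩

theorem mem_FL {R : Finset (Finset Z3)} {w : List Dir} {c : Finset Z3} :
    c ∈ FL R w ↔ c ∈ R ∧ IsF w c := by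
  unfold FL; rw [mem_filter]

theorem mem_BU {R : Finset (Finset Z3)} {w : List Dir} {c : Finset Z3} :
    c ∈ BU R w ↔ 4 < w.length ∧ c ∈ R ∧ IsB w c := by
  unfold BU
  split_ifs with h
  · constructor
    · intro h'
      simp at h'
    · intro h'
      omega
  · rw [mem_filter]
    constructor
    · exact fun h' => ⟨by omega, h'⟩
    · exact fun h' => h'.2

theorem UP_spec {w : List Dir} {c : Finset Z3} (h : IsF w c) :
    ∃ i d, (i, d) ∈ sites w ∧ fcell w i d = c ∧ UP w c = ins w i d := by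
  refine ⟨h.choose.1, h.choose.2, h.choose_spec.1, h.choose_spec.2, ?_⟩
  unfold UP
  rw [dif_pos h]

theorem DN_spec {w : List Dir} {c : Finset Z3} (h : IsB w c) :
    ∃ j, j ∈ bumps w ∧ bcell w j = c ∧ DN w c = rem w j := by
  refine ⟨h.choose, h.choose_spec.1, h.choose_spec.2, ?_⟩
  unfold DN
  rw [dif_pos h]

/-- the squares of length four -/
theorem square {w : List Dir} (hw : SAP w) (h4 : w.length = 4) {i : ℕ} {d : Dir}
    (hi : (i, d) ∈ sites w) {j : ℕ} (hj : j ∈ bumps w) : ¬ Disjoint (fcell w i d) (bcell w j) := by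
  intro hd
  rw [Finset.disjoint_left] at hd
  have hi4 : i < 4 := by
    have := (mem_sites.1 hi).1
    omega
  have hj2 : j < 2 := by
    unfold bumps at hj
    rw [mem_filter] at hj
    have := hj.2.1
    omega
  have h0 : pos (w.drop 4) = pos (w.drop 0) := by
    rw [List.drop_eq_nil_of_le (by omega), List.drop_zero, hw.2.1]
    rfl
  apply hd (a := pos (w.drop (i + 1)))
  · unfold fcell
    simp
  · unfold bcell
    simp only [mem_insert, mem_singleton]
    interval_cases j <;> interval_cases i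
    · right; left; rfl
    · right; right; left; rfl
    · right; right; right; rfl
    · left; exact h0
    · left; rfl
    · right; left; rfl
    · right; right; left; rfl
    · right; right; right; rfl

end ModKTOG3

open ModKTOG3

theorem tog3 : StmTog' := by
  intro loc uni sap Q hQ R hR
  -- facts on insertion
  have key : ∀ w, SAP w → ∀ c ∈ FL R w, ∃ i d, (i, d) ∈ sites w ∧ fcell w i d = c ∧
      UP w c = ins w i d ∧ (∀ c', c' ∈ BU R (UP w c) ↔ c' = c ∨ c' ∈ BU R w) ∧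
      (∀ c', c' ∈ FL R (UP w c) ↔ c' ≠ c ∧ c' ∈ FL R w) ∧ c ∉ BU R w := by
    intro w hw c hc
    obtain ⟨hcR, hcF⟩ := mem_FL.1 hc
    obtain ⟨i, d, hs, hcell, hUP⟩ := UP_spec hcF
    obtain ⟨l1, l2, l3, l4, l5⟩ := loc w i d hw hs
    obtain ⟨s1, s2, s3⟩ := sap.1 w i d hw hs
    rw [hcell] at l1 l3 l4 l5
    have hlen : 4 < (ins w i d).length := by
      have := hw.1
      omega
    refine ⟨i, d, hs, hcell, hUP, ?_, ?_, ?_⟩
    · rw [hUP]
      intro c'
      rw [mem_BU, mem_BU]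
      by_cases hcc : c' = c
      · subst hcc
        exact ⟨fun _ => Or.inl rfl, fun _ => ⟨hlen, hcR, i, l2, l3⟩⟩
      · constructor
        · rintro ⟨_, h1, h2⟩
          have hdis := hR c hcR c' h1 (Ne.symm hcc)
          have h3 := ((l5 c' hdis).2).1 h2
          refine Or.inr ⟨?_, h1, h3⟩
          by_contra h4
          have h5 : w.length = 4 := by
            have := hw.1
            omega
          obtain ⟨j, hj, hjc⟩ := h3
          refine square hw h5 hs hj ?_
          rw [hcell, hjc]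
          exact hdis
        · rintro (h | ⟨_, h1, h2⟩)
          · exact absurd h hcc
          · exact ⟨hlen, h1, ((l5 c' (hR c hcR c' h1 (Ne.symm hcc))).2).2 h2⟩
    · rw [hUP]
      intro c'
      rw [mem_FL, mem_FL]
      by_cases hcc : c' = c
      · subst hcc
        exact ⟨fun h => absurd h.2 l4, fun h => absurd rfl h.1⟩
      · constructor
        · rintro ⟨h1, h2⟩
          exact ⟨hcc, h1, ((l5 c' (hR c hcR c' h1 (Ne.symm hcc))).1).1 h2⟩
        · rintro ⟨_, h1, h2⟩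
          exact ⟨h1, ((l5 c' (hR c hcR c' h1 (Ne.symm hcc))).1).2 h2⟩
    · intro h
      exact l1 (mem_BU.1 h).2.2
  have kdn : ∀ w, SAP w → ∀ c ∈ BU R w, ∃ j, j ∈ bumps w ∧ bcell w j = c ∧ DN w c = rem w j ∧
      SAP (rem w j) ∧ (rem w j).length + 2 = w.length ∧
      (j, w.getD (j + 2) .xp) ∈ sites (rem w j) ∧
      ins (rem w j) j (w.getD (j + 2) .xp) = w ∧
      fcell (rem w j) j (w.getD (j + 2) .xp) = c := by
    intro w hw c hc
    obtain ⟨hl, hcR, hcB⟩ := mem_BU.1 hc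
    obtain ⟨j, hj, hcell, hDN⟩ := DN_spec hcB
    obtain ⟨d1, d2, d3, d4⟩ := sap.2 w j hw (by omega) hj
    obtain ⟨l1, l2, l3, l4, l5⟩ := loc (rem w j) j (w.getD (j + 2) .xp) d1 d3
    rw [d4] at l3
    exact ⟨j, hj, hcell, hDN, d1, d2, d3, d4, by rw [← l3, hcell]⟩
  refine ⟨?_, ?_, ?_, ?_, ?_, ?_, ?_, ?_, ?_⟩
  · intro n w hw c hc
    obtain ⟨h1, h2, h3⟩ := mem_K.1 hw
    obtain ⟨i, d, hs, hcell, hUP, -⟩ := key w h2 c hc
    obtain ⟨s1, s2, s3⟩ := sap.1 w i d h2 hs
    rw [hUP]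
    exact mem_K.2 ⟨by rw [s2, h1]; ring, s1, (hQ w h2 i d (mem_sites.1 hs)).1 h3⟩
  · intro n w hw c hc
    obtain ⟨h1, h2, h3⟩ := mem_K.1 hw
    obtain ⟨i, d, hs, hcell, hUP, hB, -⟩ := key w h2 c hc
    ext c'
    exact (hB c').trans
      (@Finset.mem_insert (Finset Z3) (fun a b => Classical.propDecidable (a = b)) _ _ _).symm
  · intro n w hw c hc
    obtain ⟨h1, h2, h3⟩ := mem_K.1 hw
    obtain ⟨i, d, hs, hcell, hUP, hB, hF, -⟩ := key w h2 c hc
    ext c'
    exact (hF c').trans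
      (@Finset.mem_erase (Finset Z3) (fun a b => Classical.propDecidable (a = b)) _ _ _).symm
  · intro n w hw c hc
    obtain ⟨h1, h2, h3⟩ := mem_K.1 hw
    obtain ⟨j, hj, hcell, hDN, d1, d2, d3, d4, d5⟩ := kdn w h2 c hc
    rw [hDN]
    refine mem_K.2 ⟨by omega, d1, ?_⟩
    have h4 := hQ (rem w j) d1 j _ (mem_sites.1 d3)
    rw [d4] at h4
    exact h4.2 h3
  · intro n w hw c hc
    obtain ⟨h1, h2, h3⟩ := mem_K.1 hw
    obtain ⟨j, hj, hcell, hDN, d1, d2, d3, d4, d5⟩ := kdn w h2 c hc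
    rw [hDN]
    exact mem_FL.2 ⟨(mem_BU.1 hc).2.1, (j, w.getD (j + 2) .xp), d3, d5⟩
  · intro n w hw c hc
    obtain ⟨h1, h2, h3⟩ := mem_K.1 hw
    obtain ⟨i, d, hs, hcell, hUP, -⟩ := key w h2 c hc
    obtain ⟨s1, s2, s3⟩ := sap.1 w i d h2 hs
    obtain ⟨l1, l2, l3, l4, l5⟩ := loc w i d h2 hs
    rw [hUP]
    have hB : IsB (ins w i d) c := ⟨i, l2, by rw [l3, hcell]⟩
    obtain ⟨j, hj, hjc, hDN⟩ := DN_spec hB
    have hji : j = i := by
      refine uni.2 (ins w i d) s1 ?_ j hj i l2 (by rw [hjc, l3, hcell])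
      have := h2.1
      omega
    rw [hDN, hji, s3]
  · intro n w hw c hc
    obtain ⟨h1, h2, h3⟩ := mem_K.1 hw
    obtain ⟨j, hj, hcell, hDN, d1, d2, d3, d4, d5⟩ := kdn w h2 c hc
    rw [hDN]
    have hF : IsF (rem w j) c := ⟨(j, w.getD (j + 2) .xp), d3, d5⟩
    obtain ⟨i, f, hi, hic, hUP⟩ := UP_spec hF
    have hji := uni.1 (rem w j) d1 (i, f) hi (j, w.getD (j + 2) .xp) d3 (by
      simp only
      rw [hic, d5])
    rw [Prod.mk.injEq] at hji
    rw [hUP, hji.1, hji.2, d4]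
  · intro n w hw
    obtain ⟨h1, h2, h3⟩ := mem_K.1 hw
    rw [Finset.disjoint_left]
    intro c hc
    obtain ⟨i, d, hs, hcell, hUP, hB, hF, hn⟩ := key w h2 c hc
    exact hn
  · intro w hw
    obtain ⟨h1, h2, h3⟩ := mem_K.1 hw
    rw [Finset.eq_empty_iff_forall_notMem]
    intro c hc
    have := (mem_BU.1 hc).1
    omega

end Pool.Agent.T6.H92.TK
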