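import Pool.Agent.T6.H92.TK.Defs
import Pool.Agent.H246KN.Basic

/-!
# Uniqueness of the position of a plaquette (module KUNI, helper49)
-/

set_option autoImplicit false

namespace Pool.Agent.T6.H92.TK

open Finset KN Pool.Agent.T6.H92.TG
open scoped Classical

noncomputable section

namespace ModKUNI

lemma pos_end {w : List Dir} (h : SAP w) : pos (w.drop 0) = pos (w.drop w.length) := by
  rw [List.drop_zero, h.2.1, List.drop_length]
  rfl

/-- the vertices with the numbers `1, …, n` are distinct -/
lemma inj {w : List Dir} (h : SAP w) {i j : ℕ} (hi : 1 ≤ i) (hj : 1 ≤ j) (hi' : i ≤ w.length)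
    (hj' : j ≤ w.length) (he : pos (w.drop i) = pos (w.drop j)) : i = j := by
  obtain ⟨i, rfl⟩ : ∃ k, i = k + 1 := ⟨i - 1, by omega⟩
  obtain ⟨j, rfl⟩ : ∃ k, j = k + 1 := ⟨j - 1, by omega⟩
  have hl : (path w).tail.length = w.length := by
    rw [List.length_tail, path_length]
    rfl
  have h1 : (path w).tail[i]'(by omega) = (path w).tail[j]'(by omega) := by
    rw [List.getElem_tail, List.getElem_tail, path_getElem, path_getElem]
    exact he
  have h2 := (List.Nodup.getElem_inj_iff h.2.2).1 h1
  omega

lemma mem_path {w : List Dir} {i : ℕ} (hi : i ≤ w.length) : pos (w.drop i) ∈ path w :=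
  (mem_path_iff w _).2 ⟨i, hi, rfl⟩

lemma vec_ne (e : Dir) : vec e ≠ 0 := by
  cases e <;> decide

lemma succ_ne {w : List Dir} {i : ℕ} (hi : i < w.length) :
    pos (w.drop i) ≠ pos (w.drop (i + 1)) := by
  rw [pos_drop w i hi]
  intro h
  exact vec_ne _ (by simpa using h)

lemma mem_fcell {w : List Dir} {i : ℕ} {d : Dir} (hi : i < w.length) {p : Z3} :
    p ∈ fcell w i d ↔ p = pos (w.drop (i + 1)) ∨ p = pos (w.drop i) ∨
      p = pos (w.drop (i + 1)) + vec d ∨
      p = pos (w.drop (i + 1)) + vec d + vec (w.getD i .xp) := by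
  unfold fcell
  rw [pos_drop w i hi]
  simp only [mem_insert, mem_singleton]

lemma perp_aux : ∀ d f e : Dir, perp d e → perp f e → vec d = vec f + vec e → False := by
  decide

lemma site_eq {w : List Dir} (hw : SAP w) {i j : ℕ} {d f : Dir} (h1 : site w i d)
    (h2 : site w j f) (h : fcell w i d = fcell w j f) : i = j ∧ d = f := by
  obtain ⟨hi, hp, ha, hb⟩ := h1
  obtain ⟨hj, hq, hc, hd⟩ := h2
  have hn := hw.1
  have key : ∀ m : ℕ, m ≤ w.length → pos (w.drop m) ∈ fcell w j f →
      pos (w.drop m) = pos (w.drop (j + 1)) ∨ pos (w.drop m) = pos (w.drop j) := by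
    intro m hm hmem
    rw [mem_fcell hj] at hmem
    rcases hmem with h0 | h0 | h0 | h0
    · exact Or.inl h0
    · exact Or.inr h0
    · exact absurd (h0 ▸ mem_path hm) hc
    · exact absurd (h0 ▸ mem_path hm) hd
  have k1 := key (i + 1) (by omega) (by rw [← h, mem_fcell hi]; exact Or.inl rfl)
  have k0 := key i (by omega) (by rw [← h, mem_fcell hi]; exact Or.inr (Or.inl rfl))
  have hij : i = j := by
    rcases k1 with k1 | k1
    · have := inj hw (by omega) (by omega) (by omega) (by omega) k1
      omega
    · exfalso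
      rcases k0 with k0 | k0
      · -- `V (i+1) = V j`, `V i = V (j+1)`
        rcases Nat.eq_zero_or_pos j with hj0 | hj0
        · subst hj0
          rw [pos_end hw] at k1
          have e1 := inj hw (by omega) (by omega) (by omega) le_rfl k1
          have e2 := inj hw (by omega) (by omega) (by omega) (by omega) k0
          omega
        · have e1 := inj hw (by omega) (by omega) (by omega) (by omega) k1
          rcases Nat.eq_zero_or_pos i with hi0 | hi0
          · subst hi0
            rw [pos_end hw] at k0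
            have e2 := inj hw (by omega) (by omega) le_rfl (by omega) k0
            omega
          · have e2 := inj hw (by omega) (by omega) (by omega) (by omega) k0
            omega
      · exact succ_ne hi (k0.trans k1.symm)
  subst hij
  refine ⟨rfl, ?_⟩
  have h3 : pos (w.drop (i + 1)) + vec d ∈ fcell w i f := by
    rw [← h, mem_fcell hi]
    exact Or.inr (Or.inr (Or.inl rfl))
  rw [mem_fcell hi] at h3
  rcases h3 with h0 | h0 | h0 | h0
  · exact absurd (by rw [h0]; exact mem_path (show i + 1 ≤ w.length by omega)) ha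
  · exact absurd (by rw [h0]; exact mem_path (show i ≤ w.length by omega)) ha
  · exact vec_inj (add_left_cancel h0)
  · exfalso
    rw [add_assoc] at h0
    exact perp_aux _ _ _ hp hq (add_left_cancel h0)

lemma mem_bcell {w : List Dir} {i : ℕ} {p : Z3} : p ∈ bcell w i ↔ p = pos (w.drop i) ∨
    p = pos (w.drop (i + 1)) ∨ p = pos (w.drop (i + 2)) ∨ p = pos (w.drop (i + 3)) := by
  unfold bcell
  simp only [mem_insert, mem_singleton]

/-- the number of a vertex of a bump cell -/
lemma idx {w : List Dir} (hw : SAP w) {i m : ℕ} (hi : i + 2 < w.length) (hm : 1 ≤ m)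
    (hm' : m ≤ w.length) (h : pos (w.drop m) ∈ bcell w i) :
    (i ≤ m ∧ m ≤ i + 3) ∨ (i = 0 ∧ m = w.length) := by
  rw [mem_bcell] at h
  rcases h with h | h | h | h
  · rcases Nat.eq_zero_or_pos i with h0 | h0
    · subst h0
      rw [pos_end hw] at h
      exact Or.inr ⟨rfl, inj hw hm (by omega) hm' le_rfl h⟩
    · have := inj hw hm (by omega) hm' (by omega) h
      omega
  · have := inj hw hm (by omega) hm' (by omega) h
    omega
  · have := inj hw hm (by omega) hm' (by omega) h
    omega
  · have := inj hw hm (by omega) hm' (by omega) h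
    omega

lemma bump_lt {w : List Dir} (hw : SAP w) (hn : 5 ≤ w.length) {i j : ℕ} (hi : i + 2 < w.length)
    (hj : j + 2 < w.length) (h : bcell w i = bcell w j) : ¬ i < j := by
  intro hij
  have h3 := idx hw hi (show 1 ≤ j + 3 by omega) (by omega) (by
    rw [h, mem_bcell]; exact Or.inr (Or.inr (Or.inr rfl)))
  have h2 := idx hw hi (show 1 ≤ j + 2 by omega) (by omega) (by
    rw [h, mem_bcell]; exact Or.inr (Or.inr (Or.inl rfl)))
  omega

end ModKUNI

open ModKUNI in
/-- the position of a plaquette is unique -/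
theorem uni : StmUni := by
  refine ⟨fun w hw p hp q hq h => ?_, fun w hw hn i hi j hj h => ?_⟩
  · obtain ⟨i, d⟩ := p
    obtain ⟨j, f⟩ := q
    obtain ⟨h1, h2⟩ := site_eq hw (mem_sites.1 hp) (mem_sites.1 hq) h
    rw [h1, h2]
  · have h1 := (mem_bumps.1 hi).1
    have h2 := (mem_bumps.1 hj).1
    have h3 := bump_lt hw hn h1 h2 h
    have h4 := bump_lt hw hn h2 h1 h.symm
    omega

end

end Pool.Agent.T6.H92.TK
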