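import Pool.Agent.T6.H92.TG.Core

/-!
# The main estimate for a system of separated cells, general rate
-/

set_option autoImplicit false

namespace Pool.Agent.T6.H92.TK

open Finset Filter Topology Pool.Agent.T6.H92.TG
open scoped Classical

noncomputable section

/-- the numerical facts -/
structure Num3 (k : ℕ) (L c₁ C₁ c₂ M : ℝ) (p : ℕ) (τ C₀ : ℝ) (N : ℕ) (r : ℝ) : Prop where
  n1 : 3 ≤ N
  l1 : 1 ≤ r ^ 2 * N
  n2 : C₀ * r ≤ 1
  n3 : 16 ≤ τ * (r * N)
  n4 : k + τ * (r * N) ≤ c₁ * N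
  n6 : (16 ^ k * M * 2) * N ^ (2 * k + p) * Real.exp (-((2 * k + p + 1) * (r ^ 2 * N))) ≤ 1
  n7 : (16 ^ k * M * C₁) * N ^ (2 * k + p) * (Real.exp (L * (r ^ 2 * N)) * Real.exp (-(c₂ * N))) ≤ 1
  n8 : k ≤ N
  n9 : 1 / (N : ℝ) ≤ r

theorem num3 (k : ℕ) {L c₁ C₁ c₂ M : ℝ} (p : ℕ) {τ C₀ : ℝ} (hL : 0 ≤ L) (hc₁ : 0 < c₁) (hC₁ : 0 ≤ C₁)
    (hc₂ : 0 < c₂) (hM : 0 ≤ M) (hτ : 16 ≤ τ) (hC₀ : 0 < C₀) :
    ∃ (r₀ : ℝ) (N₀ : ℕ), 0 < r₀ ∧ ∀ N ≥ N₀, ∀ r : ℝ, 0 < r → r ≤ r₀ → Real.log N ≤ r ^ 2 * N →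
      Num3 k L c₁ C₁ c₂ M p τ C₀ N r := by
  have a1 := log_tend.eventually_ge_atTop 1
  have a3 := asy2 (2 * k + p) (A := 16 ^ k * M * C₁) (L := 0) (by positivity) le_rfl
    (show 0 < c₂ / 2 by positivity)
  have a6 : ∀ᶠ N : ℕ in atTop, 2 * k / c₁ ≤ (N : ℝ) :=
    (tendsto_natCast_atTop_atTop (R := ℝ)).eventually_ge_atTop _
  have a7 : ∀ᶠ N : ℕ in atTop, 16 ^ k * M * 2 ≤ (N : ℝ) :=
    (tendsto_natCast_atTop_atTop (R := ℝ)).eventually_ge_atTop _
  obtain ⟨N₀, hN₀⟩ := eventually_atTop.1 (a1.and (a3.and (a6.and (a7.and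
    ((eventually_ge_atTop 3).and (eventually_ge_atTop k))))))
  set r₀ : ℝ := min (min (1 / C₀) (c₁ / (2 * τ))) (min 1 (c₂ / (2 * (L + 1)))) with hr₀
  have hr₀0 : 0 < r₀ := by
    rw [hr₀]
    have : 0 < τ := by linarith
    exact lt_min (lt_min (by positivity) (by positivity)) (lt_min one_pos (by positivity))
  refine ⟨r₀, N₀, hr₀0, fun N hN r hr hrr hlog => ?_⟩
  obtain ⟨b1, b3, b6, b7, b8, b9⟩ := hN₀ N hN
  have hN3 : (3 : ℝ) ≤ N := by exact_mod_cast b8
  have hNp : (0 : ℝ) < N := by linarith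
  have l1 : 1 ≤ r ^ 2 * N := b1.trans hlog
  have r1 : r ≤ 1 / C₀ := hrr.trans ((min_le_left _ _).trans (min_le_left _ _))
  have r2 : r ≤ c₁ / (2 * τ) := hrr.trans ((min_le_left _ _).trans (min_le_right _ _))
  have r3 : r ≤ 1 := hrr.trans ((min_le_right _ _).trans (min_le_left _ _))
  have r4 : r ≤ c₂ / (2 * (L + 1)) := hrr.trans ((min_le_right _ _).trans (min_le_right _ _))
  have hrN : 1 ≤ r * N := by
    have h1 : 1 ≤ (r * N) ^ 2 := by
      have : (r * N) ^ 2 = r ^ 2 * N * N := by ring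
      rw [this]
      nlinarith
    nlinarith [mul_pos hr hNp]
  refine ⟨b8, l1, ?_, ?_, ?_, ?_, ?_, b9, ?_⟩
  · rw [le_div_iff₀ hC₀] at r1
    linarith
  · nlinarith
  · have h1 : τ * r ≤ c₁ / 2 := by
      rw [le_div_iff₀ (by linarith)] at r2
      linarith
    rw [div_le_iff₀ hc₁] at b6
    have h2 : τ * (r * N) ≤ c₁ / 2 * N := by
      rw [← mul_assoc]
      exact mul_le_mul_of_nonneg_right h1 hNp.le
    linarith
  · have h1 : Real.exp (-((2 * k + p + 1) * (r ^ 2 * N))) ≤ 1 / (N : ℝ) ^ (2 * k + p + 1) := by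
      have h2 : (N : ℝ) ^ (2 * k + p + 1) = Real.exp ((2 * k + p + 1 : ℕ) * Real.log N) := by
        rw [Real.exp_nat_mul, Real.exp_log hNp]
      rw [h2, one_div, ← Real.exp_neg]
      apply Real.exp_le_exp.2
      push_cast
      have : (0 : ℝ) ≤ 2 * k + p + 1 := by positivity
      nlinarith
    calc (16 ^ k * M * 2) * (N : ℝ) ^ (2 * k + p) * Real.exp (-((2 * k + p + 1) * (r ^ 2 * N))) ≤
        (16 ^ k * M * 2) * (N : ℝ) ^ (2 * k + p) * (1 / (N : ℝ) ^ (2 * k + p + 1)) := by gcongr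
      _ = (16 ^ k * M * 2) / N := by rw [pow_succ]; field_simp
      _ ≤ 1 := by rw [div_le_one hNp]; exact b7
  · refine le_trans ?_ b3
    rw [zero_mul, Real.exp_zero, one_mul]
    apply mul_le_mul_of_nonneg_left _ (by positivity)
    rw [← Real.exp_add]
    apply Real.exp_le_exp.2
    have h1 : L * r ^ 2 ≤ c₂ / 2 := by
      have h2 : r ^ 2 ≤ r := by nlinarith
      rw [le_div_iff₀ (by positivity)] at r4
      nlinarith
    nlinarith
  · rw [div_le_iff₀ hNp]
    exact hrN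

theorem core3 (hdif : StmDif) (k : ℕ) (z L c₁ C₁ c₂ M : ℝ) (p : ℕ) (P : Par k z L c₁ C₁ c₂ M p) :
    ∃ (C r₀ : ℝ) (N₀ : ℕ), 0 ≤ C ∧ 0 < r₀ ∧ ∀ N ≥ N₀, ∀ r : ℝ, 0 < r → r ≤ r₀ →
      Real.log N ≤ r ^ 2 * N → ∀ (α ι : Type) (K : ℕ → Finset α) (Fl Bu : α → Finset ι)
      (up dn : α → ι → α) (φ ψ : α → ℝ), Tog K Fl Bu up dn →
      (∀ w ∈ K N, (Fl w).card ≤ 8 * N ∧ (Bu w).card ≤ 8 * N) →
      (∀ n ≤ 10 * N, z ^ n * ((K n).card : ℝ) ≤
        Real.exp (L * (r ^ 2 * N)) * (z ^ N * ((K N).card : ℝ))) →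
      (∀ i ≤ k, z ^ (N + i) * (((K (N + i)).filter (fun w => ((Bu w).card : ℝ) < c₁ * N)).card : ℝ) ≤
        C₁ * (Real.exp (L * (r ^ 2 * N)) * Real.exp (-(c₂ * N))) * (z ^ N * ((K N).card : ℝ))) →
      (∀ i ≤ k, ∀ w ∈ K (N + i), |φ w| ≤ M * N ^ p) →
      (∀ w ∈ K N, 1 ≤ ψ w) →
      (∀ j ≤ k, ∀ w ∈ K N, k ≤ (Fl w).card → |VV Fl up φ j w| ≤ M * ψ w / N ^ j) →
      |D k (fun n => z ^ n * ∑ w ∈ K n, φ w) N| ≤ C * (r ^ k * (z ^ N * ∑ w ∈ K N, ψ w)) := by
  obtain ⟨hz0, hz1, hL, hc₁, hC₁, hc₂, hM⟩ := P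
  obtain ⟨Cd, hCd, hdif⟩ := hdif k
  set τ : ℝ := 1536 * (L + (2 * k + p + 1)) with hτ
  have hkp : (0 : ℝ) ≤ 2 * k + p := by positivity
  have hτ1 : 1536 ≤ τ := by rw [hτ]; nlinarith
  set C₀ : ℝ := τ / c₁ + 1 / c₁ + 1 with hC₀
  have hC₀1 : 1 ≤ C₀ := by
    have h1 : 0 ≤ τ / c₁ := by positivity
    have h2 : 0 ≤ 1 / c₁ := by positivity
    rw [hC₀]; linarith
  have hC₀a : τ ≤ C₀ * c₁ := by
    rw [hC₀]
    have : (τ / c₁ + 1 / c₁ + 1) * c₁ = τ + 1 + c₁ := by field_simp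
    rw [this]; linarith
  have hC₀b : 1 ≤ C₀ ^ 2 * c₁ := by
    have h1 : 1 ≤ C₀ * c₁ := by linarith
    have h2 : C₀ ^ 2 * c₁ = C₀ * (C₀ * c₁) := by ring
    rw [h2]
    exact one_le_mul_of_one_le_of_one_le hC₀1 h1
  obtain ⟨r₀, N₀, hr₀, hN₀⟩ := num3 k (L := L) (c₁ := c₁) (C₁ := C₁) (c₂ := c₂) (M := M) p (τ := τ)
    (C₀ := C₀) hL hc₁ hC₁ hc₂ hM (by linarith) (by linarith)
  set A₀ : ℝ := 2 ^ k * (Cd * M * C₀ ^ k) with hA₀
  have hA₀0 : 0 ≤ A₀ := by positivity
  refine ⟨A₀ + 3, r₀, N₀, by positivity, hr₀, ?_⟩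
  intro N hN r hr hrr hlog α ι K Fl Bu up dn φ ψ T hcard hcnt hfew hφ hψ hV
  obtain ⟨n1, l1, n2, n3, n4, n6, n7, n8, n9⟩ := hN₀ N hN r hr hrr hlog
  clear hN₀ hlog hrr
  have hN3 : (3 : ℝ) ≤ N := by exact_mod_cast n1
  have hNp : (0 : ℝ) < N := by linarith
  set l := r ^ 2 * (N : ℝ) with hl
  have hek : 1 / (N : ℝ) ^ k ≤ r ^ k := by
    rw [← one_div_pow]
    exact pow_le_pow_left₀ (by positivity) n9 k
  set ε : ℝ := C₀ * r with hε
  have hε0 : 0 < ε := by positivity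
  set t : ℝ := τ * (r * N) with ht
  set q : ℝ := z ^ N * ((K N).card : ℝ) with hq
  have hq0 : 0 ≤ q := by positivity
  have hzN : 0 < z ^ N := by positivity
  set B : ℕ := 8 * N with hB
  have hBr : (B : ℝ) = 8 * N := by rw [hB]; push_cast; ring
  -- the tail
  have htail := tail T hz0 hz1 (N := N) (B := B) (by omega)
    (fun w hw => ⟨(hcard w hw).1, (hcard w hw).2, (hcard w hw).2⟩)
    (Λ := Real.exp (L * l)) (fun n hn => hcnt n (by omega)) (t := t) n3
  have htail2 : (((K N).filter (fun w => t ≤ |z * (Fl w).card - (Bu w).card|)).card : ℝ) ≤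
      2 * Real.exp (-((2 * k + p + 1) * l)) * ((K N).card : ℝ) := by
    refine htail.trans ?_
    apply mul_le_mul_of_nonneg_right _ (Nat.cast_nonneg _)
    rw [mul_assoc, ← Real.exp_add]
    apply mul_le_mul_of_nonneg_left _ (by norm_num)
    apply Real.exp_le_exp.2
    have e1 : t ^ 2 / (192 * (B : ℝ)) = τ ^ 2 * l / 1536 := by
      rw [hBr, ht, hl]
      field_simp
      norm_num
    rw [e1]
    have e2 : (L + (2 * k + p + 1)) * l ≤ τ ^ 2 * l / 1536 := by
      rw [le_div_iff₀ (by norm_num)]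
      have e3 : (L + (2 * k + p + 1)) * 1536 ≤ τ ^ 2 := by
        have e4 : (L + (2 * k + p + 1)) * 1536 = τ := by rw [hτ]; ring
        have e5 : 1 ≤ τ := by linarith
        rw [e4, pow_two]
        exact le_mul_of_one_le_left (by linarith) e5
      have e6 := mul_le_mul_of_nonneg_right e3 (show 0 ≤ l by linarith)
      calc (L + (2 * k + p + 1)) * l * 1536 = (L + (2 * k + p + 1)) * 1536 * l := by ring
        _ ≤ _ := e6
    have e7 : L * l + (2 * k + p + 1) * l = (L + (2 * k + p + 1)) * l := by ring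
    linarith
  clear htail
  have hfew0 : (((K N).filter (fun w => ((Bu w).card : ℝ) < c₁ * N)).card : ℝ) ≤
      C₁ * (Real.exp (L * l) * Real.exp (-(c₂ * N))) * ((K N).card : ℝ) := by
    have h1 := hfew 0 (Nat.zero_le k)
    rw [Nat.add_zero] at h1
    have h2 : z ^ N * (((K N).filter (fun w => ((Bu w).card : ℝ) < c₁ * N)).card : ℝ) ≤
        z ^ N * (C₁ * (Real.exp (L * l) * Real.exp (-(c₂ * N))) * ((K N).card : ℝ)) := by
      refine h1.trans (le_of_eq ?_)
      rw [hq]; ring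
    exact le_of_mul_le_mul_left h2 hzN
  -- the bound of the terms
  set M2 : ℝ := 16 ^ k * M * N ^ (k + p) with hM2
  have hM20 : 0 ≤ M2 := by positivity
  have hterm : ∀ w ∈ K N, |D k (fun i => z ^ i * rho i (Fl w).card (Bu w).card *
      (UU Fl up)^[i] φ w) 0| ≤ A₀ * r ^ k * ψ w +
      ((if t ≤ |z * (Fl w).card - (Bu w).card| then M2 else 0) +
        (if ((Bu w).card : ℝ) < c₁ * N then M2 else 0)) := by
    intro w hw
    have hψw := hψ w hw
    have hbad : |D k (fun i => z ^ i * rho i (Fl w).card (Bu w).card *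
        (UU Fl up)^[i] φ w) 0| ≤ M2 := by
      have h1 : ∀ i, 0 ≤ i → i ≤ 0 + k → |z ^ i * rho i (Fl w).card (Bu w).card *
          (UU Fl up)^[i] φ w| ≤ 8 ^ k * M * N ^ (k + p) := by
        intro i _ hi
        have g1 : |(UU Fl up)^[i] φ w| ≤ M * N ^ p :=
          UI_bound T (by positivity) i φ (hφ i (by omega)) w hw
        have g2 : rho i (Fl w).card (Bu w).card ≤ (B : ℝ) ^ i :=
          rho_le _ _ _ _ (by have := (hcard w hw).1; omega) (by omega)
        have g3 : (B : ℝ) ^ i ≤ (B : ℝ) ^ k :=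
          pow_le_pow_right₀ (by rw [hBr]; linarith) (by omega)
        have g4 : z ^ i ≤ 1 := pow_le_one₀ hz0.le hz1
        have g5 : 0 ≤ rho i (Fl w).card (Bu w).card := rho_nonneg _ _ _
        rw [abs_mul, abs_of_nonneg (mul_nonneg (pow_nonneg hz0.le i) g5)]
        calc z ^ i * rho i (Fl w).card (Bu w).card * |(UU Fl up)^[i] φ w| ≤
            1 * (B : ℝ) ^ k * (M * N ^ p) := by
              gcongr
              exact g2.trans g3
          _ = 8 ^ k * M * N ^ (k + p) := by rw [hBr, mul_pow, pow_add]; ring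
      refine (D_bound k 0 h1).trans (le_of_eq ?_)
      rw [hM2]
      have : (16 : ℝ) ^ k = 2 ^ k * 8 ^ k := by rw [← mul_pow]; norm_num
      rw [this]
      ring
    have hA : 0 ≤ A₀ * r ^ k * ψ w := by
      have : 0 ≤ r ^ k := by positivity
      have h2 : 0 ≤ ψ w := by linarith
      positivity
    by_cases hX : t ≤ |z * (Fl w).card - (Bu w).card|
    · rw [if_pos hX]
      split_ifs <;> linarith
    · by_cases hb : ((Bu w).card : ℝ) < c₁ * N
      · rw [if_pos hb]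
        split_ifs <;> linarith
      · rw [if_neg hX, if_neg hb]
        push Not at hX hb
        have hb0 : (0 : ℝ) ≤ (Bu w).card := Nat.cast_nonneg _
        have hf0 : (0 : ℝ) ≤ (Fl w).card := Nat.cast_nonneg _
        have g1 : |z * (Fl w).card - (Bu w).card| ≤ ε * ((Bu w).card + 1) := by
          refine hX.le.trans ?_
          have : t ≤ ε * (c₁ * N) := by
            have e1 : ε * (c₁ * N) = (C₀ * c₁) * (r * N) := by
              rw [hε]; ring
            rw [e1, ht]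
            exact mul_le_mul_of_nonneg_right hC₀a (by positivity)
          refine this.trans ?_
          apply mul_le_mul_of_nonneg_left _ hε0.le
          linarith
        have g2 : 1 ≤ ε ^ 2 * ((Bu w).card + 1) := by
          have e1 : ε ^ 2 * (c₁ * N) = (C₀ ^ 2 * c₁) * l := by
            rw [hε, hl]; ring
          have e2 : 1 ≤ ε ^ 2 * (c₁ * N) := by
            rw [e1]
            exact one_le_mul_of_one_le_of_one_le hC₀b l1
          have e3 : ε ^ 2 * (c₁ * N) ≤ ε ^ 2 * ((Bu w).card + 1) := by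
            apply mul_le_mul_of_nonneg_left _ (by positivity)
            linarith
          linarith
        have g3 : k ≤ (Fl w).card := by
          have h1 := (abs_lt.1 hX).1
          have h2 : z * (Fl w).card ≤ (Fl w).card := mul_le_of_le_one_left hf0 hz1
          have h3 : (k : ℝ) ≤ (Fl w).card := by linarith
          exact_mod_cast h3
        have g4 := prodD k (fun i => z ^ i * rho i (Fl w).card (Bu w).card)
          (fun i => (UU Fl up)^[i] φ w) Cd (M * ψ w) ε hCd (by positivity) hε0.le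
          (fun a l' hal => hdif z _ _ ε hz0 hz1 hε0 n2 g1 g2 a (by omega) l' (by omega))
          (fun j hj => by
            rw [D_UI]
            refine (hV j hj w hw g3).trans ?_
            rw [mul_div_assoc, mul_assoc]
            apply mul_le_mul_of_nonneg_left _ hM
            rw [div_eq_mul_inv]
            apply mul_le_mul_of_nonneg_left _ (by linarith)
            rw [← inv_pow]
            apply pow_le_pow_left₀ (by positivity)
            rw [← one_div]
            refine n9.trans ?_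
            rw [hε]
            exact le_mul_of_one_le_left hr.le hC₀1)
        refine g4.trans (le_of_eq ?_)
        rw [hA₀, hε, mul_pow]
        ring
  -- the remainder
  have hrem : |D k (fun i => z ^ (N + i) * ∑ w ∈ (K (N + i)).filter (fun w => (Bu w).card < i), φ w) 0| ≤
      2 ^ k * (M * N ^ p * (C₁ * (Real.exp (L * l) * Real.exp (-(c₂ * N))) * q)) := by
    apply D_bound
    intro i _ hi
    have hzi : 0 ≤ z ^ (N + i) := pow_nonneg hz0.le _
    have h1 : |∑ w ∈ (K (N + i)).filter (fun w => (Bu w).card < i), φ w| ≤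
        (((K (N + i)).filter (fun w => ((Bu w).card : ℝ) < c₁ * N)).card : ℝ) * (M * N ^ p) := by
      calc |∑ w ∈ (K (N + i)).filter (fun w => (Bu w).card < i), φ w| ≤
          ∑ w ∈ (K (N + i)).filter (fun w => (Bu w).card < i), |φ w| := Finset.abs_sum_le_sum_abs _ _
        _ ≤ ∑ w ∈ (K (N + i)).filter (fun w => (Bu w).card < i), M * N ^ p :=
            Finset.sum_le_sum fun w hw => hφ i (by omega) w (mem_filter.1 hw).1
        _ = (((K (N + i)).filter (fun w => (Bu w).card < i)).card : ℝ) * (M * N ^ p) := by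
            rw [Finset.sum_const, nsmul_eq_mul]
        _ ≤ (((K (N + i)).filter (fun w => ((Bu w).card : ℝ) < c₁ * N)).card : ℝ) * (M * N ^ p) := by
            apply mul_le_mul_of_nonneg_right _ (by positivity)
            have h2 : (K (N + i)).filter (fun w => (Bu w).card < i) ⊆
                (K (N + i)).filter (fun w => ((Bu w).card : ℝ) < c₁ * N) := by
              intro w hw
              rw [mem_filter] at hw ⊢
              refine ⟨hw.1, ?_⟩
              have h3 : ((Bu w).card : ℝ) < i := by exact_mod_cast hw.2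
              have h4 : (i : ℝ) ≤ k := by
                have : i ≤ k := by omega
                exact_mod_cast this
              linarith
            exact_mod_cast Finset.card_le_card h2
    rw [abs_mul, abs_of_nonneg hzi]
    calc z ^ (N + i) * |∑ w ∈ (K (N + i)).filter (fun w => (Bu w).card < i), φ w| ≤
        z ^ (N + i) * ((((K (N + i)).filter (fun w => ((Bu w).card : ℝ) < c₁ * N)).card : ℝ) *
          (M * N ^ p)) := mul_le_mul_of_nonneg_left h1 hzi
      _ = M * N ^ p * (z ^ (N + i) *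
          (((K (N + i)).filter (fun w => ((Bu w).card : ℝ) < c₁ * N)).card : ℝ)) := by ring
      _ ≤ _ := mul_le_mul_of_nonneg_left (hfew i (by omega)) (by positivity)
  -- the numerical bounds
  have hNk : (0 : ℝ) < (N : ℝ) ^ k := by positivity
  have hpow2 : (N : ℝ) ^ (2 * k + p) = (N : ℝ) ^ k * (N : ℝ) ^ (k + p) := by
    rw [← pow_add]
    congr 1
    omega
  have x1 : M2 * (2 * Real.exp (-((2 * k + p + 1) * l))) ≤ r ^ k := by
    refine le_trans ?_ hek
    rw [le_div_iff₀ hNk]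
    refine le_trans (le_of_eq ?_) n6
    rw [hM2, hpow2]
    ring
  have x2 : M2 * (C₁ * (Real.exp (L * l) * Real.exp (-(c₂ * N)))) ≤ r ^ k := by
    refine le_trans ?_ hek
    rw [le_div_iff₀ hNk]
    refine le_trans (le_of_eq ?_) n7
    rw [hM2, hpow2]
    ring
  have x4 : 2 ^ k * (M * N ^ p * (C₁ * (Real.exp (L * l) * Real.exp (-(c₂ * N))) * q)) ≤
      r ^ k * q := by
    have y1 : (2 : ℝ) ^ k * (M * N ^ p) ≤ M2 := by
      rw [hM2]
      have y2 : (2 : ℝ) ^ k ≤ 16 ^ k := pow_le_pow_left₀ (by norm_num) (by norm_num) k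
      have y3 : (N : ℝ) ^ p ≤ N ^ (k + p) := pow_le_pow_right₀ (by linarith) (by omega)
      calc (2 : ℝ) ^ k * (M * N ^ p) ≤ 16 ^ k * (M * N ^ (k + p)) := by gcongr
        _ = _ := by ring
    calc 2 ^ k * (M * N ^ p * (C₁ * (Real.exp (L * l) * Real.exp (-(c₂ * N))) * q)) =
        (2 ^ k * (M * N ^ p)) * (C₁ * (Real.exp (L * l) * Real.exp (-(c₂ * N)))) * q := by ring
      _ ≤ M2 * (C₁ * (Real.exp (L * l) * Real.exp (-(c₂ * N)))) * q := by gcongr
      _ ≤ r ^ k * q := mul_le_mul_of_nonneg_right x2 hq0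
  -- the sum
  have hsum : ∑ w ∈ K N, |D k (fun i => z ^ i * rho i (Fl w).card (Bu w).card *
      (UU Fl up)^[i] φ w) 0| ≤ A₀ * r ^ k * ∑ w ∈ K N, ψ w +
      (r ^ k * ((K N).card : ℝ) + r ^ k * ((K N).card : ℝ)) := by
    refine (Finset.sum_le_sum hterm).trans ?_
    rw [Finset.sum_add_distrib, Finset.sum_add_distrib, ← Finset.mul_sum, ← Finset.sum_filter,
      ← Finset.sum_filter, Finset.sum_const, Finset.sum_const, nsmul_eq_mul, nsmul_eq_mul]
    have hK0 : (0 : ℝ) ≤ ((K N).card : ℝ) := Nat.cast_nonneg _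
    have s1 : (((K N).filter (fun w => t ≤ |z * (Fl w).card - (Bu w).card|)).card : ℝ) * M2 ≤
        r ^ k * ((K N).card : ℝ) := by
      calc _ ≤ 2 * Real.exp (-((2 * k + p + 1) * l)) * ((K N).card : ℝ) * M2 :=
            mul_le_mul_of_nonneg_right htail2 hM20
        _ = M2 * (2 * Real.exp (-((2 * k + p + 1) * l))) * ((K N).card : ℝ) := by ring
        _ ≤ _ := mul_le_mul_of_nonneg_right x1 hK0
    have s2 : (((K N).filter (fun w => ((Bu w).card : ℝ) < c₁ * N)).card : ℝ) * M2 ≤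
        r ^ k * ((K N).card : ℝ) := by
      calc _ ≤ C₁ * (Real.exp (L * l) * Real.exp (-(c₂ * N))) * ((K N).card : ℝ) * M2 :=
            mul_le_mul_of_nonneg_right hfew0 hM20
        _ = M2 * (C₁ * (Real.exp (L * l) * Real.exp (-(c₂ * N)))) * ((K N).card : ℝ) := by ring
        _ ≤ _ := mul_le_mul_of_nonneg_right x2 hK0
    linarith
  have hqψ : q ≤ z ^ N * ∑ w ∈ K N, ψ w := by
    rw [hq]
    apply mul_le_mul_of_nonneg_left _ hzN.le
    calc ((K N).card : ℝ) = ∑ w ∈ K N, (1 : ℝ) := by simp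
      _ ≤ _ := Finset.sum_le_sum hψ
  rw [D_main T z N k φ]
  have hek0 : 0 ≤ r ^ k := by positivity
  calc |z ^ N * ∑ w ∈ K N, D k (fun i => z ^ i * rho i (Fl w).card (Bu w).card *
        (UU Fl up)^[i] φ w) 0 +
      D k (fun i => z ^ (N + i) * ∑ w ∈ (K (N + i)).filter (fun w => (Bu w).card < i), φ w) 0| ≤
      |z ^ N * ∑ w ∈ K N, D k (fun i => z ^ i * rho i (Fl w).card (Bu w).card *
        (UU Fl up)^[i] φ w) 0| +
      |D k (fun i => z ^ (N + i) * ∑ w ∈ (K (N + i)).filter (fun w => (Bu w).card < i), φ w) 0| :=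
        abs_add_le _ _
    _ ≤ z ^ N * (A₀ * r ^ k * ∑ w ∈ K N, ψ w +
      (r ^ k * ((K N).card : ℝ) + r ^ k * ((K N).card : ℝ))) + r ^ k * q := by
        apply add_le_add _ (hrem.trans x4)
        rw [abs_mul, abs_of_pos hzN]
        apply mul_le_mul_of_nonneg_left _ hzN.le
        exact (Finset.abs_sum_le_sum_abs _ _).trans hsum
    _ = A₀ * (r ^ k * (z ^ N * ∑ w ∈ K N, ψ w)) + 3 * (r ^ k * q) := by rw [hq]; ring
    _ ≤ A₀ * (r ^ k * (z ^ N * ∑ w ∈ K N, ψ w)) + 3 * (r ^ k * (z ^ N * ∑ w ∈ K N, ψ w)) := by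
        gcongr
    _ = _ := by ring

end

end Pool.Agent.T6.H92.TK
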