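import Pool.Agent.T6.H92.TG.Core

/-!
# The main estimate for a system of separated cells, general rate, growth near `N` only
-/

set_option autoImplicit false

namespace Pool.Agent.T6.H92.TK

open Finset Filter Topology Pool.Agent.T6.H92.TG
open scoped Classical

noncomputable section

theorem summ5 (k : ℕ) : Summable (fun m : ℕ => ((m : ℝ) + 1) ^ k * (2 * Real.exp (-(m : ℝ)))) := by
  have h1 := Real.summable_pow_mul_exp_neg_nat_mul k (show (0 : ℝ) < 1 by norm_num)
  have h2 := (summable_nat_add_iff 1).2 h1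
  have h3 := h2.mul_left (2 * Real.exp 1)
  refine h3.congr fun m => ?_
  push_cast
  have : Real.exp (-1 * ((m : ℝ) + 1)) = Real.exp (-(m : ℝ)) * Real.exp (-1) := by
    rw [← Real.exp_add]; ring_nf
  rw [this]
  have e : Real.exp 1 * Real.exp (-1) = 1 := by rw [← Real.exp_add]; simp
  calc 2 * Real.exp 1 * (((m : ℝ) + 1) ^ k * (Real.exp (-(m : ℝ)) * Real.exp (-1))) =
      (Real.exp 1 * Real.exp (-1)) * (((m : ℝ) + 1) ^ k * (2 * Real.exp (-(m : ℝ)))) := by ring
    _ = _ := by rw [e, one_mul]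

/-- moments from tails -/
theorem mom5 (k : ℕ) : ∃ C : ℝ, 0 ≤ C ∧ ∀ (α : Type) (S : Finset α) (X : α → ℝ) (T Y : ℝ), 0 < T →
    (S.card : ℝ) ≤ Y →
    (∀ m : ℕ, 1 ≤ m → ((S.filter (fun w => m * T ≤ |X w|)).card : ℝ) ≤
      2 * Real.exp (-(m : ℝ)) * Y) →
    ∑ w ∈ S, |X w| ^ k ≤ C * (T ^ k * Y) := by
  refine ⟨1 + ∑' m : ℕ, ((m : ℝ) + 1) ^ k * (2 * Real.exp (-(m : ℝ))), ?_, ?_⟩
  · have : 0 ≤ ∑' m : ℕ, ((m : ℝ) + 1) ^ k * (2 * Real.exp (-(m : ℝ))) :=
      tsum_nonneg fun m => by positivity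
    linarith
  intro α S X T Y hT hY htail
  set M : ℕ := ⌊(∑ w ∈ S, |X w|) / T⌋₊ with hM
  have hpt : ∀ w ∈ S, |X w| ^ k ≤ T ^ k + ∑ m ∈ range (M + 1),
      (if m * T ≤ |X w| then (if 1 ≤ m then (((m : ℝ) + 1) * T) ^ k else 0) else 0) := by
    intro w hw
    have hnn : ∀ m ∈ range (M + 1), 0 ≤ (if m * T ≤ |X w| then
        (if 1 ≤ m then (((m : ℝ) + 1) * T) ^ k else 0) else 0) := by
      intro m _
      split_ifs <;> positivity
    set m₀ : ℕ := ⌊|X w| / T⌋₊ with hm₀
    have h1 : (m₀ : ℝ) ≤ |X w| / T := Nat.floor_le (by positivity)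
    have h2 : |X w| / T < m₀ + 1 := Nat.lt_floor_add_one _
    rw [le_div_iff₀ hT] at h1
    rw [div_lt_iff₀ hT] at h2
    by_cases h0 : 1 ≤ m₀
    · have h3 : m₀ ∈ range (M + 1) := by
        rw [mem_range, Nat.lt_succ_iff, hM, hm₀]
        apply Nat.floor_le_floor
        apply div_le_div_of_nonneg_right _ hT.le
        exact Finset.single_le_sum (f := fun w => |X w|) (fun i _ => abs_nonneg _) hw
      have h4 := Finset.single_le_sum hnn h3
      rw [if_pos h1, if_pos h0] at h4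
      have h5 : |X w| ^ k ≤ (((m₀ : ℝ) + 1) * T) ^ k :=
        pow_le_pow_left₀ (abs_nonneg _) h2.le k
      have h6 : 0 ≤ T ^ k := by positivity
      linarith
    · have h3 : m₀ = 0 := by omega
      rw [h3] at h2
      have h5 : |X w| ^ k ≤ T ^ k :=
        pow_le_pow_left₀ (abs_nonneg _) (by push_cast at h2; linarith) k
      have h6 := Finset.sum_nonneg hnn
      linarith
  have hS : (0 : ℝ) ≤ S.card := Nat.cast_nonneg _
  have hY0 : 0 ≤ Y := hS.trans hY
  calc ∑ w ∈ S, |X w| ^ k ≤ ∑ w ∈ S, (T ^ k + ∑ m ∈ range (M + 1),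
      (if m * T ≤ |X w| then (if 1 ≤ m then (((m : ℝ) + 1) * T) ^ k else 0) else 0)) :=
        Finset.sum_le_sum hpt
    _ = S.card * T ^ k + ∑ m ∈ range (M + 1),
        ((S.filter (fun w => m * T ≤ |X w|)).card : ℝ) *
          (if 1 ≤ m then (((m : ℝ) + 1) * T) ^ k else 0) := by
        rw [Finset.sum_add_distrib, Finset.sum_const, nsmul_eq_mul, Finset.sum_comm]
        congr 1
        refine Finset.sum_congr rfl fun m _ => ?_
        rw [← Finset.sum_filter, Finset.sum_const, nsmul_eq_mul]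
    _ ≤ Y * T ^ k + ∑ m ∈ range (M + 1),
        (T ^ k * Y) * (((m : ℝ) + 1) ^ k * (2 * Real.exp (-(m : ℝ)))) := by
        apply add_le_add (mul_le_mul_of_nonneg_right hY (by positivity))
        refine Finset.sum_le_sum fun m _ => ?_
        split_ifs with h
        · calc ((S.filter (fun w => m * T ≤ |X w|)).card : ℝ) * (((m : ℝ) + 1) * T) ^ k ≤
              (2 * Real.exp (-(m : ℝ)) * Y) * (((m : ℝ) + 1) * T) ^ k :=
                mul_le_mul_of_nonneg_right (htail m h) (by positivity)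
            _ = _ := by rw [mul_pow]; ring
        · rw [mul_zero]
          positivity
    _ = (T ^ k * Y) * (1 + ∑ m ∈ range (M + 1), ((m : ℝ) + 1) ^ k * (2 * Real.exp (-(m : ℝ)))) := by
        rw [← Finset.mul_sum]
        ring
    _ ≤ (T ^ k * Y) * (1 + ∑' m : ℕ, ((m : ℝ) + 1) ^ k * (2 * Real.exp (-(m : ℝ)))) := by
        apply mul_le_mul_of_nonneg_left _ (by positivity)
        apply add_le_add le_rfl
        exact (summ5 k).sum_le_tsum _ (fun m _ => by positivity)
    _ = _ := by ring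

/-- the numerical facts -/
structure Num5 (k : ℕ) (L c₁ C₁ c₂ c₃ M : ℝ) (C₀ : ℝ) (N : ℕ) (r : ℝ) : Prop where
  n1 : 3 ≤ N
  n2 : C₀ * r ≤ 1 / 2
  n3 : 16 ≤ N / (2 * C₀)
  n4 : 2 * k ≤ c₁ * N
  n6 : (16 ^ k * M * 2) * N ^ (2 * k) * (Real.exp (L * (r ^ 2 * N)) * Real.exp (-(c₃ * N))) ≤ 1
  n7 : (16 ^ k * M * C₁) * N ^ (2 * k) * (Real.exp (L * (r ^ 2 * N)) * Real.exp (-(c₂ * N))) ≤ 1
  n8 : k ≤ N
  n9 : 1 / (N : ℝ) ≤ r
  n10 : 1 ≤ r * N

theorem num5 (k : ℕ) {L c₁ C₁ c₂ c₃ M : ℝ} {C₀ : ℝ} (hL : 0 ≤ L) (hc₁ : 0 < c₁) (hC₁ : 0 ≤ C₁)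
    (hc₂ : 0 < c₂) (hc₃ : 0 < c₃) (hM : 0 ≤ M) (hC₀ : 0 < C₀) :
    ∃ (r₀ : ℝ) (N₀ : ℕ), 0 < r₀ ∧ ∀ N ≥ N₀, ∀ r : ℝ, 0 < r → r ≤ r₀ → 1 ≤ r ^ 2 * N →
      Num5 k L c₁ C₁ c₂ c₃ M C₀ N r := by
  have a3 := asy2 (2 * k) (A := 16 ^ k * M * C₁) (L := 0) (by positivity) le_rfl
    (show 0 < c₂ / 2 by positivity)
  have a3' := asy2 (2 * k) (A := 16 ^ k * M * 2) (L := 0) (by positivity) le_rfl
    (show 0 < c₃ / 2 by positivity)
  have a6 : ∀ᶠ N : ℕ in atTop, 2 * k / c₁ ≤ (N : ℝ) :=
    (tendsto_natCast_atTop_atTop (R := ℝ)).eventually_ge_atTop _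
  have a7 : ∀ᶠ N : ℕ in atTop, 16 * (2 * C₀) ≤ (N : ℝ) :=
    (tendsto_natCast_atTop_atTop (R := ℝ)).eventually_ge_atTop _
  obtain ⟨N₀, hN₀⟩ := eventually_atTop.1 (a3.and (a3'.and (a6.and (a7.and
    ((eventually_ge_atTop 3).and (eventually_ge_atTop k))))))
  set r₀ : ℝ := min (1 / (2 * C₀)) (min 1 (min (c₂ / (2 * (L + 1))) (c₃ / (2 * (L + 1))))) with hr₀
  have hr₀0 : 0 < r₀ := by
    rw [hr₀]
    exact lt_min (by positivity) (lt_min one_pos (lt_min (by positivity) (by positivity)))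
  refine ⟨r₀, N₀, hr₀0, fun N hN r hr hrr hlog => ?_⟩
  obtain ⟨b3, b3', b6, b7, b8, b9⟩ := hN₀ N hN
  have hN3 : (3 : ℝ) ≤ N := by exact_mod_cast b8
  have hNp : (0 : ℝ) < N := by linarith
  have r1 : r ≤ 1 / (2 * C₀) := hrr.trans (min_le_left _ _)
  have r3 : r ≤ 1 := hrr.trans ((min_le_right _ _).trans (min_le_left _ _))
  have r4 : r ≤ c₂ / (2 * (L + 1)) := hrr.trans ((min_le_right _ _).trans
    ((min_le_right _ _).trans (min_le_left _ _)))
  have r5 : r ≤ c₃ / (2 * (L + 1)) := hrr.trans ((min_le_right _ _).trans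
    ((min_le_right _ _).trans (min_le_right _ _)))
  have hrN : 1 ≤ r * N := by
    have h1 : 1 ≤ (r * N) ^ 2 := by
      have : (r * N) ^ 2 = r ^ 2 * N * N := by ring
      rw [this]
      nlinarith
    nlinarith [mul_pos hr hNp]
  have h2 : r ^ 2 ≤ r := by nlinarith
  refine ⟨b8, ?_, ?_, ?_, ?_, ?_, b9, ?_, hrN⟩
  · rw [le_div_iff₀ (by positivity)] at r1
    linarith
  · rw [le_div_iff₀ (by positivity)]
    exact b7
  · rw [div_le_iff₀ hc₁] at b6
    linarith
  · refine le_trans ?_ b3'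
    rw [zero_mul, Real.exp_zero, one_mul]
    apply mul_le_mul_of_nonneg_left _ (by positivity)
    rw [← Real.exp_add]
    apply Real.exp_le_exp.2
    have h1 : L * r ^ 2 ≤ c₃ / 2 := by
      rw [le_div_iff₀ (by positivity)] at r5
      nlinarith
    nlinarith
  · refine le_trans ?_ b3
    rw [zero_mul, Real.exp_zero, one_mul]
    apply mul_le_mul_of_nonneg_left _ (by positivity)
    rw [← Real.exp_add]
    apply Real.exp_le_exp.2
    have h1 : L * r ^ 2 ≤ c₂ / 2 := by
      rw [le_div_iff₀ (by positivity)] at r4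
      nlinarith
    nlinarith
  · rw [div_le_iff₀ hNp]
    exact hrN

variable {α ι : Type} {K : ℕ → Finset α} {Fl Bu : α → Finset ι} {up dn : α → ι → α}

/-- **Gaussian tails**, growth only near `N` -/
theorem tail5 (T : Tog K Fl Bu up dn) {z : ℝ} (hz0 : 0 < z) (hz1 : z ≤ 1) {N B : ℕ} (hB : 1 ≤ B)
    (hfb : ∀ w ∈ K N, (Fl w).card ≤ B ∧ (Bu w).card ≤ B ∧ (Bu w).card ≤ 8 * N)
    {Λ : ℝ} (hΛ : ∀ n, N ≤ 2 * n → n ≤ 2 * N → z ^ n * ((K n).card : ℝ) ≤ Λ * (z ^ N * ((K N).card : ℝ)))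
    {t : ℝ} (ht : 16 ≤ t) (htN : t ≤ 4 * N) :
    (((K N).filter (fun w => t ≤ |z * (Fl w).card - (Bu w).card|)).card : ℝ) ≤
      2 * Λ * Real.exp (-(t ^ 2 / (192 * B))) * ((K N).card : ℝ) := by
  have hinv : Inv K Fl up (fun _ => (1 : ℝ)) := fun _ _ _ _ _ => rfl
  have ht0 : 0 ≤ t / 8 := by linarith
  set i : ℕ := ⌊t / 8⌋₊ with hi
  have hi1 : (i : ℝ) ≤ t / 8 := Nat.floor_le ht0
  have hi2 : t / 16 ≤ i := by
    have := Nat.lt_floor_add_one (t / 8)
    rw [← hi] at this
    linarith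
  have hi3 : 2 * i ≤ N := by
    have h1 : (2 : ℝ) * i ≤ N := by linarith
    exact_mod_cast h1
  have hzN : 0 < z ^ N := by positivity
  have hE : 0 < Real.exp (t ^ 2 / (192 * B)) := Real.exp_pos _
  have hEi : Real.exp (-(t ^ 2 / (192 * B))) = 1 / Real.exp (t ^ 2 / (192 * B)) := by
    rw [Real.exp_neg]; simp
  -- upper tail
  have hU : (((K N).filter (fun w => t ≤ z * (Fl w).card - (Bu w).card)).card : ℝ) ≤
      Λ * Real.exp (-(t ^ 2 / (192 * B))) * ((K N).card : ℝ) := by
    by_cases hne : ((K N).filter (fun w => t ≤ z * (Fl w).card - (Bu w).card)).Nonempty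
    · obtain ⟨w₀, hw₀⟩ := hne
      rw [mem_filter] at hw₀
      have hiB : i ≤ B := by
        have h1 := hfb w₀ hw₀.1
        have h2 : ((Fl w₀).card : ℝ) ≤ B := by exact_mod_cast h1.1
        have h3 : (0 : ℝ) ≤ (Bu w₀).card := Nat.cast_nonneg _
        have h4 : z * ((Fl w₀).card : ℝ) ≤ (Fl w₀).card := by
          have : (0 : ℝ) ≤ (Fl w₀).card := Nat.cast_nonneg _
          nlinarith
        have h5 : (i : ℝ) ≤ B := by linarith [hw₀.2]
        exact_mod_cast h5
      have h1 := count_up T hinv N i (fun _ _ => 1)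
      have h2 : ∑ w ∈ K N, rho i (Fl w).card (Bu w).card ≤ ((K (N + i)).card : ℝ) := by
        have h3 : ∑ w ∈ K N, rho i (Fl w).card (Bu w).card =
            ∑ w ∈ K N, (1 : ℝ) * (rho i (Fl w).card (Bu w).card * 1) := by simp
        rw [h3, ← h1]
        calc ∑ w ∈ K (N + i), (if i ≤ (Bu w).card then (1 : ℝ) * 1 else 0) ≤
            ∑ w ∈ K (N + i), (1 : ℝ) := by
              refine Finset.sum_le_sum fun w _ => ?_
              split_ifs <;> norm_num
          _ = _ := by simp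
      have h3 : (((K N).filter (fun w => t ≤ z * (Fl w).card - (Bu w).card)).card : ℝ) *
          Real.exp (t ^ 2 / (192 * B)) ≤ z ^ i * ((K (N + i)).card : ℝ) := by
        refine le_trans ?_ (mul_le_mul_of_nonneg_left h2 (by positivity))
        rw [Finset.mul_sum]
        calc (((K N).filter (fun w => t ≤ z * (Fl w).card - (Bu w).card)).card : ℝ) *
            Real.exp (t ^ 2 / (192 * B)) =
            ∑ w ∈ (K N).filter (fun w => t ≤ z * (Fl w).card - (Bu w).card),
              Real.exp (t ^ 2 / (192 * B)) := by rw [Finset.sum_const, nsmul_eq_mul]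
          _ ≤ ∑ w ∈ (K N).filter (fun w => t ≤ z * (Fl w).card - (Bu w).card),
              z ^ i * rho i (Fl w).card (Bu w).card := by
                refine Finset.sum_le_sum fun w hw => ?_
                rw [mem_filter] at hw
                obtain ⟨g1, g2, _⟩ := hfb w hw.1
                exact rho_big hz0 hz1 hB g1 g2 ht hw.2 hi1 hi2
          _ ≤ _ := Finset.sum_le_sum_of_subset_of_nonneg (Finset.filter_subset _ _)
              (fun w _ _ => mul_nonneg (by positivity) (rho_nonneg _ _ _))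
      have h4 := hΛ (N + i) (by omega) (by omega)
      have h5 : z ^ (N + i) * ((K (N + i)).card : ℝ) = z ^ N * (z ^ i * ((K (N + i)).card : ℝ)) := by
        rw [pow_add]; ring
      rw [h5] at h4
      have h6 : z ^ i * ((K (N + i)).card : ℝ) ≤ Λ * ((K N).card : ℝ) := by
        have : z ^ N * (z ^ i * ((K (N + i)).card : ℝ)) ≤ z ^ N * (Λ * ((K N).card : ℝ)) := by
          linarith
        exact le_of_mul_le_mul_left this hzN
      rw [hEi]
      have h7 := h3.trans h6
      rw [← le_div_iff₀ hE] at h7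
      refine h7.trans (le_of_eq ?_)
      ring
    · rw [Finset.not_nonempty_iff_eq_empty] at hne
      rw [hne]
      have h4 := hΛ N (by omega) (by omega)
      have h5 : 0 ≤ Λ * ((K N).card : ℝ) := by
        have h6 : 0 ≤ z ^ N * ((K N).card : ℝ) := by positivity
        have h7 : 0 ≤ z ^ N * (Λ * ((K N).card : ℝ)) := by linarith
        exact nonneg_of_mul_nonneg_right h7 hzN
      have h8 : 0 < Real.exp (-(t ^ 2 / (192 * B))) := Real.exp_pos _
      simp only [Finset.card_empty, Nat.cast_zero]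
      nlinarith
  -- lower tail
  have hL : (((K N).filter (fun w => z * (Fl w).card - (Bu w).card ≤ -t)).card : ℝ) ≤
      Λ * Real.exp (-(t ^ 2 / (192 * B))) * ((K N).card : ℝ) := by
    by_cases hne : ((K N).filter (fun w => z * (Fl w).card - (Bu w).card ≤ -t)).Nonempty
    · obtain ⟨w₀, hw₀⟩ := hne
      rw [mem_filter] at hw₀
      have hiN : i ≤ N := by
        have h1 := hfb w₀ hw₀.1
        have h2 : ((Bu w₀).card : ℝ) ≤ 8 * N := by exact_mod_cast h1.2.2
        have h3 : (0 : ℝ) ≤ z * (Fl w₀).card := by positivity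
        have h5 : (i : ℝ) ≤ N := by linarith [hw₀.2]
        exact_mod_cast h5
      obtain ⟨M, hM⟩ := Nat.exists_eq_add_of_le' hiN
      have h1 := count_dn T hinv M i (fun _ _ => 1)
      rw [← hM] at h1
      have h2 : ∑ w ∈ K N, rho i (Bu w).card (Fl w).card ≤ ((K M).card : ℝ) := by
        have h3 : ∑ w ∈ K N, rho i (Bu w).card (Fl w).card =
            ∑ w ∈ K N, (1 : ℝ) * (rho i (Bu w).card (Fl w).card * 1) := by simp
        rw [h3, h1]
        calc ∑ w ∈ K M, (if i ≤ (Fl w).card then (1 : ℝ) * 1 else 0) ≤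
            ∑ w ∈ K M, (1 : ℝ) := by
              refine Finset.sum_le_sum fun w _ => ?_
              split_ifs <;> norm_num
          _ = _ := by simp
      have h3 : (((K N).filter (fun w => z * (Fl w).card - (Bu w).card ≤ -t)).card : ℝ) *
          Real.exp (t ^ 2 / (192 * B)) ≤ z⁻¹ ^ i * ((K M).card : ℝ) := by
        refine le_trans ?_ (mul_le_mul_of_nonneg_left h2 (by positivity))
        rw [Finset.mul_sum]
        calc (((K N).filter (fun w => z * (Fl w).card - (Bu w).card ≤ -t)).card : ℝ) *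
            Real.exp (t ^ 2 / (192 * B)) =
            ∑ w ∈ (K N).filter (fun w => z * (Fl w).card - (Bu w).card ≤ -t),
              Real.exp (t ^ 2 / (192 * B)) := by rw [Finset.sum_const, nsmul_eq_mul]
          _ ≤ ∑ w ∈ (K N).filter (fun w => z * (Fl w).card - (Bu w).card ≤ -t),
              z⁻¹ ^ i * rho i (Bu w).card (Fl w).card := by
                refine Finset.sum_le_sum fun w hw => ?_
                rw [mem_filter] at hw
                obtain ⟨g1, g2, _⟩ := hfb w hw.1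
                exact rho_big' hz0 hz1 hB g1 g2 ht hw.2 hi1 hi2
          _ ≤ _ := Finset.sum_le_sum_of_subset_of_nonneg (Finset.filter_subset _ _)
              (fun w _ _ => mul_nonneg (by positivity) (rho_nonneg _ _ _))
      have h4 := hΛ M (by omega) (by omega)
      have h5 : z ^ N * (z⁻¹ ^ i * ((K M).card : ℝ)) = z ^ M * ((K M).card : ℝ) := by
        have h9 : z ^ i ≠ 0 := (pow_pos hz0 i).ne'
        rw [hM, pow_add, inv_pow]
        field_simp
      rw [← h5] at h4
      have h6 : z⁻¹ ^ i * ((K M).card : ℝ) ≤ Λ * ((K N).card : ℝ) := by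
        have : z ^ N * (z⁻¹ ^ i * ((K M).card : ℝ)) ≤ z ^ N * (Λ * ((K N).card : ℝ)) := by
          linarith
        exact le_of_mul_le_mul_left this hzN
      rw [hEi]
      have h7 := h3.trans h6
      rw [← le_div_iff₀ hE] at h7
      refine h7.trans (le_of_eq ?_)
      ring
    · rw [Finset.not_nonempty_iff_eq_empty] at hne
      rw [hne]
      have h4 := hΛ N (by omega) (by omega)
      have h5 : 0 ≤ Λ * ((K N).card : ℝ) := by
        have h6 : 0 ≤ z ^ N * ((K N).card : ℝ) := by positivity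
        have h7 : 0 ≤ z ^ N * (Λ * ((K N).card : ℝ)) := by linarith
        exact nonneg_of_mul_nonneg_right h7 hzN
      have h8 : 0 < Real.exp (-(t ^ 2 / (192 * B))) := Real.exp_pos _
      simp only [Finset.card_empty, Nat.cast_zero]
      nlinarith
  have hsub : (K N).filter (fun w => t ≤ |z * (Fl w).card - (Bu w).card|) ⊆
      (K N).filter (fun w => t ≤ z * (Fl w).card - (Bu w).card) ∪
      (K N).filter (fun w => z * (Fl w).card - (Bu w).card ≤ -t) := by
    intro w hw
    rw [mem_filter] at hw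
    rw [mem_union, mem_filter, mem_filter]
    rcases le_abs.1 hw.2 with h | h
    · exact Or.inl ⟨hw.1, h⟩
    · exact Or.inr ⟨hw.1, by linarith⟩
  have h1 : (((K N).filter (fun w => t ≤ |z * (Fl w).card - (Bu w).card|)).card : ℝ) ≤
      (((K N).filter (fun w => t ≤ z * (Fl w).card - (Bu w).card)).card : ℝ) +
      (((K N).filter (fun w => z * (Fl w).card - (Bu w).card ≤ -t)).card : ℝ) := by
    have := (Finset.card_le_card hsub).trans (Finset.card_union_le _ _)
    exact_mod_cast this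
  linarith



theorem core5 (hdif : StmDif) (k : ℕ) (z L c₁ C₁ c₂ M : ℝ) (P : Par k z L c₁ C₁ c₂ M 0) :
    ∃ (C r₀ : ℝ) (N₀ : ℕ), 0 ≤ C ∧ 0 < r₀ ∧ ∀ N ≥ N₀, ∀ r : ℝ, 0 < r → r ≤ r₀ →
      1 ≤ r ^ 2 * N → ∀ (α ι : Type) (K : ℕ → Finset α) (Fl Bu : α → Finset ι)
      (up dn : α → ι → α) (φ : α → ℝ), Tog K Fl Bu up dn →
      (∀ w ∈ K N, (Fl w).card ≤ 8 * N ∧ (Bu w).card ≤ 8 * N) →
      (∀ n, N ≤ 2 * n → n ≤ 2 * N → z ^ n * ((K n).card : ℝ) ≤
        Real.exp (L * (r ^ 2 * N)) * (z ^ N * ((K N).card : ℝ))) →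
      (∀ i ≤ k, z ^ (N + i) * (((K (N + i)).filter (fun w => ((Bu w).card : ℝ) < c₁ * N)).card : ℝ) ≤
        C₁ * (Real.exp (L * (r ^ 2 * N)) * Real.exp (-(c₂ * N))) * (z ^ N * ((K N).card : ℝ))) →
      (∀ i ≤ k, ∀ w ∈ K (N + i), |φ w| ≤ M) →
      (∀ j ≤ k, ∀ w ∈ K N, k ≤ (Fl w).card → |VV Fl up φ j w| ≤ M / N ^ j) →
      |D k (fun n => z ^ n * ∑ w ∈ K n, φ w) N| ≤ C * (r ^ k * (z ^ N * ((K N).card : ℝ))) := by
  obtain ⟨hz0, hz1, hL, hc₁, hC₁, hc₂, hM⟩ := P
  obtain ⟨Cd, hCd, hdif⟩ := hdif k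
  obtain ⟨Cm, hCm, hmom⟩ := mom5 k
  set τ : ℝ := 1536 * (L + 1) with hτ
  have hτ1 : 1536 ≤ τ := by rw [hτ]; nlinarith
  set C₀ : ℝ := 2 / c₁ + 1 with hC₀
  have hC₀1 : 1 ≤ C₀ := by
    have h1 : 0 ≤ 2 / c₁ := by positivity
    rw [hC₀]; linarith
  have hC₀a : 2 ≤ C₀ * c₁ := by
    rw [hC₀]
    have : (2 / c₁ + 1) * c₁ = 2 + c₁ := by field_simp
    rw [this]; linarith
  have hC₀b : 1 ≤ C₀ ^ 2 * c₁ := by
    have h1 : 1 ≤ C₀ * c₁ := by linarith
    have h2 : C₀ ^ 2 * c₁ = C₀ * (C₀ * c₁) := by ring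
    rw [h2]
    exact one_le_mul_of_one_le_of_one_le hC₀1 h1
  set c₃ : ℝ := 1 / (4 * C₀ ^ 2 * 1536) with hc₃
  have hc₃0 : 0 < c₃ := by rw [hc₃]; positivity
  obtain ⟨r₀, N₀, hr₀, hN₀⟩ := num5 k (L := L) (c₁ := c₁) (C₁ := C₁) (c₂ := c₂) (c₃ := c₃) (M := M)
    (C₀ := C₀) hL hc₁ hC₁ hc₂ hc₃0 hM (by linarith)
  set A₀ : ℝ := 2 ^ k * (Cd * M * C₀ ^ k) * 2 ^ k with hA₀
  have hA₀0 : 0 ≤ A₀ := by positivity
  refine ⟨A₀ * (1 + Cm * τ ^ k) + 3, r₀, N₀, by positivity, hr₀, ?_⟩
  intro N hN r hr hrr hlog α ι K Fl Bu up dn φ T hcard hcnt hfew hφ hV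
  obtain ⟨n1, n2, n3, n4, n6, n7, n8, n9, n10⟩ := hN₀ N hN r hr hrr hlog
  clear hN₀ hrr
  have hN3 : (3 : ℝ) ≤ N := by exact_mod_cast n1
  have hNp : (0 : ℝ) < N := by linarith
  set l := r ^ 2 * (N : ℝ) with hl
  have hek : 1 / (N : ℝ) ^ k ≤ r ^ k := by
    rw [← one_div_pow]
    exact pow_le_pow_left₀ (by positivity) n9 k
  set q : ℝ := z ^ N * ((K N).card : ℝ) with hq
  have hq0 : 0 ≤ q := by positivity
  have hzN : 0 < z ^ N := by positivity
  set B : ℕ := 8 * N with hB
  have hBr : (B : ℝ) = 8 * N := by rw [hB]; push_cast; ring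
  have hK0 : (0 : ℝ) ≤ ((K N).card : ℝ) := Nat.cast_nonneg _
  -- the tail
  have htail : ∀ t : ℝ, 16 ≤ t → t ≤ 4 * N →
      (((K N).filter (fun w => t ≤ |z * (Fl w).card - (Bu w).card|)).card : ℝ) ≤
      2 * Real.exp (L * l) * Real.exp (-(t ^ 2 / (1536 * N))) * ((K N).card : ℝ) := by
    intro t ht htN
    have h1 := tail5 T hz0 hz1 (N := N) (B := B) (by omega)
      (fun w hw => ⟨(hcard w hw).1, (hcard w hw).2, (hcard w hw).2⟩)
      (Λ := Real.exp (L * l)) hcnt (t := t) ht htN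
    have e1 : t ^ 2 / (192 * (B : ℝ)) = t ^ 2 / (1536 * N) := by
      rw [hBr]
      congr 1
      ring
    rw [e1] at h1
    exact h1
  have hC0p : 0 < C₀ := by linarith
  have htN4 : (N : ℝ) / (2 * C₀) ≤ 4 * N := by
    rw [div_le_iff₀ (by positivity)]
    nlinarith
  set S5 : Finset α := (K N).filter (fun w => |z * ((Fl w).card : ℝ) - (Bu w).card| < N / (2 * C₀)) with hS5
  have htm : ∀ m : ℕ, 1 ≤ m → ((S5.filter (fun w => m * (τ * (r * N)) ≤
      |z * ((Fl w).card : ℝ) - (Bu w).card|)).card : ℝ) ≤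
      2 * Real.exp (-(m : ℝ)) * ((K N).card : ℝ) := by
    intro m hm
    by_cases hmN : m * (τ * (r * N)) ≤ N / (2 * C₀)
    swap
    · have hemp : S5.filter (fun w => m * (τ * (r * N)) ≤
          |z * ((Fl w).card : ℝ) - (Bu w).card|) = ∅ := by
        rw [Finset.filter_eq_empty_iff]
        intro w hw hc
        rw [hS5, mem_filter] at hw
        linarith [hw.2]
      rw [hemp]
      simp only [Finset.card_empty, Nat.cast_zero]
      positivity
    have hm1 : (1 : ℝ) ≤ m := by exact_mod_cast hm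
    have h0 : 16 ≤ m * (τ * (r * N)) := by
      have h1 : 1536 * 1 ≤ τ * (r * N) := mul_le_mul hτ1 n10 (by norm_num) (by linarith)
      nlinarith
    have hsub5 : S5.filter (fun w => m * (τ * (r * N)) ≤
          |z * ((Fl w).card : ℝ) - (Bu w).card|) ⊆ (K N).filter (fun w => m * (τ * (r * N)) ≤
          |z * ((Fl w).card : ℝ) - (Bu w).card|) :=
      Finset.filter_subset_filter _ (Finset.filter_subset _ _)
    refine le_trans (by exact_mod_cast Finset.card_le_card hsub5)
      ((htail _ h0 (hmN.trans htN4)).trans ?_)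
    apply mul_le_mul_of_nonneg_right _ hK0
    rw [mul_assoc, ← Real.exp_add]
    apply mul_le_mul_of_nonneg_left _ (by norm_num)
    apply Real.exp_le_exp.2
    have e1 : (m * (τ * (r * N))) ^ 2 / (1536 * (N : ℝ)) = m ^ 2 * (τ ^ 2 / 1536 * l) := by
      rw [hl]
      field_simp
    rw [e1]
    have e2 : (L + 1) ≤ τ ^ 2 / 1536 := by
      rw [le_div_iff₀ (by norm_num)]
      have e4 : (L + 1) * 1536 = τ := by rw [hτ]; ring
      rw [e4]
      nlinarith
    have e3 : (L + 1) * l ≤ τ ^ 2 / 1536 * l := mul_le_mul_of_nonneg_right e2 (by linarith)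
    have e4 : (m : ℝ) ^ 2 * ((L + 1) * l) ≤ m ^ 2 * (τ ^ 2 / 1536 * l) :=
      mul_le_mul_of_nonneg_left e3 (by positivity)
    have e5 : (m : ℝ) ≤ m ^ 2 := by nlinarith
    have e6 : L * l ≤ m ^ 2 * (L * l) := by
      have : 0 ≤ L * l := by positivity
      nlinarith
    have e7 : (m : ℝ) ≤ m ^ 2 * l := by nlinarith
    nlinarith
  have hmom1 := hmom α S5 (fun w => z * ((Fl w).card : ℝ) - (Bu w).card) (τ * (r * N))
    ((K N).card : ℝ) (by positivity) (by exact_mod_cast Finset.card_le_card (Finset.filter_subset _ _)) htm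
  clear htm
  have hfew0 : (((K N).filter (fun w => ((Bu w).card : ℝ) < c₁ * N)).card : ℝ) ≤
      C₁ * (Real.exp (L * l) * Real.exp (-(c₂ * N))) * ((K N).card : ℝ) := by
    have h1 := hfew 0 (Nat.zero_le k)
    rw [Nat.add_zero] at h1
    have h2 : z ^ N * (((K N).filter (fun w => ((Bu w).card : ℝ) < c₁ * N)).card : ℝ) ≤
        z ^ N * (C₁ * (Real.exp (L * l) * Real.exp (-(c₂ * N))) * ((K N).card : ℝ)) := by
      refine h1.trans (le_of_eq ?_)
      rw [hq]; ring
    exact le_of_mul_le_mul_left h2 hzN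
  -- the bound of the terms
  set M2 : ℝ := 16 ^ k * M * N ^ k with hM2
  have hM20 : 0 ≤ M2 := by positivity
  have hterm : ∀ w ∈ K N, |D k (fun i => z ^ i * rho i (Fl w).card (Bu w).card *
      (UU Fl up)^[i] φ w) 0| ≤ A₀ * (r ^ k + (if |z * ((Fl w).card : ℝ) - (Bu w).card| < N / (2 * C₀)
        then |z * ((Fl w).card : ℝ) - (Bu w).card| ^ k else 0) / N ^ k) +
      ((if N / (2 * C₀) ≤ |z * (Fl w).card - (Bu w).card| then M2 else 0) +
        (if ((Bu w).card : ℝ) < c₁ * N then M2 else 0)) := by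
    intro w hw
    have hbad : |D k (fun i => z ^ i * rho i (Fl w).card (Bu w).card *
        (UU Fl up)^[i] φ w) 0| ≤ M2 := by
      have h1 : ∀ i, 0 ≤ i → i ≤ 0 + k → |z ^ i * rho i (Fl w).card (Bu w).card *
          (UU Fl up)^[i] φ w| ≤ 8 ^ k * M * N ^ k := by
        intro i _ hi
        have g1 : |(UU Fl up)^[i] φ w| ≤ M :=
          UI_bound T (by positivity) i φ (hφ i (by omega)) w hw
        have g2 : rho i (Fl w).card (Bu w).card ≤ (B : ℝ) ^ i :=
          rho_le _ _ _ _ (by have := (hcard w hw).1; omega) (by omega)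
        have g3 : (B : ℝ) ^ i ≤ (B : ℝ) ^ k :=
          pow_le_pow_right₀ (by rw [hBr]; linarith) (by omega)
        have g4 : z ^ i ≤ 1 := pow_le_one₀ hz0.le hz1
        have g5 : 0 ≤ rho i (Fl w).card (Bu w).card := rho_nonneg _ _ _
        rw [abs_mul, abs_of_nonneg (mul_nonneg (pow_nonneg hz0.le i) g5)]
        calc z ^ i * rho i (Fl w).card (Bu w).card * |(UU Fl up)^[i] φ w| ≤
            1 * (B : ℝ) ^ k * M := by
              gcongr
              exact g2.trans g3
          _ = 8 ^ k * M * N ^ k := by rw [hBr, mul_pow]; ring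
      refine (D_bound k 0 h1).trans (le_of_eq ?_)
      rw [hM2]
      have : (16 : ℝ) ^ k = 2 ^ k * 8 ^ k := by rw [← mul_pow]; norm_num
      rw [this]
      ring
    have hA : 0 ≤ A₀ * (r ^ k + (if |z * ((Fl w).card : ℝ) - (Bu w).card| < N / (2 * C₀)
        then |z * ((Fl w).card : ℝ) - (Bu w).card| ^ k else 0) / N ^ k) := by
      have : 0 ≤ r ^ k := by positivity
      have h2 : 0 ≤ (if |z * ((Fl w).card : ℝ) - (Bu w).card| < N / (2 * C₀)
        then |z * ((Fl w).card : ℝ) - (Bu w).card| ^ k else 0) / (N : ℝ) ^ k := by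
        apply div_nonneg _ (by positivity)
        split_ifs <;> positivity
      exact mul_nonneg hA₀0 (by linarith)
    by_cases hX : N / (2 * C₀) ≤ |z * (Fl w).card - (Bu w).card|
    · rw [if_pos hX]
      have hz : 0 ≤ (if ((Bu w).card : ℝ) < c₁ * N then M2 else 0) := by
        split_ifs <;> linarith
      linarith
    · by_cases hb : ((Bu w).card : ℝ) < c₁ * N
      · rw [if_pos hb, if_neg hX]
        linarith
      · rw [if_neg hX, if_neg hb, if_pos (not_le.1 hX)]
        push Not at hX hb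
        have hb0 : (0 : ℝ) ≤ (Bu w).card := Nat.cast_nonneg _
        have hf0 : (0 : ℝ) ≤ (Fl w).card := Nat.cast_nonneg _
        set X : ℝ := z * ((Fl w).card : ℝ) - (Bu w).card with hXd
        have hX0 : 0 ≤ |X| := abs_nonneg _
        set ε : ℝ := C₀ * (r + |X| / N) with hε
        have hXN : 0 ≤ |X| / N := by positivity
        have hε0 : 0 < ε := by positivity
        have hε1 : ε ≤ 1 := by
          have h1 : C₀ * (|X| / N) ≤ 1 / 2 := by
            rw [lt_div_iff₀ (by positivity)] at hX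
            rw [← mul_div_assoc, div_le_iff₀ hNp]
            linarith
          rw [hε]
          linarith
        have hεr : r ≤ ε := by
          rw [hε]
          have h1 : r ≤ C₀ * r := le_mul_of_one_le_left hr.le hC₀1
          have h2 : 0 ≤ C₀ * (|X| / N) := by positivity
          linarith
        have hεN : ε * (c₁ * N) ≤ ε * ((Bu w).card + 1) :=
          mul_le_mul_of_nonneg_left (by linarith) hε0.le
        have g1 : |X| ≤ ε * ((Bu w).card + 1) := by
          refine le_trans ?_ hεN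
          have e1 : ε * (c₁ * N) = (C₀ * c₁) * (r * N) + (C₀ * c₁) * |X| := by
            rw [hε]; field_simp
          rw [e1]
          have e2 : 0 ≤ (C₀ * c₁) * (r * N) := by positivity
          have e3 : 2 * |X| ≤ (C₀ * c₁) * |X| := mul_le_mul_of_nonneg_right hC₀a hX0
          linarith
        have g2 : 1 ≤ ε ^ 2 * ((Bu w).card + 1) := by
          have e1 : (C₀ * r) ^ 2 * (c₁ * N) = (C₀ ^ 2 * c₁) * l := by
            rw [hl]; ring
          have e2 : 1 ≤ (C₀ * r) ^ 2 * (c₁ * N) := by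
            rw [e1]
            exact one_le_mul_of_one_le_of_one_le hC₀b hlog
          have e3 : (C₀ * r) ^ 2 ≤ ε ^ 2 := by
            apply pow_le_pow_left₀ (by positivity)
            rw [hε]
            have : 0 ≤ C₀ * (|X| / N) := by positivity
            linarith
          have e4 : (C₀ * r) ^ 2 * (c₁ * N) ≤ ε ^ 2 * ((Bu w).card + 1) := by
            apply mul_le_mul e3 (by linarith) (by positivity) (by positivity)
          linarith
        have g3 : k ≤ (Fl w).card := by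
          have h1 := (abs_lt.1 hX).1
          have h2 : z * (Fl w).card ≤ (Fl w).card := mul_le_of_le_one_left hf0 hz1
          have h4 : (N : ℝ) / (2 * C₀) ≤ c₁ * N / 2 := by
            rw [div_le_iff₀ (by positivity)]
            have : 2 * (N : ℝ) ≤ C₀ * c₁ * N := mul_le_mul_of_nonneg_right hC₀a hNp.le
            nlinarith
          have h3 : (k : ℝ) ≤ (Fl w).card := by linarith
          exact_mod_cast h3
        have g4 := prodD k (fun i => z ^ i * rho i (Fl w).card (Bu w).card)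
          (fun i => (UU Fl up)^[i] φ w) Cd M ε hCd hM hε0.le
          (fun a l' hal => hdif z _ _ ε hz0 hz1 hε0 hε1 g1 g2 a (by omega) l' (by omega))
          (fun j hj => by
            rw [D_UI]
            refine (hV j hj w hw g3).trans ?_
            rw [div_eq_mul_inv]
            apply mul_le_mul_of_nonneg_left _ hM
            rw [← inv_pow]
            apply pow_le_pow_left₀ (by positivity)
            rw [← one_div]
            exact n9.trans hεr)
        refine g4.trans ?_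
        have g5 : ε ^ k ≤ C₀ ^ k * (2 ^ k * (r ^ k + |X| ^ k / N ^ k)) := by
          rw [hε, mul_pow]
          apply mul_le_mul_of_nonneg_left _ (by positivity)
          rw [← div_pow]
          have h1 : r + |X| / N ≤ 2 * max r (|X| / N) := by
            have := le_max_left r (|X| / N)
            have := le_max_right r (|X| / N)
            linarith
          have h2 : (r + |X| / N) ^ k ≤ (2 * max r (|X| / N)) ^ k :=
            pow_le_pow_left₀ (by positivity) h1 k
          refine h2.trans ?_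
          rw [mul_pow]
          apply mul_le_mul_of_nonneg_left _ (by positivity)
          rcases max_cases r (|X| / N) with h | h
          · rw [h.1]
            have : 0 ≤ (|X| / N) ^ k := by positivity
            linarith
          · rw [h.1]
            have : 0 ≤ r ^ k := by positivity
            linarith
        calc _ ≤ 2 ^ k * (Cd * M * (C₀ ^ k * (2 ^ k * (r ^ k + |X| ^ k / N ^ k)))) := by
              refine le_trans (le_of_eq ?_) (mul_le_mul_of_nonneg_left
                (mul_le_mul_of_nonneg_left g5 (show 0 ≤ Cd * M by positivity))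
                (show (0 : ℝ) ≤ 2 ^ k by positivity))
              ring
          _ = _ := by rw [hA₀]; ring
  -- the remainder
  have hrem : |D k (fun i => z ^ (N + i) * ∑ w ∈ (K (N + i)).filter (fun w => (Bu w).card < i), φ w) 0| ≤
      2 ^ k * (M * (C₁ * (Real.exp (L * l) * Real.exp (-(c₂ * N))) * q)) := by
    apply D_bound
    intro i _ hi
    have hzi : 0 ≤ z ^ (N + i) := pow_nonneg hz0.le _
    have h1 : |∑ w ∈ (K (N + i)).filter (fun w => (Bu w).card < i), φ w| ≤
        (((K (N + i)).filter (fun w => ((Bu w).card : ℝ) < c₁ * N)).card : ℝ) * M := by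
      calc |∑ w ∈ (K (N + i)).filter (fun w => (Bu w).card < i), φ w| ≤
          ∑ w ∈ (K (N + i)).filter (fun w => (Bu w).card < i), |φ w| := Finset.abs_sum_le_sum_abs _ _
        _ ≤ ∑ w ∈ (K (N + i)).filter (fun w => (Bu w).card < i), M :=
            Finset.sum_le_sum fun w hw => hφ i (by omega) w (mem_filter.1 hw).1
        _ = (((K (N + i)).filter (fun w => (Bu w).card < i)).card : ℝ) * M := by
            rw [Finset.sum_const, nsmul_eq_mul]
        _ ≤ (((K (N + i)).filter (fun w => ((Bu w).card : ℝ) < c₁ * N)).card : ℝ) * M := by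
            apply mul_le_mul_of_nonneg_right _ hM
            have h2 : (K (N + i)).filter (fun w => (Bu w).card < i) ⊆
                (K (N + i)).filter (fun w => ((Bu w).card : ℝ) < c₁ * N) := by
              intro w hw
              rw [mem_filter] at hw ⊢
              refine ⟨hw.1, ?_⟩
              have h3 : ((Bu w).card : ℝ) < i := by exact_mod_cast hw.2
              have h4 : (i : ℝ) ≤ k := by
                have : i ≤ k := by omega
                exact_mod_cast this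
              have h5 : (0 : ℝ) ≤ k := Nat.cast_nonneg _
              linarith
            exact_mod_cast Finset.card_le_card h2
    rw [abs_mul, abs_of_nonneg hzi]
    calc z ^ (N + i) * |∑ w ∈ (K (N + i)).filter (fun w => (Bu w).card < i), φ w| ≤
        z ^ (N + i) * ((((K (N + i)).filter (fun w => ((Bu w).card : ℝ) < c₁ * N)).card : ℝ) *
          M) := mul_le_mul_of_nonneg_left h1 hzi
      _ = M * (z ^ (N + i) *
          (((K (N + i)).filter (fun w => ((Bu w).card : ℝ) < c₁ * N)).card : ℝ)) := by ring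
      _ ≤ _ := mul_le_mul_of_nonneg_left (hfew i (by omega)) hM
  -- the numerical bounds
  have hNk : (0 : ℝ) < (N : ℝ) ^ k := by positivity
  have hpow2 : (N : ℝ) ^ (2 * k) = (N : ℝ) ^ k * (N : ℝ) ^ k := by
    rw [← pow_add]
    congr 1
    omega
  have x1 : M2 * (2 * Real.exp (L * l) * Real.exp (-(c₃ * N))) ≤ r ^ k := by
    refine le_trans ?_ hek
    rw [le_div_iff₀ hNk]
    refine le_trans (le_of_eq ?_) n6
    rw [hM2, hpow2]
    ring
  have x2 : M2 * (C₁ * (Real.exp (L * l) * Real.exp (-(c₂ * N)))) ≤ r ^ k := by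
    refine le_trans ?_ hek
    rw [le_div_iff₀ hNk]
    refine le_trans (le_of_eq ?_) n7
    rw [hM2, hpow2]
    ring
  have x4 : 2 ^ k * (M * (C₁ * (Real.exp (L * l) * Real.exp (-(c₂ * N))) * q)) ≤
      r ^ k * q := by
    have y1 : (2 : ℝ) ^ k * M ≤ M2 := by
      rw [hM2]
      have y2 : (2 : ℝ) ^ k ≤ 16 ^ k := pow_le_pow_left₀ (by norm_num) (by norm_num) k
      have y3 : (1 : ℝ) ≤ N ^ k := one_le_pow₀ (by linarith)
      calc (2 : ℝ) ^ k * M ≤ 16 ^ k * M := by gcongr
        _ = 16 ^ k * M * 1 := by ring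
        _ ≤ 16 ^ k * M * N ^ k := by gcongr
    calc 2 ^ k * (M * (C₁ * (Real.exp (L * l) * Real.exp (-(c₂ * N))) * q)) =
        (2 ^ k * M) * (C₁ * (Real.exp (L * l) * Real.exp (-(c₂ * N)))) * q := by ring
      _ ≤ M2 * (C₁ * (Real.exp (L * l) * Real.exp (-(c₂ * N)))) * q := by gcongr
      _ ≤ r ^ k * q := mul_le_mul_of_nonneg_right x2 hq0
  have hbig : (((K N).filter (fun w => N / (2 * C₀) ≤ |z * (Fl w).card - (Bu w).card|)).card : ℝ) ≤
      2 * Real.exp (L * l) * Real.exp (-(c₃ * N)) * ((K N).card : ℝ) := by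
    have h1 := htail _ n3 htN4
    have e1 : ((N : ℝ) / (2 * C₀)) ^ 2 / (1536 * N) = c₃ * N := by
      have : C₀ ≠ 0 := by positivity
      rw [hc₃]
      field_simp
      norm_num
    rw [e1] at h1
    exact h1
  -- the sum
  have hsum : ∑ w ∈ K N, |D k (fun i => z ^ i * rho i (Fl w).card (Bu w).card *
      (UU Fl up)^[i] φ w) 0| ≤ A₀ * (1 + Cm * τ ^ k) * (r ^ k * ((K N).card : ℝ)) +
      (r ^ k * ((K N).card : ℝ) + r ^ k * ((K N).card : ℝ)) := by
    refine (Finset.sum_le_sum hterm).trans ?_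
    rw [Finset.sum_add_distrib, Finset.sum_add_distrib, ← Finset.mul_sum, ← Finset.sum_filter,
      ← Finset.sum_filter, Finset.sum_const, Finset.sum_const, nsmul_eq_mul, nsmul_eq_mul,
      Finset.sum_add_distrib, Finset.sum_const, nsmul_eq_mul, ← Finset.sum_div, ← Finset.sum_filter,
      ← hS5]
    have s1 : (((K N).filter (fun w => N / (2 * C₀) ≤ |z * (Fl w).card - (Bu w).card|)).card : ℝ) * M2 ≤
        r ^ k * ((K N).card : ℝ) := by
      calc _ ≤ 2 * Real.exp (L * l) * Real.exp (-(c₃ * N)) * ((K N).card : ℝ) * M2 :=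
            mul_le_mul_of_nonneg_right hbig hM20
        _ = M2 * (2 * Real.exp (L * l) * Real.exp (-(c₃ * N))) * ((K N).card : ℝ) := by ring
        _ ≤ _ := mul_le_mul_of_nonneg_right x1 hK0
    have s2 : (((K N).filter (fun w => ((Bu w).card : ℝ) < c₁ * N)).card : ℝ) * M2 ≤
        r ^ k * ((K N).card : ℝ) := by
      calc _ ≤ C₁ * (Real.exp (L * l) * Real.exp (-(c₂ * N))) * ((K N).card : ℝ) * M2 :=
            mul_le_mul_of_nonneg_right hfew0 hM20
        _ = M2 * (C₁ * (Real.exp (L * l) * Real.exp (-(c₂ * N)))) * ((K N).card : ℝ) := by ring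
        _ ≤ _ := mul_le_mul_of_nonneg_right x2 hK0
    have s3 : A₀ * (((K N).card : ℝ) * r ^ k +
        (∑ w ∈ S5, |z * ((Fl w).card : ℝ) - (Bu w).card| ^ k) / N ^ k) ≤
        A₀ * (1 + Cm * τ ^ k) * (r ^ k * ((K N).card : ℝ)) := by
      rw [mul_assoc A₀ (1 + Cm * τ ^ k)]
      apply mul_le_mul_of_nonneg_left _ hA₀0
      have h1 : (∑ w ∈ S5, |z * ((Fl w).card : ℝ) - (Bu w).card| ^ k) / N ^ k ≤
          Cm * τ ^ k * (r ^ k * ((K N).card : ℝ)) := by
        rw [div_le_iff₀ hNk]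
        refine hmom1.trans (le_of_eq ?_)
        rw [mul_pow, mul_pow]
        ring
      linarith
    linarith
  rw [D_main T z N k φ]
  have hek0 : 0 ≤ r ^ k := by positivity
  calc |z ^ N * ∑ w ∈ K N, D k (fun i => z ^ i * rho i (Fl w).card (Bu w).card *
        (UU Fl up)^[i] φ w) 0 +
      D k (fun i => z ^ (N + i) * ∑ w ∈ (K (N + i)).filter (fun w => (Bu w).card < i), φ w) 0| ≤
      |z ^ N * ∑ w ∈ K N, D k (fun i => z ^ i * rho i (Fl w).card (Bu w).card *
        (UU Fl up)^[i] φ w) 0| +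
      |D k (fun i => z ^ (N + i) * ∑ w ∈ (K (N + i)).filter (fun w => (Bu w).card < i), φ w) 0| :=
        abs_add_le _ _
    _ ≤ z ^ N * (A₀ * (1 + Cm * τ ^ k) * (r ^ k * ((K N).card : ℝ)) +
      (r ^ k * ((K N).card : ℝ) + r ^ k * ((K N).card : ℝ))) + r ^ k * q := by
        apply add_le_add _ (hrem.trans x4)
        rw [abs_mul, abs_of_pos hzN]
        apply mul_le_mul_of_nonneg_left _ hzN.le
        exact (Finset.abs_sum_le_sum_abs _ _).trans hsum
    _ = _ := by rw [hq]; ring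

end

end Pool.Agent.T6.H92.TK
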