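import Pool.Agent.T6.H92.TG.Core0
import Pool.Agent.H246KN.Defs

/-!
# Lattice knots: insertions and deletions of bumps at separated plaquettes

Definitions and statements of the modules.  A plaquette is given by the finite set of its four
vertices.  Words are those of `Pool.Agent.H246KN.Defs` (the last letter is the first step): the
vertices of the closed word `w` of length `n` are `pos (w.drop j)`, `0 ≤ j ≤ n`, the first and the
last one are `0`, the others are distinct.
-/

set_option autoImplicit false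

namespace Pool.Agent.T6.H92.TK

open Finset KN Pool.Agent.T6.H92.TG
open scoped Classical

noncomputable section

/-- the vertices of the free plaquette `(i, d)` -/
def fcell (w : List Dir) (i : ℕ) (d : Dir) : Finset Z3 :=
  {pos (w.drop (i + 1)), pos (w.drop (i + 1)) + vec (w.getD i .xp), pos (w.drop (i + 1)) + vec d,
    pos (w.drop (i + 1)) + vec d + vec (w.getD i .xp)}

/-- the vertices of the bump number `j` -/
def bcell (w : List Dir) (j : ℕ) : Finset Z3 :=
  {pos (w.drop j), pos (w.drop (j + 1)), pos (w.drop (j + 2)), pos (w.drop (j + 3))}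

/-- the plaquette is free -/
def IsF (w : List Dir) (c : Finset Z3) : Prop := ∃ q : ℕ × Dir, q ∈ sites w ∧ fcell w q.1 q.2 = c

/-- the plaquette is the one of a bump -/
def IsB (w : List Dir) (c : Finset Z3) : Prop := ∃ j : ℕ, j ∈ bumps w ∧ bcell w j = c

/-- the free plaquettes in `R` -/
def FL (R : Finset (Finset Z3)) (w : List Dir) : Finset (Finset Z3) := R.filter (IsF w)

/-- the bumps in `R` (the squares of length four are not counted) -/
def BU (R : Finset (Finset Z3)) (w : List Dir) : Finset (Finset Z3) :=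
  if w.length ≤ 4 then ∅ else R.filter (IsB w)

/-- insertion at the plaquette `c` -/
def UP (w : List Dir) (c : Finset Z3) : List Dir :=
  if h : IsF w c then ins w h.choose.1 h.choose.2 else w

/-- deletion at the plaquette `c` -/
def DN (w : List Dir) (c : Finset Z3) : List Dir := if h : IsB w c then rem w h.choose else w

/-- the plaquettes in `R` are pairwise disjoint -/
def Sep (R : Finset (Finset Z3)) : Prop := ∀ c ∈ R, ∀ d ∈ R, c ≠ d → Disjoint c d

/-- KLOC: local facts -/
def StmLoc : Prop := ∀ (w : List Dir) (i : ℕ) (d : Dir), SAP w → (i, d) ∈ sites w →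
  ¬ IsB w (fcell w i d) ∧ i ∈ bumps (ins w i d) ∧ bcell (ins w i d) i = fcell w i d ∧
  ¬ IsF (ins w i d) (fcell w i d) ∧
  ∀ c : Finset Z3, Disjoint (fcell w i d) c →
    (IsF (ins w i d) c ↔ IsF w c) ∧ (IsB (ins w i d) c ↔ IsB w c)

/-- KUNI: uniqueness of the position -/
def StmUni : Prop := (∀ (w : List Dir), SAP w → ∀ p ∈ sites w, ∀ q ∈ sites w,
    fcell w p.1 p.2 = fcell w q.1 q.2 → p = q) ∧
  ∀ (w : List Dir), SAP w → 5 ≤ w.length → ∀ i ∈ bumps w, ∀ j ∈ bumps w,
    bcell w i = bcell w j → i = j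

/-- KSAP: insertions and deletions keep closed self-avoiding words -/
def StmSap : Prop := (∀ (w : List Dir) (i : ℕ) (d : Dir), SAP w → (i, d) ∈ sites w →
    SAP (ins w i d) ∧ (ins w i d).length = w.length + 2 ∧ rem (ins w i d) i = w) ∧
  ∀ (w : List Dir) (j : ℕ), SAP w → 5 ≤ w.length → j ∈ bumps w →
    SAP (rem w j) ∧ (rem w j).length + 2 = w.length ∧ (j, w.getD (j + 2) .xp) ∈ sites (rem w j) ∧
      ins (rem w j) j (w.getD (j + 2) .xp) = w

/-- KTOG: the system -/
def StmTog : Prop := ∀ Q : List Dir → Prop, Inv Q → ∀ R : Finset (Finset Z3), Sep R →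
  Tog (fun n => K Q (2 * n)) (FL R) (BU R) UP DN

/-- KTOG3: the system from the local facts -/
def StmTog' : Prop := StmLoc → StmUni → StmSap → StmTog

/-- SELG: random sparse families.  `nb c` are the elements which touch `c`; `Q` is a random subset
of `S`. -/
def StmSelG : Prop := ∀ Δ : ℕ, ∃ C c₁ c₂ : ℝ, 0 < C ∧ 0 < c₁ ∧ 0 < c₂ ∧
  ∀ (ι : Type) (nb : ι → Finset ι) (S T : Finset ι), (∀ c, c ∈ nb c) → (∀ c, (nb c).card ≤ Δ) →
    (∀ c d, d ∈ nb c ↔ c ∈ nb d) → T ⊆ S →
    ((S.powerset.filter (fun Q => ((T.filter (fun c => Q ∩ nb c = {c})).card : ℝ) <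
      c₁ * T.card)).card : ℝ) ≤ C * Real.exp (-(c₂ * T.card)) * 2 ^ S.card

/-- KSEL: there is a separated set of plaquettes with many bumps for most polygons -/
def StmSel : Prop := ∀ k : ℕ, ∃ C c c₁ : ℝ, 0 < C ∧ 0 < c ∧ 0 < c₁ ∧
  ∀ (Q : List Dir → Prop) (n : ℕ), 3 ≤ n → ∃ R : Finset (Finset Z3), Sep R ∧ ∀ i ≤ k,
    (((K Q (2 * (n + i))).filter (fun w => ((BU R w).card : ℝ) < c₁ * n)).card : ℝ) ≤
      (((K Q (2 * (n + i))).filter (fun w => 10 ^ 7 * bu w ≤ 2 * (n + i))).card : ℝ) +
      C * Real.exp (-(c * n)) * ((K Q (2 * (n + i))).card : ℝ)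

/-- KSEL from SELG and the uniqueness -/
def StmSel' : Prop := StmSelG → StmUni → StmSel

end

end Pool.Agent.T6.H92.TK
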