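import Pool.Agent.T6.H92.TG.Defs

/-!
# Interpolation of iterated differences: the statement
-/

set_option autoImplicit false

namespace Pool.Agent.T6.H92.TK

open Finset Filter Topology Pool.Agent.T6.H92.TG

/-- KLK: if `D k u` is of order `r ^ k` for all `k` and the first difference is of smaller order then
all differences are of smaller order -/
def StmLK : Prop := ∀ u r : ℕ → ℝ, (∀ᶠ N : ℕ in atTop, 0 < u N) → (∀ᶠ N : ℕ in atTop, 0 < r N) →
  Tendsto r atTop (𝓝 0) →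
  (∀ᶠ N : ℕ in atTop, ∀ i : ℕ, i * r N ≤ 1 → r (N + i) ≤ 2 * r N) →
  (∀ k : ℕ, ∃ C : ℝ, ∀ᶠ N : ℕ in atTop, |D k u N| ≤ C * (r N ^ k * u N)) →
  Tendsto (fun N : ℕ => (u (N + 1) / u N - 1) / r N) atTop (𝓝 0) →
  ∀ k : ℕ, 1 ≤ k → Tendsto (fun N : ℕ => D k u N / (r N ^ k * u N)) atTop (𝓝 0)

end Pool.Agent.T6.H92.TK
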