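import Pool.Agent.T6.H92.TK.Cnt

/-!
# Lattice knots: numbers of polygons in classes with polynomial bounds
-/

set_option autoImplicit false

namespace Pool.Agent.T6.H92.TK

open Finset KN Filter Topology ModKCNT
open TH966.KS (yq yq_nonneg)
open scoped Classical

theorem pol : StmPol := by
  intro Q hQ hne b hb
  obtain ⟨h1, -, -⟩ := gr_bounds Q hQ hne
  have hμ : 0 < gr Q := by linarith
  have hup : ∀ᶠ n : ℕ in atTop, yq Q n ≤ (2 * n : ℝ) ^ b := by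
    filter_upwards [hb] with n hn
    unfold yq
    rw [div_le_iff₀ (pow_pos hμ _)]
    exact hn.2
  obtain ⟨C, hC0, hC⟩ := u_le Q hμ (fun n => (2 * n : ℝ) ^ b) hup
  refine ⟨2 * b + 1, by positivity, ?_⟩
  have hbig : ∀ᶠ N : ℕ in atTop, (C + 40) * 40 ^ b ≤ (N : ℝ) :=
    tendsto_natCast_atTop_atTop.eventually_ge_atTop _
  filter_upwards [hb, eventually_ge_atTop 1, hbig] with N hbN hN hbigN
  have hN1 : (1 : ℝ) ≤ N := by exact_mod_cast hN
  have hN0 : (0 : ℝ) < N := by linarith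
  have hg : 0 < gr Q ^ (2 * N) := pow_pos hμ _
  have h2N : (0 : ℝ) < (2 * N : ℝ) ^ b := by positivity
  have hp : 0 < pq Q (2 * N) := by
    by_contra hcon
    push Not at hcon
    have := mul_nonpos_of_nonneg_of_nonpos h2N.le hcon
    linarith [hbN.1]
  have hy : 0 < yq Q N := div_pos hp hg
  have hlow : 1 ≤ (2 * N : ℝ) ^ b * yq Q N := by
    unfold yq
    rw [← mul_div_assoc, le_div_iff₀ hg, one_mul]
    exact hbN.1
  refine ⟨hp, fun n hn => ?_⟩
  have hexp : Real.exp ((2 * b + 1) * Real.log N) = (N : ℝ) ^ (2 * b + 1) := by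
    rw [← Real.exp_log (pow_pos hN0 (2 * b + 1)), Real.log_pow]
    push_cast
    ring_nf
  rw [u_eq Q hμ N hN, hexp]
  have hn' : (n : ℝ) ≤ 10 * N := by exact_mod_cast hn
  have hNb : (1 : ℝ) ≤ (N : ℝ) ^ b := one_le_pow₀ hN1
  -- the left side
  have hL : zq Q ^ n * (a Q (2 * n) : ℝ) ≤ (C + 40) * 20 ^ b * (N : ℝ) ^ (b + 1) := by
    have h20 : (1 : ℝ) ≤ 20 ^ b := one_le_pow₀ (by norm_num)
    have hNb1 : (1 : ℝ) ≤ (N : ℝ) ^ (b + 1) := one_le_pow₀ hN1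
    have hbase : (1 : ℝ) ≤ 20 ^ b * (N : ℝ) ^ (b + 1) := by nlinarith
    rcases hC n with h | ⟨h2, h⟩
    · refine h.trans ?_
      rw [mul_assoc]
      nlinarith
    · refine h.trans ?_
      have h3 : (2 * n : ℝ) ^ b ≤ (20 * N : ℝ) ^ b :=
        pow_le_pow_left₀ (by positivity) (by linarith) b
      have h4 : (4 * n : ℝ) * (2 * n : ℝ) ^ b ≤ (40 * N) * (20 * N : ℝ) ^ b := by
        apply mul_le_mul (by linarith) h3 (by positivity) (by positivity)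
      refine h4.trans ?_
      rw [mul_pow]
      have h5 : (40 * (N : ℝ)) * (20 ^ b * (N : ℝ) ^ b) = 40 * (20 ^ b * (N : ℝ) ^ (b + 1)) := by
        rw [pow_succ]; ring
      rw [h5, mul_assoc]
      nlinarith
  refine hL.trans ?_
  -- (C+40) 20^b N^(b+1) ≤ N^(2b+1) * (4 N yq)
  have h6 : (C + 40) * 20 ^ b * (N : ℝ) ^ (b + 1) ≤
      (C + 40) * 20 ^ b * (N : ℝ) ^ (b + 1) * ((2 * N : ℝ) ^ b * yq Q N) := by
    have : 0 ≤ (C + 40) * 20 ^ b * (N : ℝ) ^ (b + 1) := by positivity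
    nlinarith
  refine h6.trans ?_
  have h7 : (C + 40) * 20 ^ b * (N : ℝ) ^ (b + 1) * ((2 * N : ℝ) ^ b * yq Q N) =
      ((C + 40) * 40 ^ b) * ((N : ℝ) ^ (2 * b + 1) * yq Q N) := by
    rw [mul_pow, show (40 : ℝ) = 20 * 2 by norm_num, mul_pow]
    have : (N : ℝ) ^ (2 * b + 1) = (N : ℝ) ^ (b + 1) * (N : ℝ) ^ b := by
      rw [← pow_add]; congr 1; ring
    rw [this]
    ring
  rw [h7]
  have h8 : 0 ≤ (N : ℝ) ^ (2 * b + 1) * yq Q N := by positivity
  have h9 : ((C + 40) * 40 ^ b) * ((N : ℝ) ^ (2 * b + 1) * yq Q N) ≤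
      N * ((N : ℝ) ^ (2 * b + 1) * yq Q N) := mul_le_mul_of_nonneg_right hbigN h8
  refine h9.trans ?_
  nlinarith [mul_nonneg hN0.le h8]

end Pool.Agent.T6.H92.TK
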