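import Pool.Agent.T6.H92.TK.Core5
import Pool.Agent.T6.H92.TG.Dif
import Pool.Agent.T6.H92.TG.Obs0
import Pool.Agent.T6.H92.TK.Tog3
import Pool.Agent.T6.H92.TK.Loc
import Pool.Agent.T6.H92.TK.Uni
import Pool.Agent.T6.H92.TK.Sap
import Pool.Agent.T6.H92.TK.SelG
import Pool.Agent.T6.H92.TK.Sel3
import Pool.Agent.T6.H92.TK.Cnt
import Pool.Agent.T6.H92.TK.Pol

/-!
# Lattice knots: smoothness of all orders of the numbers of polygons
-/

set_option autoImplicit false

namespace Pool.Agent.T6.H92.TK

open Finset Filter Topology Pool.Agent.T6.H92.TG KN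
open TH966.KS (yq yq_nonneg)
open scoped Classical

noncomputable section

/-! ### functions of the level -/

section

variable {α ι : Type} {K : ℕ → Finset α} {Fl Bu : α → Finset ι} {up dn : α → ι → α}

/-- the mean differences of a product of an invariant function and a function of the level -/
theorem VV_level (T : Tog K Fl Bu up dn) {h : α → ℝ} (hh : TG.Inv K Fl up h) (g : ℕ → ℝ)
    {φ : α → ℝ} (hφ : ∀ n, ∀ w ∈ K n, φ w = h w * g n) (j : ℕ) :
    ∀ n, ∀ w ∈ K n, j ≤ (Fl w).card → VV Fl up φ j w = h w * D j g n := by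
  induction j with
  | zero => intro n w hw _; exact hφ n w hw
  | succ j ih =>
    intro n w hw hf
    rw [VV_succ, ih n w hw (by omega), D_succ]
    rw [UU_const (a := h w * D j g (n + 1)) (by omega)]
    · ring
    · intro c hc
      rw [ih (n + 1) _ (T.up_mem n w hw c hc) (by rw [card_up_fl T hw hc]; omega), hh n w hw c hc]

end

theorem D_inv (j : ℕ) : ∀ n : ℕ, 1 ≤ n → D j (fun n : ℕ => 1 / (n : ℝ)) n =
    (-1) ^ j * (j.factorial : ℝ) / ∏ i ∈ range (j + 1), ((n : ℝ) + i) := by
  induction j with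
  | zero =>
    intro n hn
    simp [D]
  | succ j ih =>
    intro n hn
    have hn0 : (0 : ℝ) < n := by exact_mod_cast hn
    rw [D_succ, ih n hn, ih (n + 1) (by omega)]
    have hP : (0 : ℝ) < ∏ i ∈ range j, ((n : ℝ) + (i + 1)) :=
      Finset.prod_pos fun i _ => by positivity
    have e1 : ∏ i ∈ range (j + 1), (((n + 1 : ℕ) : ℝ) + i) =
        (∏ i ∈ range j, ((n : ℝ) + (i + 1))) * (n + (j + 1)) := by
      rw [Finset.prod_range_succ]
      congr 1
      · refine Finset.prod_congr rfl fun i _ => ?_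
        push_cast; ring
      · push_cast; ring
    have e2 : ∏ i ∈ range (j + 1), ((n : ℝ) + i) =
        (∏ i ∈ range j, ((n : ℝ) + (i + 1))) * n := by
      rw [Finset.prod_range_succ']
      congr 1
      · refine Finset.prod_congr rfl fun i _ => ?_
        push_cast; ring
      · simp
    have e3 : ∏ i ∈ range (j + 1 + 1), ((n : ℝ) + i) =
        (∏ i ∈ range j, ((n : ℝ) + (i + 1))) * (n + (j + 1)) * n := by
      rw [Finset.prod_range_succ']
      congr 1
      · rw [Finset.prod_range_succ]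
        congr 1
        · refine Finset.prod_congr rfl fun i _ => ?_
          push_cast; ring
        · push_cast; ring
      · simp
    rw [e1, e2, e3, Nat.factorial_succ, pow_succ]
    push_cast
    field_simp
    ring

theorem D_inv_le (j n : ℕ) (hn : 1 ≤ n) : |D j (fun n : ℕ => 1 / (n : ℝ)) n| ≤
    (j.factorial : ℝ) / (n : ℝ) ^ (j + 1) := by
  have hn0 : (0 : ℝ) < n := by exact_mod_cast hn
  rw [D_inv j n hn]
  have hP : (n : ℝ) ^ (j + 1) ≤ ∏ i ∈ range (j + 1), ((n : ℝ) + i) := by
    have : (n : ℝ) ^ (j + 1) = ∏ _i ∈ range (j + 1), (n : ℝ) := by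
      rw [Finset.prod_const, Finset.card_range]
    rw [this]
    refine Finset.prod_le_prod (fun i _ => hn0.le) fun i _ => ?_
    have : (0 : ℝ) ≤ i := Nat.cast_nonneg _
    linarith
  have hn1 : (0 : ℝ) < (n : ℝ) ^ (j + 1) := by positivity
  rw [abs_div, abs_mul, abs_pow, abs_neg, abs_one, one_pow, one_mul,
    abs_of_nonneg (show (0 : ℝ) ≤ (j.factorial : ℝ) by positivity), abs_of_pos (hn1.trans_le hP)]
  exact div_le_div_of_nonneg_left (by positivity) hn1 hP

/-! ### the system of lattice polygons -/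

theorem tog : StmTog := tog3 loc uni sap

theorem sel : StmSel := sel3 selG uni

theorem perp_card (e : Dir) : ((univ : Finset Dir).filter (fun d => perp d e)).card ≤ 4 := by
  cases e <;> decide

theorem FL_card (R : Finset (Finset Z3)) (w : List Dir) : (FL R w).card ≤ 4 * w.length := by
  have h1 : FL R w ⊆ (sites w).image (fun q => fcell w q.1 q.2) := by
    intro c hc
    unfold FL at hc
    rw [mem_filter] at hc
    obtain ⟨q, hq, rfl⟩ := hc.2
    exact mem_image_of_mem _ hq
  refine (Finset.card_le_card h1).trans (Finset.card_image_le.trans ?_)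
  have h2 : sites w ⊆ ((range w.length).sigma (fun i => (univ : Finset Dir).filter
      (fun d => perp d (w.getD i .xp)))).image (fun x => (x.1, x.2)) := by
    intro q hq
    unfold sites at hq
    rw [mem_filter, mem_product] at hq
    rw [mem_image]
    refine ⟨⟨q.1, q.2⟩, ?_, rfl⟩
    rw [mem_sigma, mem_filter]
    exact ⟨hq.1.1, mem_univ _, hq.2.2.1⟩
  refine (Finset.card_le_card h2).trans (Finset.card_image_le.trans ?_)
  rw [Finset.card_sigma]
  calc ∑ i ∈ range w.length, ((univ : Finset Dir).filter (fun d => perp d (w.getD i .xp))).card ≤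
      ∑ _i ∈ range w.length, 4 := Finset.sum_le_sum fun i _ => perp_card _
    _ = 4 * w.length := by rw [Finset.sum_const, Finset.card_range, smul_eq_mul, mul_comm]

theorem BU_card (R : Finset (Finset Z3)) (w : List Dir) : (BU R w).card ≤ w.length := by
  unfold BU
  split_ifs
  · simp
  · have h1 : R.filter (IsB w) ⊆ (bumps w).image (bcell w) := by
      intro c hc
      rw [mem_filter] at hc
      obtain ⟨j, hj, rfl⟩ := hc.2
      exact mem_image_of_mem _ hj
    refine (Finset.card_le_card h1).trans (Finset.card_image_le.trans ?_)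
    unfold bumps
    exact (Finset.card_filter_le _ _).trans (by rw [Finset.card_range])

/-- **general classes** -/
theorem gen (Q : List Dir → Prop) (hQ : KClass Q) (hne : ∃ w, SAP w ∧ Q w) (k : ℕ) :
    ∃ (C δ : ℝ) (N₀ : ℕ), 0 ≤ C ∧ 0 < δ ∧ ∀ N ≥ N₀, ∀ Λ : ℝ, 1 ≤ Λ → Real.log Λ ≤ δ * N →
      Real.exp (-(δ * N)) ≤ zq Q ^ N * (a Q (2 * N) : ℝ) →
      (∀ n, N ≤ 2 * n → n ≤ 2 * N → zq Q ^ n * (a Q (2 * n) : ℝ) ≤
        Λ * (zq Q ^ N * (a Q (2 * N) : ℝ))) →
      |D k (yq Q) N| ≤ C * (Real.sqrt ((1 + Real.log Λ) / N) ^ k * yq Q N) := by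
  obtain ⟨hg1, -, -⟩ := gr_bounds Q hQ hne
  have hμ : 0 < gr Q := by linarith
  obtain ⟨θ, C', hθ0, hθ1, hpat⟩ := class_pattern Q hQ hne
  obtain ⟨Cs, cs, c₁, hCs, hcs, hc₁, hsel⟩ := sel k
  set cθ : ℝ := -Real.log θ with hcθ
  have hcθ0 : 0 < cθ := by
    have := Real.log_neg hθ0 hθ1
    linarith
  have hC'0 : 0 ≤ |C'| := abs_nonneg _
  have hz0 : 0 < zq Q := by unfold zq; positivity
  have hz1 : zq Q ≤ 1 := by
    unfold zq
    apply inv_le_one_of_one_le₀
    nlinarith
  set M : ℝ := (k.factorial : ℝ) with hM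
  have hM1 : 1 ≤ M := by
    rw [hM]
    exact_mod_cast Nat.succ_le_of_lt k.factorial_pos
  obtain ⟨C, r₀, N₀, hC, hr₀, hcore⟩ := core5 dif k (zq Q) 1 c₁ (|C'| + Cs) (min cs cθ) M
    ⟨hz0, hz1, zero_le_one, hc₁, by positivity, lt_min hcs hcθ0, by linarith⟩
  refine ⟨C, min (r₀ ^ 2 / 2) cθ, max (max N₀ (max 3 k)) ⌈2 / r₀ ^ 2⌉₊, hC,
    lt_min (by positivity) hcθ0, ?_⟩
  intro N hN Λ hΛ hΛN hlow hgrow
  have hN1 : N ≥ N₀ := (le_max_left _ _).trans ((le_max_left _ _).trans hN)
  have hN3 : 3 ≤ N := (le_max_left _ _).trans ((le_max_right _ _).trans ((le_max_left _ _).trans hN))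
  have hNk : k ≤ N := (le_max_right _ _).trans ((le_max_right _ _).trans ((le_max_left _ _).trans hN))
  have hN2 : 2 / r₀ ^ 2 ≤ (N : ℝ) := (Nat.le_ceil _).trans (by exact_mod_cast (le_max_right _ _).trans hN)
  have hNp : (0 : ℝ) < N := by
    have : 0 < N := by omega
    exact_mod_cast this
  have hlΛ : 0 ≤ Real.log Λ := Real.log_nonneg hΛ
  set r : ℝ := Real.sqrt ((1 + Real.log Λ) / N) with hr
  have hr2 : r ^ 2 = (1 + Real.log Λ) / N := Real.sq_sqrt (by positivity)
  have hr2N : r ^ 2 * N = 1 + Real.log Λ := by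
    rw [hr2]; field_simp
  have hrp : 0 < r := Real.sqrt_pos.2 (by positivity)
  have hrr : r ≤ r₀ := by
    apply Real.sqrt_le_iff.2
    refine ⟨hr₀.le, ?_⟩
    rw [div_le_iff₀ hNp]
    have h1 : Real.log Λ ≤ r₀ ^ 2 / 2 * N :=
      hΛN.trans (mul_le_mul_of_nonneg_right (min_le_left _ _) hNp.le)
    have h2 : 1 ≤ r₀ ^ 2 / 2 * N := by
      rw [div_le_iff₀ (by positivity)] at hN2
      linarith
    linarith
  have hexpΛ : Λ ≤ Real.exp (1 * (r ^ 2 * N)) := by
    rw [hr2N, one_mul, Real.exp_add, Real.exp_log (by linarith)]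
    have := Real.add_one_le_exp (1 : ℝ)
    nlinarith
  have hexp1 : 1 ≤ Real.exp (1 * (r ^ 2 * N)) := hΛ.trans hexpΛ
  obtain ⟨R, hRs, hR⟩ := hsel Q N hN3
  have hmem : ∀ {n : ℕ} {w : List Dir}, w ∈ K Q n → w.length = n := fun h =>
    (ModKTOG3.mem_K.1 h).1
  have hzN : 0 < zq Q ^ N := by positivity
  set q : ℝ := zq Q ^ N * (a Q (2 * N) : ℝ) with hq
  have hq0 : 0 ≤ q := by positivity
  have hres := hcore N hN1 r hrp hrr (by rw [hr2N]; linarith) (List Dir) (Finset Z3)
    (fun n => K Q (2 * n)) (FL R) (BU R) UP DN (fun w => 2 * N / (w.length : ℝ))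
    (tog Q (GEN.inv_of Q hQ) R hRs)
    (fun w hw => by
      have h1 := hmem hw
      have h2 := FL_card R w
      have h3 := BU_card R w
      constructor <;> omega)
    (fun n hn1 hn2 => by
      refine (hgrow n hn1 hn2).trans ?_
      exact mul_le_mul_of_nonneg_right hexpΛ hq0)
    (fun i hi => by
      have hzi : 0 ≤ zq Q ^ (N + i) := by positivity
      have h1 := hR i hi
      have h2 : (((K Q (2 * (N + i))).filter (fun w => 10 ^ 7 * bu w ≤ 2 * (N + i))).card : ℝ) ≤
          C' * (θ * gr Q) ^ (2 * (N + i)) := by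
        refine le_trans ?_ (hpat (2 * (N + i)))
        have : (K Q (2 * (N + i))).filter (fun w => 10 ^ 7 * bu w ≤ 2 * (N + i)) ⊆
            (K Q (2 * (N + i))).filter (fun w => 10 ^ 7 * fr w ≤ 2 * (N + i) ∨
              10 ^ 7 * bu w ≤ 2 * (N + i)) := by
          intro w hw
          rw [mem_filter] at hw ⊢
          exact ⟨hw.1, Or.inr hw.2⟩
        unfold bad
        exact_mod_cast Finset.card_le_card this
      have h3 : zq Q ^ (N + i) * (C' * (θ * gr Q) ^ (2 * (N + i))) ≤
          |C'| * (Real.exp (-(cθ * N)) * q) := by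
        have e1 : zq Q ^ (N + i) * (C' * (θ * gr Q) ^ (2 * (N + i))) =
            C' * θ ^ (2 * (N + i)) := by
          unfold zq
          have : gr Q ^ (2 * (N + i)) ≠ 0 := (pow_pos hμ _).ne'
          rw [mul_pow, inv_pow, ← pow_mul]
          field_simp
        rw [e1]
        have e2 : θ ^ (2 * (N + i)) ≤ Real.exp (-(cθ * N)) * q := by
          have e3 : θ ^ (2 * (N + i)) ≤ θ ^ (2 * N) :=
            pow_le_pow_of_le_one hθ0.le hθ1.le (by omega)
          have e4 : θ ^ (2 * N) = Real.exp (-(cθ * N)) * Real.exp (-(cθ * N)) := by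
            rw [← Real.exp_add, hcθ, ← Real.exp_log (pow_pos hθ0 (2 * N)), Real.log_pow]
            push_cast
            congr 1
            ring
          have e5 : Real.exp (-(cθ * N)) ≤ q := by
            refine le_trans ?_ hlow
            apply Real.exp_le_exp.2
            have := mul_le_mul_of_nonneg_right (min_le_right (r₀ ^ 2 / 2) cθ) hNp.le
            linarith
          calc θ ^ (2 * (N + i)) ≤ Real.exp (-(cθ * N)) * Real.exp (-(cθ * N)) := by
                rw [← e4]; exact e3
            _ ≤ _ := mul_le_mul_of_nonneg_left e5 (Real.exp_pos _).le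
        have e6 : 0 ≤ θ ^ (2 * (N + i)) := by positivity
        calc C' * θ ^ (2 * (N + i)) ≤ |C'| * θ ^ (2 * (N + i)) :=
              mul_le_mul_of_nonneg_right (le_abs_self _) e6
          _ ≤ _ := mul_le_mul_of_nonneg_left e2 hC'0
      have h4 : zq Q ^ (N + i) * (a Q (2 * (N + i)) : ℝ) ≤ Λ * q :=
        hgrow (N + i) (by omega) (by omega)
      have hmin : ∀ c : ℝ, min cs cθ ≤ c → Real.exp (-(c * N)) ≤ Real.exp (-(min cs cθ * N)) := by
        intro c hc
        apply Real.exp_le_exp.2
        have := mul_le_mul_of_nonneg_right hc hNp.le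
        linarith
      set E := Real.exp (-(min cs cθ * N)) with hE
      have hE0 : 0 ≤ E := (Real.exp_pos _).le
      calc zq Q ^ (N + i) * (((K Q (2 * (N + i))).filter
            (fun w => ((BU R w).card : ℝ) < c₁ * N)).card : ℝ) ≤
          zq Q ^ (N + i) * (C' * (θ * gr Q) ^ (2 * (N + i)) +
            Cs * Real.exp (-(cs * N)) * (a Q (2 * (N + i)) : ℝ)) := by
            apply mul_le_mul_of_nonneg_left _ hzi
            refine h1.trans (add_le_add h2 le_rfl)
        _ = zq Q ^ (N + i) * (C' * (θ * gr Q) ^ (2 * (N + i))) +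
            Cs * Real.exp (-(cs * N)) * (zq Q ^ (N + i) * (a Q (2 * (N + i)) : ℝ)) := by ring
        _ ≤ |C'| * (Real.exp (-(cθ * N)) * q) + Cs * Real.exp (-(cs * N)) * (Λ * q) := by
            apply add_le_add h3
            apply mul_le_mul_of_nonneg_left h4
            have := Real.exp_pos (-(cs * N))
            positivity
        _ ≤ |C'| * (E * q) + Cs * E * (Λ * q) := by
            have a1 := hmin cθ (min_le_right _ _)
            have a2 := hmin cs (min_le_left _ _)
            gcongr
        _ ≤ |C'| * (Real.exp (1 * (r ^ 2 * N)) * E * q) +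
            Cs * (Real.exp (1 * (r ^ 2 * N)) * E * q) := by
            apply add_le_add
            · apply mul_le_mul_of_nonneg_left _ hC'0
              have : 0 ≤ E * q := by positivity
              nlinarith
            · have : Cs * E * (Λ * q) = Cs * (Λ * E * q) := by ring
              rw [this]
              apply mul_le_mul_of_nonneg_left _ hCs.le
              gcongr
        _ = _ := by
            show _ = (|C'| + Cs) * (Real.exp (1 * (r ^ 2 * N)) * E) * q
            ring)
    (fun i hi w hw => by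
      have h1 := hmem hw
      rw [h1]
      push_cast
      have h2 : (0 : ℝ) ≤ i := Nat.cast_nonneg _
      rw [abs_of_nonneg (by positivity), div_le_iff₀ (by positivity)]
      nlinarith)
    (fun j hj w hw hf => by
      have h1 := VV_level (tog Q (GEN.inv_of Q hQ) R hRs) (h := fun _ => (N : ℝ)) (fun _ _ _ _ _ => rfl)
        (fun n : ℕ => 1 / (n : ℝ)) (φ := fun w => 2 * N / (w.length : ℝ))
        (fun n v hv => by
          rw [hmem hv]
          push_cast
          rcases Nat.eq_zero_or_pos n with h0 | h0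
          · rw [h0]; simp
          · have : (n : ℝ) ≠ 0 := by positivity
            field_simp) j N w hw (by omega)
      rw [h1, abs_mul, abs_of_pos hNp]
      have h2 := D_inv_le j N (by omega)
      have h3 : (j.factorial : ℝ) ≤ M := by
        rw [hM]
        exact_mod_cast Nat.factorial_le hj
      calc (N : ℝ) * |D j (fun n : ℕ => 1 / (n : ℝ)) N| ≤
          N * ((j.factorial : ℝ) / (N : ℝ) ^ (j + 1)) := mul_le_mul_of_nonneg_left h2 hNp.le
        _ = (j.factorial : ℝ) / (N : ℝ) ^ j := by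
            rw [pow_succ]
            field_simp
        _ ≤ M / (N : ℝ) ^ j := by gcongr)
  have hD : D k (fun n => zq Q ^ n * ∑ w ∈ K Q (2 * n), 2 * N / (w.length : ℝ)) N =
      D k (fun n => 4 * N * yq Q n) N := by
    apply D_congr
    intro n hn1 hn2
    have hn0 : 1 ≤ n := by omega
    have hnp : (0 : ℝ) < n := by exact_mod_cast hn0
    have h1 : ∑ w ∈ K Q (2 * n), 2 * N / (w.length : ℝ) = (a Q (2 * n) : ℝ) * (N / n) := by
      have : ∀ w ∈ K Q (2 * n), 2 * (N : ℝ) / (w.length : ℝ) = N / n := by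
        intro w hw
        rw [hmem hw]
        push_cast
        field_simp
      rw [Finset.sum_congr rfl this, Finset.sum_const, nsmul_eq_mul]
      rfl
    have h2 := ModKCNT.u_eq Q hμ n hn0
    rw [h1, ← mul_assoc, h2]
    field_simp
  have hq2 : q = 4 * N * yq Q N := ModKCNT.u_eq Q hμ N (by omega)
  rw [hD, D_mul, abs_mul, abs_of_pos (show (0 : ℝ) < 4 * N by positivity)] at hres
  have hres2 : 4 * (N : ℝ) * |D k (yq Q) N| ≤ 4 * N * (C * (r ^ k * yq Q N)) := by
    refine hres.trans (le_of_eq ?_)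
    show C * (r ^ k * q) = _
    rw [hq2]
    ring
  exact le_of_mul_le_mul_left hres2 (by positivity)

end

end Pool.Agent.T6.H92.TK
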