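import Pool.Agent.T6.H92.TK.Fin
import Pool.Agent.T6.H92.TK.Defs3

/-!
# Lattice knots: smoothness of all orders, consequences
-/

set_option autoImplicit false

namespace Pool.Agent.T6.H92.TK

open Finset Filter Topology Pool.Agent.T6.H92.TG KN
open TH966.KS (yq yq_nonneg)
open Pool.Agent.R945.KR (log_csum ub_csum)
open scoped Classical

noncomputable section

/-- **closed classes** -/
theorem closed_all (Q : List Dir → Prop) (hQ : KClass Q) (hne : ∃ w, SAP w ∧ Q w) (hc : CSum Q)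
    (k : ℕ) : ∃ C : ℝ, 0 ≤ C ∧ ∀ᶠ N : ℕ in atTop, |D k (yq Q) N| ≤
      C * (Real.sqrt ((4 + lq Q N) / (2 * N)) ^ k * yq Q N) := by
  obtain ⟨C, δ, N₀, hC, hδ, hgen⟩ := gen Q hQ hne k
  obtain ⟨L, hL, hcnt, hlim⟩ := cnt Q hQ hne hc
  obtain ⟨hg1, -, -⟩ := gr_bounds Q hQ hne
  have hμ : 0 < gr Q := by linarith
  have h1 : ∀ᶠ N : ℕ in atTop, lq Q N / N ≤ δ / 2 :=
    hlim.eventually_le_const (by positivity)
  have h2 : ∀ᶠ N : ℕ in atTop, 2 * L / δ ≤ (N : ℝ) :=
    (tendsto_natCast_atTop_atTop (R := ℝ)).eventually_ge_atTop _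
  refine ⟨C * Real.sqrt (2 * (1 + L)) ^ k, by positivity, ?_⟩
  filter_upwards [hcnt, h1, h2, ub_csum Q hQ hne hc, eventually_ge_atTop N₀, eventually_ge_atTop 1]
    with N hN hl hLN hub hN0 hN1
  obtain ⟨hp, hlL, hgr⟩ := hN
  have hNp : (0 : ℝ) < N := by exact_mod_cast hN1
  have hN1' : (1 : ℝ) ≤ N := by exact_mod_cast hN1
  have hy : 0 < yq Q N := div_pos hp (pow_pos hμ _)
  have hlq := ModKCNT.lq_eq Q N
  have hl3 : -3 ≤ lq Q N := by
    rw [hlq]
    have h3 : Real.log (yq Q N) ≤ Real.log 16 := Real.log_le_log hy hub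
    have h16 : Real.log 16 = 4 * Real.log 2 := by
      rw [show (16 : ℝ) = 2 ^ 4 by norm_num, Real.log_pow]; norm_num
    have := Real.log_two_lt_d9
    linarith
  have hexp : Real.exp (-(lq Q N)) = yq Q N := by rw [hlq, neg_neg, Real.exp_log hy]
  rw [div_le_iff₀ hNp] at hl
  rw [div_le_iff₀ hδ] at hLN
  have hlog : Real.log (Real.exp (L + lq Q N)) = L + lq Q N := Real.log_exp _
  have h3 := hgen N hN0 (Real.exp (L + lq Q N)) (Real.one_le_exp (by linarith))
    (by rw [hlog]; linarith)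
    (by
      rw [ModKCNT.u_eq Q hμ N hN1]
      have e1 : Real.exp (-(δ * N)) ≤ yq Q N := by
        rw [← hexp]
        apply Real.exp_le_exp.2
        have : 0 ≤ δ * N := by positivity
        linarith
      nlinarith)
    (fun n hn1 hn2 => hgr n (by omega))
  rw [hlog] at h3
  refine h3.trans ?_
  have h4 : Real.sqrt ((1 + (L + lq Q N)) / N) ≤
      Real.sqrt (2 * (1 + L)) * Real.sqrt ((4 + lq Q N) / (2 * N)) := by
    rw [← Real.sqrt_mul (by positivity)]
    apply Real.sqrt_le_sqrt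
    have : 2 * (1 + L) * ((4 + lq Q N) / (2 * N)) = (1 + L) * (4 + lq Q N) / N := by field_simp
    rw [this]
    apply div_le_div_of_nonneg_right _ hNp.le
    nlinarith
  calc C * (Real.sqrt ((1 + (L + lq Q N)) / N) ^ k * yq Q N) ≤
      C * ((Real.sqrt (2 * (1 + L)) * Real.sqrt ((4 + lq Q N) / (2 * N))) ^ k * yq Q N) := by
        gcongr
    _ = _ := by rw [mul_pow]; ring

/-- **classes with polynomial bounds** -/
theorem poly_all (Q : List Dir → Prop) (hQ : KClass Q) (hne : ∃ w, SAP w ∧ Q w) (b : ℕ)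
    (hb : ∀ᶠ j : ℕ in atTop, gr Q ^ (2 * j) ≤ (2 * j : ℝ) ^ b * pq Q (2 * j) ∧
      pq Q (2 * j) ≤ (2 * j : ℝ) ^ b * gr Q ^ (2 * j)) (k : ℕ) :
    ∃ C : ℝ, 0 ≤ C ∧ ∀ᶠ N : ℕ in atTop, |D k (yq Q) N| ≤
      C * (Real.sqrt (Real.log (2 * N) / (2 * N)) ^ k * yq Q N) := by
  obtain ⟨C, δ, N₀, hC, hδ, hgen⟩ := gen Q hQ hne k
  obtain ⟨L, hL, hcnt⟩ := pol Q hQ hne b hb
  obtain ⟨hg1, -, -⟩ := gr_bounds Q hQ hne
  have hμ : 0 < gr Q := by linarith
  have h1 : ∀ᶠ N : ℕ in atTop, L * Real.log N ≤ δ * N := by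
    have hd : 0 < δ / (L + 1) := by positivity
    filter_upwards [(Real.isLittleO_log_id_atTop.comp_tendsto
      (tendsto_natCast_atTop_atTop (R := ℝ))).def hd, eventually_ge_atTop 1] with N hN hN1
    have hN1' : (1 : ℝ) ≤ N := by exact_mod_cast hN1
    have hlog : 0 ≤ Real.log (N : ℝ) := Real.log_nonneg hN1'
    simp only [Function.comp, id, Real.norm_eq_abs] at hN
    rw [abs_of_nonneg hlog, abs_of_nonneg (by linarith : (0 : ℝ) ≤ N)] at hN
    have h2 : (L + 1) * Real.log N ≤ δ * N := by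
      calc (L + 1) * Real.log N ≤ (L + 1) * (δ / (L + 1) * N) :=
            mul_le_mul_of_nonneg_left hN (by linarith)
        _ = δ * N := by field_simp
    nlinarith
  have h2 : ∀ᶠ N : ℕ in atTop, Real.exp (-(δ * N)) * (2 * N : ℝ) ^ b ≤ 1 := by
    have t1 := Real.tendsto_pow_mul_exp_neg_atTop_nhds_zero b
    have t2 : Tendsto (fun N : ℕ => δ * (N : ℝ)) atTop atTop :=
      (tendsto_natCast_atTop_atTop (R := ℝ)).const_mul_atTop hδ
    have t3 := (t1.comp t2).eventually_le_const (show (0 : ℝ) < (δ / 2) ^ b by positivity)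
    filter_upwards [t3] with N hN
    simp only [Function.comp] at hN
    have e1 : (2 * (N : ℝ)) ^ b = (δ * N) ^ b / (δ / 2) ^ b := by
      rw [← div_pow]
      congr 1
      field_simp
    rw [e1, ← mul_div_assoc, div_le_one (by positivity), mul_comm]
    exact hN
  refine ⟨C * Real.sqrt (2 * (1 + L)) ^ k, by positivity, ?_⟩
  filter_upwards [hcnt, h1, h2, hb, eventually_ge_atTop N₀, eventually_ge_atTop 3]
    with N hN hl hLN hbN hN0 hN3
  obtain ⟨hp, hgr⟩ := hN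
  have hN1 : 1 ≤ N := by omega
  have hNp : (0 : ℝ) < N := by exact_mod_cast hN1
  have hN1' : (1 : ℝ) ≤ N := by exact_mod_cast hN1
  have hN3' : (3 : ℝ) ≤ N := by exact_mod_cast hN3
  have hy : 0 < yq Q N := div_pos hp (pow_pos hμ _)
  have hlog : Real.log (Real.exp (L * Real.log N)) = L * Real.log N := Real.log_exp _
  have hlN : 0 ≤ Real.log (N : ℝ) := Real.log_nonneg hN1'
  have hlow : 1 ≤ (2 * N : ℝ) ^ b * yq Q N := by
    unfold TH966.KS.yq
    rw [← mul_div_assoc, le_div_iff₀ (pow_pos hμ _), one_mul]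
    exact hbN.1
  have h3 := hgen N hN0 (Real.exp (L * Real.log N)) (Real.one_le_exp (by positivity))
    (by rw [hlog]; exact hl)
    (by
      rw [ModKCNT.u_eq Q hμ N hN1]
      have e1 : Real.exp (-(δ * N)) ≤ yq Q N := by
        have e0 : 0 < Real.exp (-(δ * N)) := Real.exp_pos _
        calc Real.exp (-(δ * N)) ≤ Real.exp (-(δ * N)) * ((2 * N : ℝ) ^ b * yq Q N) :=
              le_mul_of_one_le_right e0.le hlow
          _ = (Real.exp (-(δ * N)) * (2 * N : ℝ) ^ b) * yq Q N := by ring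
          _ ≤ 1 * yq Q N := mul_le_mul_of_nonneg_right hLN hy.le
          _ = _ := one_mul _
      nlinarith)
    (fun n hn1 hn2 => hgr n (by omega))
  rw [hlog] at h3
  refine h3.trans ?_
  have hl1 : 1 ≤ Real.log (2 * N) := by
    rw [Real.le_log_iff_exp_le (by positivity)]
    have := Real.exp_one_lt_d9
    linarith
  have hl2 : Real.log N ≤ Real.log (2 * N) := Real.log_le_log hNp (by linarith)
  have h4 : Real.sqrt ((1 + L * Real.log N) / N) ≤
      Real.sqrt (2 * (1 + L)) * Real.sqrt (Real.log (2 * N) / (2 * N)) := by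
    rw [← Real.sqrt_mul (by positivity)]
    apply Real.sqrt_le_sqrt
    have : 2 * (1 + L) * (Real.log (2 * N) / (2 * N)) = (1 + L) * Real.log (2 * N) / N := by
      field_simp
    rw [this]
    apply div_le_div_of_nonneg_right _ hNp.le
    nlinarith
  calc C * (Real.sqrt ((1 + L * Real.log N) / N) ^ k * yq Q N) ≤
      C * ((Real.sqrt (2 * (1 + L)) * Real.sqrt (Real.log (2 * N) / (2 * N))) ^ k * yq Q N) := by
        gcongr
    _ = _ := by rw [mul_pow]; ring

/-- powers of comparable numbers -/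
theorem rpow_comp {x y β : ℝ} (hx : 0 < x) (hy : 0 < y) (h1 : y ≤ 2 * x) (h2 : x ≤ 2 * y) :
    x ^ β ≤ 2 ^ |β| * y ^ β := by
  have hq : 0 < x / y := by positivity
  have e1 : x ^ β = (x / y) ^ β * y ^ β := by
    rw [← Real.mul_rpow hq.le hy.le]
    congr 1
    field_simp
  rw [e1]
  apply mul_le_mul_of_nonneg_right _ (by positivity)
  rcases le_total 0 β with h | h
  · rw [abs_of_nonneg h]
    apply Real.rpow_le_rpow hq.le _ h
    rw [div_le_iff₀ hy]
    exact h2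
  · rw [abs_of_nonpos h]
    have e2 : (x / y) ^ β = (y / x) ^ (-β) := by
      rw [Real.rpow_neg (by positivity), ← Real.inv_rpow (by positivity), inv_div]
    rw [e2]
    apply Real.rpow_le_rpow (by positivity) _ (by linarith)
    rw [div_le_iff₀ hx]
    exact h1

/-- **the asymptotic form** -/
theorem form_all (Q : List Dir → Prop) (hQ : KClass Q) (hne : ∃ w, SAP w ∧ Q w) {A β : ℝ}
    (hA : 0 < A)
    (h : Tendsto (fun k : ℕ => pq Q (2 * k) / ((2 * k : ℝ) ^ β * gr Q ^ (2 * k))) atTop (𝓝 A))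
    (k : ℕ) : ∃ C : ℝ, 0 ≤ C ∧ ∀ᶠ N : ℕ in atTop, |D k (yq Q) N| ≤
      C * ((1 / Real.sqrt (2 * N)) ^ k * yq Q N) := by
  obtain ⟨C, δ, N₀, hC, hδ, hgen⟩ := gen Q hQ hne k
  obtain ⟨hg1, -, -⟩ := gr_bounds Q hQ hne
  have hμ : 0 < gr Q := by linarith
  have hy : ∀ᶠ N : ℕ in atTop, A / 2 * (2 * N : ℝ) ^ β ≤ yq Q N ∧ yq Q N ≤ 2 * A * (2 * N : ℝ) ^ β := by
    filter_upwards [h.eventually_const_le (show A / 2 < A by linarith),
      h.eventually_le_const (show A < 2 * A by linarith), eventually_ge_atTop 1] with N g1 g2 hN1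
    have hNp : (0 : ℝ) < N := by exact_mod_cast hN1
    have hb : 0 < (2 * N : ℝ) ^ β := by positivity
    have hg : 0 < gr Q ^ (2 * N) := pow_pos hμ _
    have e1 : pq Q (2 * N) / ((2 * N : ℝ) ^ β * gr Q ^ (2 * N)) = yq Q N / (2 * N : ℝ) ^ β := by
      unfold TH966.KS.yq
      field_simp
    rw [e1] at g1 g2
    rw [le_div_iff₀ hb] at g1
    rw [div_le_iff₀ hb] at g2
    exact ⟨g1, g2⟩
  obtain ⟨N₁, hN₁⟩ := eventually_atTop.1 hy
  set Λ : ℝ := 8 * 2 ^ |β| with hΛ
  have h2b : (1 : ℝ) ≤ 2 ^ |β| := Real.one_le_rpow (by norm_num) (abs_nonneg _)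
  have hΛ1 : 1 ≤ Λ := by rw [hΛ]; linarith
  have h1 : ∀ᶠ N : ℕ in atTop, Real.log Λ / δ ≤ (N : ℝ) :=
    (tendsto_natCast_atTop_atTop (R := ℝ)).eventually_ge_atTop _
  have h2 : ∀ᶠ N : ℕ in atTop, Real.exp (-(δ * N)) ≤ A / 2 * (2 * N : ℝ) ^ β := by
    have t1 := tendsto_rpow_mul_exp_neg_mul_atTop_nhds_zero (-β) (δ / 2) (by positivity)
    have t2 : Tendsto (fun N : ℕ => 2 * (N : ℝ)) atTop atTop :=
      (tendsto_natCast_atTop_atTop (R := ℝ)).const_mul_atTop (by norm_num)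
    filter_upwards [(t1.comp t2).eventually_le_const (show (0 : ℝ) < A / 2 by positivity),
      eventually_ge_atTop 1] with N hN hN1
    have hNp : (0 : ℝ) < N := by exact_mod_cast hN1
    simp only [Function.comp] at hN
    rw [Real.rpow_neg (by positivity), inv_mul_le_iff₀ (by positivity)] at hN
    have e1 : -(δ / 2) * (2 * (N : ℝ)) = -(δ * N) := by ring
    rw [e1] at hN
    linarith
  refine ⟨C * Real.sqrt (2 * (1 + Real.log Λ)) ^ k, by positivity, ?_⟩
  filter_upwards [hy, h1, h2, eventually_ge_atTop N₀, eventually_ge_atTop (2 * N₁ + 1)]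
    with N hyN hl hLN hN0 hN1'
  have hN1 : 1 ≤ N := by omega
  have hNp : (0 : ℝ) < N := by exact_mod_cast hN1
  have hN1'' : (1 : ℝ) ≤ N := by exact_mod_cast hN1
  have hb : 0 < (2 * N : ℝ) ^ β := by positivity
  have hy0 : 0 < yq Q N := lt_of_lt_of_le (by positivity) hyN.1
  have hlΛ : 0 ≤ Real.log Λ := Real.log_nonneg hΛ1
  rw [div_le_iff₀ hδ] at hl
  have h3 := hgen N hN0 Λ hΛ1 (by linarith)
    (by
      rw [ModKCNT.u_eq Q hμ N hN1]
      have := hLN.trans hyN.1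
      nlinarith)
    (fun n hn1 hn2 => by
      have hn0 : 1 ≤ n := by omega
      have hnp : (0 : ℝ) < n := by exact_mod_cast hn0
      rw [ModKCNT.u_eq Q hμ N hN1, ModKCNT.u_eq Q hμ n hn0]
      have g1 := (hN₁ n (by omega)).2
      have hn1r : (N : ℝ) ≤ 2 * n := by exact_mod_cast hn1
      have hn2r : (n : ℝ) ≤ 2 * N := by exact_mod_cast hn2
      have g2 := rpow_comp (x := 2 * (n : ℝ)) (y := 2 * (N : ℝ)) (β := β) (by positivity)
        (by positivity) (by linarith) (by linarith)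
      have g3 : yq Q n ≤ 2 * A * (2 ^ |β| * (2 * N : ℝ) ^ β) :=
        g1.trans (mul_le_mul_of_nonneg_left g2 (by positivity))
      have g4 : (2 * N : ℝ) ^ β ≤ 2 / A * yq Q N := by
        rw [div_mul_eq_mul_div, le_div_iff₀ hA]
        linarith [hyN.1]
      calc 4 * (n : ℝ) * yq Q n ≤ 4 * (2 * N) * (2 * A * (2 ^ |β| * (2 / A * yq Q N))) := by
            apply mul_le_mul (by linarith) _ (yq_nonneg Q hμ.le n) (by positivity)
            refine g3.trans ?_
            gcongr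
        _ = 4 * (Λ * (4 * N * yq Q N)) * (1 / 4) * 1 := by
            rw [hΛ]
            field_simp
            ring
        _ = _ := by ring)
  refine h3.trans ?_
  have h4 : Real.sqrt ((1 + Real.log Λ) / N) =
      Real.sqrt (2 * (1 + Real.log Λ)) * (1 / Real.sqrt (2 * N)) := by
    rw [mul_one_div, ← Real.sqrt_div (by positivity)]
    congr 1
    field_simp
  rw [h4, mul_pow]
  apply le_of_eq
  ring

/-- the polynomial bounds from the exponent -/
theorem expo_poly (Q : List Dir → Prop) (hQ : KClass Q) (hne : ∃ w, SAP w ∧ Q w) {β : ℝ}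
    (h : Tendsto (fun k : ℕ => Real.log (pq Q (2 * k) / gr Q ^ (2 * k)) / Real.log (2 * k)) atTop
      (𝓝 β)) : ∃ b : ℕ, ∀ᶠ j : ℕ in atTop, gr Q ^ (2 * j) ≤ (2 * j : ℝ) ^ b * pq Q (2 * j) ∧
      pq Q (2 * j) ≤ (2 * j : ℝ) ^ b * gr Q ^ (2 * j) := by
  obtain ⟨hg1, -, -⟩ := gr_bounds Q hQ hne
  have hμ : 0 < gr Q := by linarith
  refine ⟨⌈|β| + 1⌉₊, ?_⟩
  set b : ℕ := ⌈|β| + 1⌉₊ with hb
  have hbb : |β| + 1 ≤ b := Nat.le_ceil _
  have hβ1 := le_abs_self β
  have hβ2 := neg_abs_le β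
  filter_upwards [h.eventually_const_le (show -(b : ℝ) < β by linarith),
    h.eventually_le_const (show β < (b : ℝ) by linarith), class_pos Q hQ hne,
    eventually_ge_atTop 2] with N g1 g2 hp hN2
  have hN2' : (2 : ℝ) ≤ N := by exact_mod_cast hN2
  have hl : 0 < Real.log (2 * (N : ℝ)) := Real.log_pos (by linarith)
  have hg : 0 < gr Q ^ (2 * N) := pow_pos hμ _
  have hy : 0 < pq Q (2 * N) / gr Q ^ (2 * N) := div_pos hp hg
  rw [le_div_iff₀ hl] at g1
  rw [div_le_iff₀ hl] at g2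
  have hpow : Real.exp ((b : ℝ) * Real.log (2 * N)) = (2 * N : ℝ) ^ b := by
    rw [Real.exp_nat_mul, Real.exp_log (by linarith)]
  have hp0 : (0 : ℝ) < (2 * N : ℝ) ^ b := by positivity
  constructor
  · have h1 : Real.exp (-(b : ℝ) * Real.log (2 * N)) ≤ pq Q (2 * N) / gr Q ^ (2 * N) := by
      rw [← Real.exp_log hy]
      exact Real.exp_le_exp.2 g1
    rw [neg_mul, Real.exp_neg, hpow, le_div_iff₀ hg, inv_mul_le_iff₀ hp0] at h1
    exact h1
  · have h1 : pq Q (2 * N) / gr Q ^ (2 * N) ≤ Real.exp ((b : ℝ) * Real.log (2 * N)) := by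
      rw [← Real.exp_log hy]
      exact Real.exp_le_exp.2 g2
    rw [hpow, div_le_iff₀ hg] at h1
    exact h1

end

end Pool.Agent.T6.H92.TK
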