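import Pool.Agent.T6.H92.TK.Fin2

/-!
# Lattice knots: smoothness of all orders, small o
-/

set_option autoImplicit false

namespace Pool.Agent.T6.H92.TK

open Finset Filter Topology Pool.Agent.T6.H92.TG KN
open TH966.KS (yq yq_nonneg)
open scoped Classical

noncomputable section

theorem yq_pos (Q : List Dir → Prop) (hQ : KClass Q) (hne : ∃ w, SAP w ∧ Q w) :
    ∀ᶠ N : ℕ in atTop, 0 < yq Q N := by
  obtain ⟨hg1, -, -⟩ := gr_bounds Q hQ hne
  have hμ : 0 < gr Q := by linarith
  filter_upwards [class_pos Q hQ hne] with N hN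
  exact div_pos hN (pow_pos hμ _)

theorem yq_ratio (Q : List Dir → Prop) (hμ : 0 < gr Q) (N : ℕ) :
    yq Q (N + 1) / yq Q N = pq Q (2 * N + 2) / (gr Q ^ 2 * pq Q (2 * N)) := by
  unfold TH966.KS.yq
  have h1 : gr Q ^ (2 * N) ≠ 0 := (pow_pos hμ _).ne'
  have h2 : gr Q ≠ 0 := hμ.ne'
  rw [show 2 * (N + 1) = 2 * N + 2 by ring, pow_add]
  field_simp

theorem form_o (hlk : StmLK) (Q : List Dir → Prop) (hQ : KClass Q) (hne : ∃ w, SAP w ∧ Q w)
    {A β : ℝ} (hA : 0 < A)
    (h : Tendsto (fun k : ℕ => pq Q (2 * k) / ((2 * k : ℝ) ^ β * gr Q ^ (2 * k))) atTop (𝓝 A))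
    (k : ℕ) (hk : 1 ≤ k) :
    Tendsto (fun N : ℕ => D k (yq Q) N / yq Q N * Real.sqrt (2 * N) ^ k) atTop (𝓝 0) := by
  obtain ⟨hg1, -, -⟩ := gr_bounds Q hQ hne
  have hμ : 0 < gr Q := by linarith
  have h1 := hlk (yq Q) (fun N : ℕ => 1 / Real.sqrt (2 * N)) (yq_pos Q hQ hne)
    (by
      filter_upwards [eventually_ge_atTop 1] with N hN
      have hNp : (0 : ℝ) < N := by exact_mod_cast hN
      positivity)
    (by
      have t2 : Tendsto (fun N : ℕ => 2 * (N : ℝ)) atTop atTop :=
        (tendsto_natCast_atTop_atTop (R := ℝ)).const_mul_atTop (by norm_num)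
      have t3 := (Real.tendsto_sqrt_atTop.comp t2).inv_tendsto_atTop
      refine t3.congr fun N => ?_
      simp [Function.comp])
    (by
      filter_upwards [eventually_ge_atTop 1] with N hN i _
      have hNp : (0 : ℝ) < N := by exact_mod_cast hN
      have h2 : 1 / Real.sqrt (2 * ((N + i : ℕ) : ℝ)) ≤ 1 / Real.sqrt (2 * N) := by
        apply one_div_le_one_div_of_le (by positivity)
        apply Real.sqrt_le_sqrt
        push_cast
        have : (0 : ℝ) ≤ i := Nat.cast_nonneg _
        linarith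
      have h3 : 0 ≤ 1 / Real.sqrt (2 * (N : ℝ)) := by positivity
      linarith)
    (fun k => by
      obtain ⟨C, -, hC⟩ := form_all Q hQ hne hA h k
      exact ⟨C, hC⟩)
    (by
      have t1 := (Pool.Agent.R945.KR.of_form Q hQ hne hA h).const_mul (Real.sqrt 2)
      rw [mul_zero] at t1
      refine t1.congr fun N => ?_
      rw [yq_ratio Q hμ, div_div_eq_mul_div, div_one, Real.sqrt_mul (by norm_num)]
      ring)
    k hk
  refine h1.congr' ?_
  filter_upwards [yq_pos Q hQ hne, eventually_ge_atTop 1] with N hN hN1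
  have hNp : (0 : ℝ) < N := by exact_mod_cast hN1
  have h2 : 0 < Real.sqrt (2 * (N : ℝ)) := by positivity
  rw [div_pow, one_pow]
  field_simp

theorem expo_o (hlk : StmLK) (Q : List Dir → Prop) (hQ : KClass Q) (hne : ∃ w, SAP w ∧ Q w)
    {β : ℝ}
    (h : Tendsto (fun k : ℕ => Real.log (pq Q (2 * k) / gr Q ^ (2 * k)) / Real.log (2 * k)) atTop
      (𝓝 β)) (k : ℕ) (hk : 1 ≤ k) :
    Tendsto (fun N : ℕ => D k (yq Q) N / yq Q N * Real.sqrt (2 * N / Real.log (2 * N)) ^ k) atTop
      (𝓝 0) := by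
  obtain ⟨hg1, -, -⟩ := gr_bounds Q hQ hne
  have hμ : 0 < gr Q := by linarith
  obtain ⟨b, hb⟩ := expo_poly Q hQ hne h
  have hl0 : ∀ N : ℕ, 1 ≤ N → 0 < Real.log (2 * (N : ℝ)) := by
    intro N hN
    have hN' : (1 : ℝ) ≤ N := by exact_mod_cast hN
    exact Real.log_pos (by linarith)
  have h1 := hlk (yq Q) (fun N : ℕ => Real.sqrt (Real.log (2 * N) / (2 * N))) (yq_pos Q hQ hne)
    (by
      filter_upwards [eventually_ge_atTop 1] with N hN
      have hNp : (0 : ℝ) < N := by exact_mod_cast hN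
      have := hl0 N hN
      positivity)
    (by
      have t2 : Tendsto (fun N : ℕ => 2 * (N : ℝ)) atTop atTop :=
        (tendsto_natCast_atTop_atTop (R := ℝ)).const_mul_atTop (by norm_num)
      have t3 : Tendsto (fun x : ℝ => Real.log x / x) atTop (𝓝 0) := by
        have := Real.isLittleO_log_id_atTop.tendsto_div_nhds_zero
        exact this
      have t4 := (t3.comp t2).sqrt
      rw [Real.sqrt_zero] at t4
      exact t4)
    (by
      filter_upwards [eventually_ge_atTop 2] with N hN i _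
      have hN2 : (2 : ℝ) ≤ N := by exact_mod_cast hN
      have hi : (0 : ℝ) ≤ i := Nat.cast_nonneg _
      have h2 : Real.sqrt (Real.log (2 * ((N + i : ℕ) : ℝ)) / (2 * ((N + i : ℕ) : ℝ))) ≤
          Real.sqrt (Real.log (2 * N) / (2 * N)) := by
        apply Real.sqrt_le_sqrt
        have he := Real.exp_one_lt_d9
        refine Real.log_div_self_antitoneOn ?_ ?_ ?_
        · show Real.exp 1 ≤ _; linarith
        · show Real.exp 1 ≤ _; push_cast; linarith
        · push_cast; linarith
      have h3 : 0 ≤ Real.sqrt (Real.log (2 * (N : ℝ)) / (2 * N)) := Real.sqrt_nonneg _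
      linarith)
    (fun k => by
      obtain ⟨C, -, hC⟩ := poly_all Q hQ hne b hb k
      exact ⟨C, hC⟩)
    (by
      have t1 := (Pool.Agent.R945.KR.of_expo Q hQ hne h).norm
      rw [norm_zero] at t1
      have t2 := t1.const_mul (Real.sqrt 2)
      rw [mul_zero] at t2
      refine squeeze_zero_norm' ?_ t2
      filter_upwards [eventually_ge_atTop 3] with N hN
      have hNp : (0 : ℝ) < N := by
        have : 0 < N := by omega
        exact_mod_cast this
      have hN3 : (3 : ℝ) ≤ N := by exact_mod_cast hN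
      have hl := hl0 N (by omega)
      have hl1 : 0 < Real.log (N : ℝ) := Real.log_pos (by linarith)
      have hl2 : Real.log (N : ℝ) ≤ Real.log (2 * N) := Real.log_le_log hNp (by linarith)
      rw [yq_ratio Q hμ, norm_div, norm_mul, Real.norm_of_nonneg (Real.sqrt_nonneg _),
        Real.norm_of_nonneg (Real.sqrt_nonneg _)]
      have e : 1 / Real.sqrt (Real.log (2 * N) / (2 * N)) ≤
          Real.sqrt 2 * Real.sqrt (N / Real.log N) := by
        rw [← Real.sqrt_mul (by norm_num), one_div, ← Real.sqrt_inv, inv_div, ← mul_div_assoc]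
        apply Real.sqrt_le_sqrt
        exact div_le_div_of_nonneg_left (by positivity) hl1 hl2
      rw [div_eq_mul_one_div]
      calc ‖pq Q (2 * N + 2) / (gr Q ^ 2 * pq Q (2 * N)) - 1‖ *
            (1 / Real.sqrt (Real.log (2 * N) / (2 * N))) ≤
          ‖pq Q (2 * N + 2) / (gr Q ^ 2 * pq Q (2 * N)) - 1‖ *
            (Real.sqrt 2 * Real.sqrt (N / Real.log N)) :=
            mul_le_mul_of_nonneg_left e (norm_nonneg _)
        _ = _ := by ring)
    k hk
  refine h1.congr' ?_
  filter_upwards [yq_pos Q hQ hne, eventually_ge_atTop 1] with N hN hN1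
  have hNp : (0 : ℝ) < N := by exact_mod_cast hN1
  have hl := hl0 N hN1
  have h2 : 0 < Real.sqrt (Real.log (2 * (N : ℝ)) / (2 * N)) := by positivity
  have e : Real.sqrt (2 * N / Real.log (2 * N)) = (Real.sqrt (Real.log (2 * N) / (2 * N)))⁻¹ := by
    rw [← Real.sqrt_inv, inv_div]
  rw [e, inv_pow]
  field_simp

end

end Pool.Agent.T6.H92.TK
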